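import Pool.Agent.H33.TRC.TrcJ
import Pool.Agent.H2.GEN.AttH

/-!
# Joint chains near a point of a class (typed input of the labels of universal degree)

`JatN S c r β x Att ρ E`: at any finitely many points `(a k, w k)` of `Att` near `x` there are, on
one large event, chains of two-sided labels of the coordinates `c 0, …, c r` (the last one is the
target), with the precisions `β`, gradients at most `2 ^ (E J)`, near each other on the finer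
natural boxes; the gradients of the first `r` coordinates are small at the points near `x`.
-/

set_option autoImplicit false

namespace Pool.TRC

open Finset MvPolynomial
open Pool.Agent.H49.Ent Pool.Agent.H32.Dense Pool.STK Pool.KA Pool.KSAT Pool.K2S Pool.PB Pool.S6C
open Pool.GEN

variable {m : ℕ}

/-- **The joint chains near the point `x`.** -/
def JatN (S : PCl m) (c : ℕ → Fin m) (r : ℕ) (β : ℕ → ℝ → ℝ → ℝ) (x : ℝ) (Att : Set (ℝ × ℝ))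
    (ρ E : ℝ) : Prop :=
  ∀ e' : ℝ, 0 < e' → ∃ ρ' : ℝ, 0 < ρ' ∧ ∀ (N : ℕ) (a w : ℕ → ℝ),
    (∀ k < N, (a k, w k) ∈ Att ∧ w k ≤ a k ∧ |a k - x| ≤ ρ ∧ |w k - x| ≤ ρ) →
    ∀ φ : ℝ, 0 < φ → ∃ (K : ℕ) (d δ : ℕ → ℝ) (K₁ : ℝ), 0 < K₁ ∧
    (∀ l ≤ r, 0 < d l ∧ d l ≤ φ ∧ 0 ≤ δ l ∧ δ l ≤ φ) ∧
    Bas S (fun J F A => ∃ (B : F.Ω → Prop)
      (G : ℕ → PtT F → ℕ → MvPolynomial (Option (Fin m)) ℝ)
      (H : ℕ → LnT F → ℕ → MvPolynomial (Option (Fin m)) ℝ), Sub B A ∧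
      Pe F.p A ≤ K₁ * Pe F.p B ∧
      Pool.CHT.MCh F c (r + 1) (fun _ => K) N (fun k k' => a k ≤ a k' ∧ w k ≤ w k')
        (fun k => ⌊a k * J⌋₊) (fun k => ⌊w k * J⌋₊) ⌊E * J⌋₊
        (fun k l => ⌊(β l (a k) (w k) - d l) * J⌋₊) (fun l => ⌊δ l * J⌋₊) B G H ∧
      ∀ k < N, |a k - x| ≤ ρ' → |w k - x| ≤ ρ' →
        ChOK F c r (fun _ => K) ⌊a k * J⌋₊ ⌊w k * J⌋₊ ⌊e' * J⌋₊
          (fun l => ⌊(β l (a k) (w k) - d l) * J⌋₊) B (G k) (H k))

end Pool.TRC
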