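import Pool.Agent.H31.STAT.Trc
import Pool.Agent.H36.STAT.Dgb

/-!
# Labels of universal degree, for closed variables

`trc_cls`: the polynomials of universal degree (row 375) are functions of the labels of all
levels. They are near the polynomials of the last level on its
natural boxes. (Point side: the closed labels; line side: the label is the line with its window.)
-/

set_option autoImplicit false

namespace Pool.TRC

open Finset MvPolynomial
open Pool.STAT
open Pool.TRC31 (BxE)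

/-- Values of a triangular system. -/
theorem tri_congr {Φ : ℕ → PN} (h : TriN Φ) {i : ℕ} {b b' : ℕ → ℝ} (hb : ∀ l < i, b l = b' l) :
    eval b (Φ i) = eval b' (Φ i) := by
  refine hom_congr_vars (by ext; simp) ?_ rfl
  intro j hj _
  rw [eval_X, eval_X]
  exact hb j (mem_range.1 (h i hj))

/-! ### Translations -/

/-- The translated polynomial. -/
noncomputable def shv (κ : ℕ → ℝ) (F : PN) : PN := bind₁ (fun j => X j + MvPolynomial.C (κ j)) F

theorem eval_shv (κ b : ℕ → ℝ) (F : PN) : eval b (shv κ F) = eval (fun j => b j + κ j) F := by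
  unfold shv
  rw [Pool.SYS35.eval_bind]
  congr 2
  funext j
  rw [map_add, eval_X, eval_C]

theorem vars_shv {κ : ℕ → ℝ} {F : PN} {i : ℕ} (hF : F.vars ⊆ range i) :
    (shv κ F).vars ⊆ range i := by
  refine AdxRow.vars_bnd hF fun j hj => (vars_add_subset _ _).trans (Finset.union_subset ?_ ?_)
  · rw [vars_X]
    intro k hk
    rw [mem_singleton] at hk
    rw [hk]
    exact mem_range.2 hj
  · rw [vars_C]
    exact Finset.empty_subset _

theorem deg_shv {κ : ℕ → ℝ} {F : PN} {K : ℕ} (hF : F.totalDegree ≤ K) :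
    (shv κ F).totalDegree ≤ K := by
  unfold shv
  refine (Dgb.deg_bind (B := 1) fun k _ => ?_).trans (by rw [mul_one]; exact hF)
  refine (totalDegree_add _ _).trans (max_le ?_ ?_)
  · rw [totalDegree_X]
  · rw [totalDegree_C]
    exact Nat.zero_le _

theorem shv_C (κ : ℕ → ℝ) (x : ℝ) : shv κ (MvPolynomial.C x) = MvPolynomial.C x := by
  unfold shv
  rw [bind₁_C_right]

/-- The telescope which starts with constants. -/
theorem trc_k (n S : ℕ) (hS : 1 ≤ S) : ∃ c : ℝ, 0 ≤ c ∧ ∀ K m : ℕ, ∃ Cc : ℝ, 0 ≤ Cc ∧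
    ∀ (Φ : ℕ → ℕ → PN) (g : ℕ → ℕ → ℝ) (a b₀ κ : ℕ → ℝ) (h A : ℝ), 0 ≤ h → 0 ≤ A →
      (∀ k ≤ m, TriN (Φ k)) → (∀ k ≤ m, ∀ i < n, (Φ k i).totalDegree ≤ K) →
      (∀ i, 1 ≤ i → i < n → Φ 0 i = MvPolynomial.C (κ i)) →
      (∀ k' k, k' ≤ k → k ≤ m → a k' ≤ a k) → (∀ k < m, a (k + 1) - a k ≤ h) →
      (∀ k' k, k' ≤ k → k ≤ m → ∀ i, 1 ≤ i → i < n → a k - a k' - A ≤ g k i - g k' i) →
      (∀ k ≤ m, ∀ i, 1 ≤ i → i < n → g m i - g k i ≤ S * (a m - a k) + A) →
      (∀ k ≤ m, a m - a k ≤ g m 0 - g k 0) →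
      (∀ k < m, ∀ i, 1 ≤ i → i < n → ∀ b, BxE (g (k + 1)) (Φ (k + 1)) n b →
        |eval b (Φ (k + 1) i - Φ k i)| ≤ Real.exp (A - g k i)) →
      (∀ k ≤ m, BxE (g k) (Φ k) n b₀) →
      ∃ Ψ : ℕ → PN, TriN Ψ ∧ (∀ i, (Ψ i).totalDegree ≤ (S + 1) ^ n ^ 2) ∧
        ∀ b, ∀ i < n, (∀ k ≤ m, ∀ j ≤ i, |b j - eval b (Φ k j)| ≤ Real.exp (A - g k j)) →
          |b i - eval b (Ψ i)| ≤ Real.exp (c * (h + A) + Cc - g m i) := by
  obtain ⟨c, hc, hcD⟩ := Pool.TRC31.trc S n hS
  refine ⟨c, hc, fun K m => ?_⟩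
  obtain ⟨C, hC, hC'⟩ := hcD K m
  refine ⟨C, hC, ?_⟩
  intro Φ g a b₀ κ₀ h A hh hA tri deg zero mono step lower upper time uni box
  obtain ⟨κ, hκ⟩ : ∃ κ : ℕ → ℝ, κ = Function.update κ₀ 0 0 := ⟨_, rfl⟩
  have hκ1 : ∀ i, 1 ≤ i → κ i = κ₀ i := fun i hi => by
    rw [hκ, Function.update_of_ne (by omega)]
  obtain ⟨Φ', hΦ'⟩ : ∃ Φ' : ℕ → ℕ → PN, Φ' = fun k i => shv κ (Φ k i) - MvPolynomial.C (κ i) :=
    ⟨_, rfl⟩
  have hev : ∀ b k i, eval b (Φ' k i) = eval (fun j => b j + κ j) (Φ k i) - κ i := by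
    intro b k i
    rw [hΦ', map_sub, eval_shv, eval_C]
  have hbx : ∀ k N b, BxE (g k) (Φ' k) N b ↔ BxE (g k) (Φ k) N (fun j => b j + κ j) := by
    intro k N b
    refine forall_congr' fun i => forall_congr' fun _ => ?_
    rw [hev, show b i - (eval (fun j => b j + κ j) (Φ k i) - κ i) =
      b i + κ i - eval (fun j => b j + κ j) (Φ k i) by ring]
  obtain ⟨Ψ, h1, h2, h3⟩ := hC' Φ' g a (fun j => b₀ j - κ j) h A
    { h_nn := hh
      A_nn := hA
      tri := fun k hk i => by
        rw [hΦ']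
        refine (vars_sub_subset _).trans (Finset.union_subset (vars_shv (tri k hk i)) ?_)
        rw [vars_C]
        exact Finset.empty_subset _
      deg := fun k hk i hi => by
        rw [hΦ']
        refine (totalDegree_sub _ _).trans (max_le (deg_shv (deg k hk i hi)) ?_)
        rw [totalDegree_C]
        exact Nat.zero_le _
      zero := fun i h1 hi => by
        rw [hΦ']
        simp only
        rw [zero i h1 hi, shv_C, hκ1 i h1, sub_self]
      mono := mono
      step := step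
      lower := lower
      upper := upper
      time := time
      uni := fun k hk i h1 hi b hb => by
        have h4 := uni k hk i h1 hi _ ((hbx _ _ _).1 hb)
        rw [map_sub] at h4 ⊢
        rw [hev, hev, sub_sub_sub_cancel_right]
        exact h4 } fun k hk => by
      rw [hbx]
      have h4 : (fun j => b₀ j - κ j + κ j) = b₀ := by
        funext j
        ring
      rw [h4]
      exact box k hk
  refine ⟨fun i => shv (fun j => -κ j) (Ψ i) + MvPolynomial.C (κ i), fun i => ?_, fun i => ?_,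
    fun b i hi hb => ?_⟩
  · refine (vars_add_subset _ _).trans (Finset.union_subset (vars_shv (h1 i)) ?_)
    rw [vars_C]
    exact Finset.empty_subset _
  · refine (totalDegree_add _ _).trans (max_le (deg_shv (h2 i)) ?_)
    rw [totalDegree_C]
    exact Nat.zero_le _
  · have h4 := h3 (fun j => b j + -κ j) i hi fun k hk j hj => by
      rw [hev]
      have h5 : (fun j => b j + -κ j + κ j) = b := by
        funext j
        ring
      rw [h5, show b j + -κ j - (eval b (Φ k j) - κ j) = b j - eval b (Φ k j) by ring]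
      exact hb k hk j hj
    rw [map_add, eval_C, eval_shv]
    rw [show b i - (eval (fun j => b j + -κ j) (Ψ i) + κ i) =
      b i + -κ i - eval (fun j => b j + -κ j) (Ψ i) by ring]
    exact h4

/-- The data of a telescope: levels `k ≤ m`, coordinates `0, …, n - 1`. -/
structure Tsc {Ω V : Type} (n S K m : ℕ) (h A : ℝ) (B : Ω → Prop) (X : Ω → ℕ → ℝ)
    (z : ℕ → Ω → V) (P : ℕ → V → ℕ → PN) (g : ℕ → ℕ → ℝ) (a : ℕ → ℝ) : Prop where
  h0 : 0 ≤ h
  A0 : 0 ≤ A
  tri : ∀ k v, TriN (P k v)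
  deg : ∀ k v i, (P k v i).totalDegree ≤ K
  zero : ∀ v, ∃ κ : ℕ → ℝ, ∀ i, 1 ≤ i → P 0 v i = MvPolynomial.C (κ i)
  box : ∀ ω, B ω → ∀ k ≤ m, BxE (g k) (P k (z k ω)) n (X ω)
  mesh : ∀ k < m, a k ≤ a (k + 1) ∧ a (k + 1) - a k ≤ h
  law : ∀ k ≤ m, ∀ k' ≤ k, ∀ l, 1 ≤ l → l < n → a k - a k' - A ≤ g k l - g k' l
  slope : ∀ k ≤ m, ∀ l, 1 ≤ l → l < n → g m l - g k l ≤ S * (a m - a k) + A
  time : ∀ k ≤ m, a m - a k ≤ g m 0 - g k 0
  uni : ∀ ω, B ω → ∀ k' ≤ m, ∀ k < k', ∀ l, 1 ≤ l → l < n → ∀ b : ℕ → ℝ,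
    BxE (g k') (P k' (z k' ω)) l b →
      |eval b (P k' (z k' ω) l) - eval b (P k (z k ω) l)| ≤ Real.exp (A - g k l)

theorem Tsc.am {Ω V : Type} {n S K m : ℕ} {h A : ℝ} {B : Ω → Prop} {X : Ω → ℕ → ℝ}
    {z : ℕ → Ω → V} {P : ℕ → V → ℕ → PN} {g : ℕ → ℕ → ℝ} {a : ℕ → ℝ}
    (T : Tsc n S K m h A B X z P g a) {k k' : ℕ} (hk : k' ≤ k) (hm : k ≤ m) : a k' ≤ a k := by
  induction k with
  | zero =>
    have : k' = 0 := by omega
    rw [this]
  | succ k ih =>
    rcases Nat.lt_or_ge k' (k + 1) with h1 | h1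
    · exact (ih (by omega) (by omega)).trans (T.mesh k (by omega)).1
    · have : k' = k + 1 := by omega
      rw [this]

/-- **Labels of universal degree.** -/
theorem trc_cls (n S : ℕ) (hS : 1 ≤ S) : ∃ c : ℝ, 0 ≤ c ∧ ∀ K m : ℕ,
    ∃ C : ℝ, 0 ≤ C ∧ ∀ (Ω V : Type) (h A : ℝ) (B : Ω → Prop) (X : Ω → ℕ → ℝ) (z : ℕ → Ω → V)
      (P : ℕ → V → ℕ → PN) (g : ℕ → ℕ → ℝ) (a : ℕ → ℝ), Tsc n S K m h A B X z P g a →
    ∃ Q : (ℕ → V) → ℕ → PN, (∀ v, TriN (Q v)) ∧
      (∀ v i, (Q v i).totalDegree ≤ (S + 1) ^ n ^ 2) ∧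
      (∀ v v' : ℕ → V, (∀ k ≤ m, v k = v' k) → Q v = Q v') ∧ ∀ ω, B ω →
      (∀ i < n, |X ω i - eval (X ω) (Q (fun k => z k ω) i)| ≤
        Real.exp (c * (h + A) + C - g m i)) ∧
      (∀ (b : ℕ → ℝ) (i : ℕ), i < n → (∀ k ≤ m, ∀ l ≤ i, |b l - eval b (P k (z k ω) l)| ≤
        Real.exp (A - g k l)) → |b i - eval b (Q (fun k => z k ω) i)| ≤
        Real.exp (c * (h + A) + C - g m i)) ∧
      ∀ i, 1 ≤ i → i < n → ∀ b : ℕ → ℝ, BxE (g m) (P m (z m ω)) i b →
        |eval b (P m (z m ω) i) - eval b (Q (fun k => z k ω) i)| ≤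
          Real.exp (c * (h + A) + C - g m i) := by
  classical
  obtain ⟨c, hc, hcD⟩ := trc_k n S hS
  obtain ⟨D, hD⟩ : ∃ D, D = (S + 1) ^ n ^ 2 := ⟨_, rfl⟩
  rw [← hD] at hcD ⊢
  refine ⟨2 * c, by positivity, fun K m => ?_⟩
  obtain ⟨C, hC, hC'⟩ := hcD K m
  refine ⟨2 * c + C, by positivity, ?_⟩
  intro Ω V h A B X z P g a T
  have hh := T.h0
  have hA := T.A0
  obtain ⟨A', hA'⟩ : ∃ A' : ℝ, A' = 2 * A + 2 := ⟨_, rfl⟩
  have hA'0 : 0 ≤ A' := by rw [hA']; positivity
  have hloss : ∀ i, c * (h + A') + C - g m i ≤ 2 * c * (h + A) + (2 * c + C) - g m i := by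
    intro i
    have : c * (h + A') ≤ c * (2 * (h + A) + 2) :=
      mul_le_mul_of_nonneg_left (by rw [hA']; linarith) hc
    linarith
  -- the polynomials of a sample
  have key : ∀ ω, B ω → ∃ Ψ : ℕ → PN, TriN Ψ ∧ (∀ i, (Ψ i).totalDegree ≤ D) ∧
      ∀ (b : ℕ → ℝ) (i : ℕ), i < n →
        (∀ k ≤ m, ∀ l ≤ i, |b l - eval b (P k (z k ω) l)| ≤ Real.exp (A' - g k l)) →
        |b i - eval b (Ψ i)| ≤ Real.exp (c * (h + A') + C - g m i) := by
    intro ω hω
    obtain ⟨κ, hκ⟩ := T.zero (z 0 ω)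
    obtain ⟨Ψ, h1, h2, h3⟩ := hC' (fun k => P k (z k ω)) g a (X ω) κ h A' hh hA'0
      (fun k _ => T.tri k _) (fun k _ i _ => T.deg k _ i) (fun i hi _ => hκ i hi)
      (fun k' k hk hm => T.am hk hm) (fun k hk => (T.mesh k hk).2)
      (fun k' k hk hm l h1 h2 => le_trans (by rw [hA']; linarith) (T.law k hm k' hk l h1 h2))
      (fun k hk l h1 h2 => (T.slope k hk l h1 h2).trans (by rw [hA']; linarith)) T.time
      (fun k hk l h1 h2 b hb => by
        rw [map_sub]
        refine (T.uni ω hω (k + 1) (by omega) k (by omega) l h1 h2 b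
          fun i hi => hb i (by omega)).trans (Real.exp_le_exp.2 ?_)
        rw [hA']
        linarith) (T.box ω hω)
    exact ⟨Ψ, h1, h2, fun b i hi hb => h3 b i hi hb⟩
  choose Ψ hΨ1 hΨ2 hΨ3 using key
  obtain ⟨smp, hsmp⟩ : ∃ smp : (ℕ → V) → Option {ω : Ω // B ω},
      (∀ v : ℕ → V, ∀ ω, B ω → (∀ k ≤ m, z k ω = v k) → ∃ ω' : {ω : Ω // B ω},
        smp v = some ω' ∧ ∀ k ≤ m, z k ω'.1 = v k) ∧
      ∀ v v' : ℕ → V, (∀ k ≤ m, v k = v' k) → smp v = smp v' := by
    refine ⟨fun v => if h : ∃ ω' : {ω : Ω // B ω}, ∀ k ≤ m, z k ω'.1 = v k then some h.choose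
      else none, ?_, ?_⟩
    · intro v ω hω hv
      have hex : ∃ ω' : {ω : Ω // B ω}, ∀ k ≤ m, z k ω'.1 = v k := ⟨⟨ω, hω⟩, hv⟩
      exact ⟨hex.choose, dif_pos hex, hex.choose_spec⟩
    · intro v v' hv
      have e : (fun ω' : {ω : Ω // B ω} => ∀ k ≤ m, z k ω'.1 = v k) =
          fun ω' : {ω : Ω // B ω} => ∀ k ≤ m, z k ω'.1 = v' k := by
        funext ω'
        refine propext ⟨fun h k hk => (h k hk).trans (hv k hk), fun h k hk =>
          (h k hk).trans (hv k hk).symm⟩
      simp only [e]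
  obtain ⟨hs1, hs2⟩ := hsmp
  refine ⟨fun v => match smp v with
    | some ω' => Ψ ω'.1 ω'.2
    | none => 0, ?_, ?_, ?_, ?_⟩
  · intro v
    show TriN (match smp v with
      | some ω' => Ψ ω'.1 ω'.2
      | none => 0)
    cases smp v with
    | some ω' => exact hΨ1 _ _
    | none =>
      intro i
      show (0 : PN).vars ⊆ range i
      rw [vars_0]
      exact Finset.empty_subset _
  · intro v i
    show ((match smp v with
      | some ω' => Ψ ω'.1 ω'.2
      | none => 0 : ℕ → PN) i).totalDegree ≤ D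
    cases smp v with
    | some ω' => exact hΨ2 _ _ i
    | none =>
      show (0 : PN).totalDegree ≤ D
      rw [totalDegree_zero]
      exact Nat.zero_le _
  · intro v v' hv
    show (match smp v with
      | some ω' => Ψ ω'.1 ω'.2
      | none => 0) = _
    rw [hs2 v v' hv]
  · intro ω hω
    obtain ⟨ω', e1, e2⟩ := hs1 (fun k => z k ω) ω hω (fun k _ => rfl)
    have e3 : (match smp (fun k => z k ω) with
        | some ω' => Ψ ω'.1 ω'.2
        | none => 0 : ℕ → PN) = Ψ ω'.1 ω'.2 := by rw [e1]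
    simp only [e3]
    have hΨ := hΨ3 ω'.1 ω'.2
    have e4 : ∀ k ≤ m, P k (z k ω'.1) = P k (z k ω) := fun k hk => congrArg (P k) (e2 k hk)
    refine ⟨fun i hi => ?_, fun b i hi hb => ?_, fun i h1 hi b hb => ?_⟩
    · refine (hΨ (X ω) i hi fun k hk l hl => ?_).trans (Real.exp_le_exp.2 (hloss i))
      rw [e4 k hk]
      refine (T.box ω hω k hk l (by omega)).trans (Real.exp_le_exp.2 (by linarith))
    · refine (hΨ b i hi fun k hk l hl => ?_).trans (Real.exp_le_exp.2 (hloss i))
      rw [e4 k hk]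
      refine (hb k hk l hl).trans (Real.exp_le_exp.2 (by rw [hA']; linarith))
    -- the point on the graph
    obtain ⟨b', hb'⟩ : ∃ b' : ℕ → ℝ, b' = Function.update b i (eval b (P m (z m ω) i)) :=
      ⟨_, rfl⟩
    have hbl : ∀ l < i, b' l = b l := by
      intro l hl
      rw [hb', Function.update_of_ne (by omega)]
    have hbi : b' i = eval b (P m (z m ω) i) := by
      rw [hb', Function.update_self]
    have hev : ∀ {Φ : ℕ → PN}, TriN Φ → ∀ l ≤ i, eval b' (Φ l) = eval b (Φ l) := by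
      intro Φ hΦ l hl
      exact tri_congr hΦ fun j hj => hbl j (by omega)
    have h1 := hΨ b' i hi fun k hk l hl => by
      rw [e4 k hk, hev (T.tri k _) l hl]
      have hkm : k = m ∨ k < m := by omega
      rcases Nat.lt_or_ge l i with hl' | hl'
      · rw [hbl l hl']
        have g0 : |b l - eval b (P m (z m ω) l)| ≤ Real.exp (-g m l) := hb l hl'
        rcases hkm with rfl | hkm
        · exact g0.trans (Real.exp_le_exp.2 (by linarith))
        rcases Nat.eq_zero_or_pos l with rfl | hl0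
        · -- the time
          have a1 := T.box ω hω m le_rfl 0 (by omega)
          have a2 := T.box ω hω k hk 0 (by omega)
          have a3 := T.time k hk
          have a4 := T.am hk le_rfl
          have c1 : eval b (P m (z m ω) 0) = eval (X ω) (P m (z m ω) 0) :=
            tri_congr (T.tri m _) fun j hj => absurd hj (Nat.not_lt_zero j)
          have c2 : eval b (P k (z k ω) 0) = eval (X ω) (P k (z k ω) 0) :=
            tri_congr (T.tri k _) fun j hj => absurd hj (Nat.not_lt_zero j)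
          rw [c1] at g0
          rw [c2]
          have e5 : Real.exp (-g m 0) ≤ Real.exp (-g k 0) := Real.exp_le_exp.2 (by linarith)
          have e6 : 3 * Real.exp (-g k 0) ≤ Real.exp (A' - g k 0) := by
            have : Real.exp (A' - g k 0) = Real.exp A' * Real.exp (-g k 0) := by
              rw [← Real.exp_add]
              ring_nf
            rw [this]
            refine mul_le_mul_of_nonneg_right ?_ (Real.exp_pos _).le
            have h2 : (3 : ℝ) ≤ Real.exp 2 := by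
              have := Real.add_one_le_exp (2 : ℝ)
              linarith
            exact h2.trans (Real.exp_le_exp.2 (by rw [hA']; linarith))
          refine le_trans ?_ e6
          rw [abs_le] at g0 a1 a2 ⊢
          constructor <;> linarith [g0.1, g0.2, a1.1, a1.2, a2.1, a2.2]
        · have a1 := T.uni ω hω m le_rfl k hkm l hl0 (by omega) b fun j hj => hb j (by omega)
          have a2 := T.law m le_rfl k hk l hl0 (by omega)
          have a3 := T.am hk le_rfl
          have e5 : Real.exp (-g m l) ≤ Real.exp (A - g k l) :=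
            Real.exp_le_exp.2 (by linarith)
          have e6 : 2 * Real.exp (A - g k l) ≤ Real.exp (A' - g k l) := by
            have : Real.exp (A' - g k l) = Real.exp (A + 2) * Real.exp (A - g k l) := by
              rw [← Real.exp_add, hA']
              ring_nf
            rw [this]
            refine mul_le_mul_of_nonneg_right ?_ (Real.exp_pos _).le
            have h2 : (2 : ℝ) ≤ Real.exp 2 := by
              have := Real.add_one_le_exp (2 : ℝ)
              linarith
            exact h2.trans (Real.exp_le_exp.2 (by linarith))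
          refine le_trans ?_ e6
          rw [abs_le] at g0 a1 ⊢
          constructor <;> linarith [g0.1, g0.2, a1.1, a1.2]
      · have hli : l = i := by omega
        subst hli
        rw [hbi]
        rcases hkm with rfl | hkm
        · rw [sub_self, abs_zero]
          exact (Real.exp_pos _).le
        · refine (T.uni ω hω m le_rfl k hkm l h1 hi b hb).trans (Real.exp_le_exp.2 ?_)
          rw [hA']
          linarith
    rw [hbi, hev (hΨ1 _ _) i le_rfl] at h1
    exact h1.trans (Real.exp_le_exp.2 (hloss i))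

end Pool.TRC
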