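import Pool.Agent.H33.TRC.TrcJ
import Pool.Agent.H31.STAT.TimeF

/-!
# Exact labels of universal degree from chains of two-sided labels (family level of (LAB))

* `cnd_low`: lower precisions;
* `lab_jat`: a list of chains gives the system `CDat` with the conditions `Cnd`, of universal degree,
  with small variation in the cells, and the error bound for all points near the path.
-/

set_option autoImplicit false

namespace Pool.TRC

open Finset MvPolynomial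
open Pool.Agent.H49.Ent Pool.Agent.H32.Dense Pool.STK Pool.KS3 Pool.KA Pool.KSAT Pool.PB Pool.GEN
open Pool.K2S Pool.STAT
open Pool.FLF (Fam.sub)
open Pool.STAT.CLO (tp tl t_cell crs crs_eq tp_eq tl_eq Raw Inj tr sy gg Gs Hs vr dil sy_tri sy_deg
  nbx_of_bxr bxr_cell tr_vars tr_deg pos_of raw_of)

/-- **Lower precisions**: the loss in the comparison with the line is a power. -/
theorem cnd_low (n K : ℕ) : ∃ c : ℕ, ∀ (d J : ℕ) (F : Fam d J) (Cd : CDat F) (e : ℕ → Fin d)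
    (w₀ z M r : ℕ) (g gf : ℕ → ℕ → ℕ) (C₁ C₂ : ℝ) (A : F.Ω → Prop),
    Cd.Cnd e n K w₀ z M g C₁ A →
    (∀ k ≤ M, ∀ i, 1 ≤ i → i ≤ n → gf k i ≤ g k i ∧ g k i ≤ gf k i + r) →
    2 ^ (c * (r + 1)) * Real.exp (C₁ * z) ≤ Real.exp (C₂ * z) →
    Cd.Cnd e n K w₀ z M gf C₂ A := by
  obtain ⟨C, hC, hdil⟩ := dil n K
  obtain ⟨K₁, hK₁⟩ : ∃ K₁, K₁ = K * (K + 1) ^ (n + 1) := ⟨_, rfl⟩
  rw [← hK₁] at hdil
  obtain ⟨s₀, hs₀⟩ := pow_unbounded_of_one_lt C (one_lt_two (α := ℝ))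
  refine ⟨s₀ + K₁, ?_⟩
  intro d J F Cd e w₀ z M r g gf C₁ C₂ A h hg hle
  refine ⟨h.deg, h.tri, h.Rdeg, h.Rtri, h.cls, fun k hk ω hω i h1 hi => ?_,
    fun ω hω i h1 hi b hb => ?_⟩
  · refine (h.pos k hk ω hω i h1 hi).trans ?_
    exact one_div_le_one_div_of_le (by positivity)
      (pow_le_pow_right₀ (by norm_num) (hg k hk i h1 hi).1)
  · obtain ⟨Φ, hΦ⟩ : ∃ Φ : ℕ → PN, Φ = fun j => if j ≤ n then Cd.Ph w₀ z M ω j else 0 := ⟨_, rfl⟩
    have e1 : ∀ j ≤ n, Φ j = Cd.Ph w₀ z M ω j := fun j hj => by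
      rw [hΦ]
      exact if_pos hj
    have hv : ∀ j ≤ n, (Cd.Ph w₀ z M ω j).vars ⊆ range j := by
      intro j hj
      unfold CDat.Ph
      split_ifs with h0
      · rw [vars_C]
        exact Finset.empty_subset _
      · exact h.tri M le_rfl _ j (by omega) hj
    have hd : ∀ j ≤ n, (Cd.Ph w₀ z M ω j).totalDegree ≤ K := by
      intro j hj
      unfold CDat.Ph
      split_ifs with h0
      · rw [totalDegree_C]
        exact Nat.zero_le _
      · exact h.deg M le_rfl _ j (by omega) hj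
    have h2 := hdil Φ (CDat.g0 w₀ z g M) (Cd.R (slam F w₀ ω) i - Cd.Ph w₀ z M ω i) i
      (Real.exp (C₁ * z) / 2 ^ g M i) (2 ^ r) (fun j => by
        rcases Nat.lt_or_ge n j with hj | hj
        · have : Φ j = 0 := by
            rw [hΦ]
            exact if_neg (by omega)
          rw [this, vars_0]
          exact Finset.empty_subset _
        · rw [e1 j hj]
          exact hv j hj) (fun j => by
        rcases Nat.lt_or_ge n j with hj | hj
        · have : Φ j = 0 := by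
            rw [hΦ]
            exact if_neg (by omega)
          rw [this, totalDegree_zero]
          exact Nat.zero_le _
        · rw [e1 j hj]
          exact hd j hj) hi
      ((vars_sub_subset _).trans (Finset.union_subset (h.Rtri _ i h1 hi) (hv i hi)))
      ((totalDegree_sub _ _).trans (max_le (h.Rdeg _ i h1 hi) (hd i hi)))
      (one_le_pow₀ (by norm_num)) (fun b' hb' => by
        rw [map_sub]
        refine h.line ω hω i h1 hi b' fun j hj => ?_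
        have h3 := hb' j hj
        rw [e1 j (by omega)] at h3
        exact h3) b (fun j hj => by
        rw [e1 j (by omega)]
        have h3 := hb j hj
        rcases Nat.eq_zero_or_pos j with rfl | hj1
        · have e2 : CDat.g0 w₀ z gf M 0 = CDat.g0 w₀ z g M 0 := by
            unfold CDat.g0
            rw [if_pos rfl, if_pos rfl]
          rw [e2] at h3
          exact h3.trans (div_le_div_of_nonneg_right (one_le_pow₀ (by norm_num)) (by positivity))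
        · have e2 : CDat.g0 w₀ z gf M j = gf M j := if_neg (by omega)
          have e3 : CDat.g0 w₀ z g M j = g M j := if_neg (by omega)
          rw [e2] at h3
          rw [e3]
          refine h3.trans ?_
          rw [div_le_div_iff₀ (by positivity) (by positivity), one_mul, ← pow_add]
          refine pow_le_pow_right₀ (by norm_num) ?_
          have := (hg M le_rfl j hj1 (by omega)).2
          omega)
    rw [map_sub] at h2
    refine h2.trans ?_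
    rw [← mul_div_assoc, div_mul_eq_mul_div]
    have h4 : C * Real.exp (C₁ * z) * (2 ^ r) ^ K₁ ≤ Real.exp (C₂ * z) := by
      refine le_trans ?_ hle
      have e5 : C ≤ 2 ^ s₀ := hs₀.le
      have e6 : (2 : ℝ) ^ s₀ * (2 ^ r) ^ K₁ ≤ 2 ^ ((s₀ + K₁) * (r + 1)) := by
        rw [← pow_mul, ← pow_add]
        refine pow_le_pow_right₀ (by norm_num) ?_
        nlinarith
      calc C * Real.exp (C₁ * z) * (2 ^ r) ^ K₁ ≤ 2 ^ s₀ * Real.exp (C₁ * z) * (2 ^ r) ^ K₁ := by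
            refine mul_le_mul_of_nonneg_right ?_ (by positivity)
            exact mul_le_mul_of_nonneg_right e5 (Real.exp_pos _).le
        _ = 2 ^ s₀ * (2 ^ r) ^ K₁ * Real.exp (C₁ * z) := by ring
        _ ≤ _ := mul_le_mul_of_nonneg_right e6 (Real.exp_pos _).le
    refine div_le_div₀ (Real.exp_pos _).le h4 (by positivity) ?_
    exact pow_le_pow_right₀ (by norm_num) (hg M le_rfl i h1 hi).1

/-- **The numbers of a path**: radii `al`, windows `om`, precisions `g` for the levels `k < N`,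
radius `a₀` and window `wz` of the level of the constants, mesh `h`, defects `u`. -/
structure Path (n N J : ℕ) (al om : ℕ → ℕ) (g : ℕ → ℕ → ℕ) (a₀ wz h u : ℕ) : Prop where
  alJ : ∀ k < N, al k ≤ J
  a0J : a₀ ≤ J
  w0 : wz ≤ a₀
  oa : ∀ k < N, om k ≤ al k
  om1 : ∀ k, k + 1 < N → om k ≤ om (k + 1)
  ini : 0 < N → wz ≤ om 0 ∧ a₀ ≤ al 0 ∧ al 0 ≤ a₀ + h
  mesh : ∀ k, k + 1 < N → al k ≤ al (k + 1) ∧ al (k + 1) ≤ al k + h
  law : ∀ k < N, ∀ k' ≤ k, ∀ l < n, g k' l + al k ≤ g k l + al k' + u ∧ g k' l ≤ g k l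
  law0 : ∀ k < N, ∀ l < n, al k ≤ g k l + a₀ + u

theorem Path.omle {n N J : ℕ} {al om : ℕ → ℕ} {g : ℕ → ℕ → ℕ} {a₀ wz h u : ℕ}
    (P : Path n (N + 1) J al om g a₀ wz h u) : ∀ k ≤ N + 1, shl wz om k ≤ om N := by
  have h1 : ∀ k ≤ N, om k ≤ om N := by
    intro k hk
    obtain ⟨j, rfl⟩ := Nat.exists_eq_add_of_le hk
    clear hk
    have h2 : ∀ i ≤ j, om k ≤ om (k + i) := by
      intro i
      induction i with
      | zero => exact fun _ => le_rfl
      | succ i ih =>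
        intro hi
        exact (ih (by omega)).trans (P.om1 (k + i) (by omega))
    exact h2 j le_rfl
  rintro (_ | k) hk
  · exact (P.ini (by omega)).1.trans (h1 0 (by omega))
  · exact h1 k (by omega)

/-- **Exact labels of universal degree from a list of chains.** -/
theorem lab_jat (n S : ℕ) (hS : 1 ≤ S) : ∃ (Kst c : ℕ) (L : ℝ), 1 ≤ Kst ∧ 1 ≤ L ∧ ∀ K N : ℕ,
    ∃ C : ℕ, ∀ (d J : ℕ) (F : Fam d J) (ch : ℕ → Fin d) (w₀ z M : ℕ) (al om bb : ℕ → ℕ) (ee : ℕ)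
    (g gf : ℕ → ℕ → ℕ) (u₀ h u a₀ wz r s : ℕ) (jk : ℕ → ℕ) (A : F.Ω → Prop)
    (G : ℕ → PtT F → ℕ → MvPolynomial (Option (Fin d)) ℝ)
    (H : ℕ → LnT F → ℕ → MvPolynomial (Option (Fin d)) ℝ) (e₀ : ℝ) (hA : 0 < Pe F.p A),
    Jat F ch n K (N + 1) al om ee g u₀ A G H → Inj ch n →
    Path n (N + 1) J al om g a₀ wz h u → u₀ + C ≤ u →
    (∀ k ≤ M, jk k ≤ N ∧ al (jk k) ≤ w₀ + k * z ∧
      Slp n S (shl a₀ al) (jg g) u (jk k + 1)) → jk M = N → w₀ + M * z ≤ J → 1 ≤ z →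
    Tms n S (N + 1) bb (wtop (N + 1) w₀ (shl wz om)) (jg g) h u → om N ≤ w₀ → w₀ ≤ al N →
    (∀ k ≤ N, ∀ l < n, C ≤ g k l) → 0 ≤ e₀ → (Fam.sub F A hA).Tm e₀ →
    C * (e₀ + 1) ≤ (J - om N : ℕ) → (c : ℝ) * (h + u) + C * (e₀ + 1) ≤ s →
    (∀ k ≤ M, ∀ i, 1 ≤ i → i ≤ n → gf k i + c * (s + 1) ≤ g (jk k) (i - 1) ∧
      g (jk k) (i - 1) ≤ gf k i + r) →
    ∃ (Cd : CDat F) (B : F.Ω → Prop), (∀ ω, B ω → A ω) ∧
      Pe F.p A ≤ 2 * Kst ^ (M + 1) * Pe F.p B ∧ (∀ k, Cd.HasZ w₀ z k) ∧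
      (∀ C₁ : ℝ, 2 ^ (c * (s + r + 1)) ≤ Real.exp (C₁ * z) →
        Cd.Cnd (fun i => ch (i - 1)) n Kst w₀ z M gf C₁ B) ∧
      (∀ k ≤ M, ∀ y : ℕ, (∀ i < n, g (jk k) i + y + c * (s + 1) +
          (ee + nlp (g (jk k)) 0 i) + C ≤ J) →
        Cd.Near (fun i => ch (i - 1)) n w₀ z gf k y L B) ∧
      ∀ k ≤ M, ∀ ω, B ω → ∀ i, 1 ≤ i → i ≤ n → ∀ b : ℕ → ℝ,
        InB F (shl a₀ al) (jg g) u (jk k + 1) ω
          (fun k' => jG F ch n (N + 1) a₀ al G k' (ptr F J ω)) i b →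
        |b 0 - (F.T1 (w₀ + k * z) ω : ℝ) / 2 ^ (w₀ + k * z)| ≤ 2 ^ s / 2 ^ (w₀ + k * z) →
        |b i - eval b (Cd.Ph w₀ z k ω i)| ≤ 2 ^ (c * (s + 1)) / 2 ^ g (jk k) (i - 1) := by
  classical
  obtain ⟨c₁, htrc⟩ := trc_fam n S hS
  obtain ⟨D, hD⟩ : ∃ D, D = (S + 1) ^ (n + 1) ^ 2 := ⟨_, rfl⟩
  rw [← hD] at htrc
  obtain ⟨ac, K', c₂, L, hK', hL, hclo⟩ := CLO.clo_trc n D
  obtain ⟨c₃, hlow⟩ := cnd_low n K'
  refine ⟨K', c₁ + ac + (c₂ + 1) * (c₂ + 3) + c₃ + 2, L, hK', hL, fun K N => ?_⟩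
  obtain ⟨s₀, hs₀, hlvl⟩ := lvl_of n K
  obtain ⟨C₁, htrc⟩ := htrc K (N + 1) s₀
  obtain ⟨s₁, hvar⟩ := CLO.var_raw n (max K D)
  refine ⟨s₀ + C₁ + s₁ + 1, ?_⟩
  intro d J F ch w₀ z M al om bb ee g gf u₀ h u a₀ wz r s jk A G H e₀ hA hJ hc P hu hjk hjM hMJ hz
    hTms hom hw₀ hg he₀ hTm hJ1 hs hgf
  obtain ⟨cc, hcc⟩ : ∃ cc, cc = c₁ + ac + (c₂ + 1) * (c₂ + 3) + c₃ + 2 := ⟨_, rfl⟩
  rw [← hcc] at hs hgf ⊢
  obtain ⟨CC, hCC⟩ : ∃ CC, CC = s₀ + C₁ + s₁ + 1 := ⟨_, rfl⟩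
  rw [← hCC] at hu hg hJ1 hs ⊢
  -- the raw levels
  have hLvl := hlvl d J (N + 1) F ch al om ee g u₀ h u a₀ wz A G H hJ hc P.alJ P.a0J P.w0 P.oa P.om1
    P.ini P.mesh P.law P.law0 (by omega)
  have hjkL : ∀ k ≤ M, jk k + 1 ≤ N + 1 ∧ Slp n S (shl a₀ al) (jg g) u (jk k + 1) ∧
      shl a₀ al (jk k + 1) ≤ w₀ + k * z := fun k hk =>
    ⟨by have := (hjk k hk).1; omega, (hjk k hk).2.2, (hjk k hk).2.1⟩
  have hg' : ∀ k ≤ M, ∀ i, 1 ≤ i → i ≤ n →
      (fun k i => g (jk k) (i - 1)) k i ≤ jg g ((fun k => jk k + 1) k) i ∧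
      jg g ((fun k => jk k + 1) k) i ≤ (fun k i => g (jk k) (i - 1)) k i + 0 :=
    fun k hk i h1 hi => ⟨le_rfl, le_rfl⟩
  have hC1 : (C₁ : ℝ) ≤ CC := by
    rw [hCC]
    push_cast
    have e1 : (0 : ℝ) ≤ s₀ := Nat.cast_nonneg _
    have e2 : (0 : ℝ) ≤ s₁ := Nat.cast_nonneg _
    linarith
  have hsuml : (c₁ : ℝ) * (h + u + (0 : ℕ)) + C₁ * (e₀ + 1) ≤ s := by
    refine le_trans ?_ hs
    have e0 : (c₁ : ℝ) ≤ cc := by
      rw [hcc]
      exact_mod_cast (by omega)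
    have e1 : (c₁ : ℝ) * (h + u) ≤ cc * (h + u) := mul_le_mul_of_nonneg_right e0 (by positivity)
    have e2 : (C₁ : ℝ) * (e₀ + 1) ≤ CC * (e₀ + 1) := mul_le_mul_of_nonneg_right hC1 (by linarith)
    rw [Nat.cast_zero, add_zero]
    linarith
  obtain ⟨B, G', H', R, hBA, hPe, hraw, hpos, hRt, hRd, hline, hnear, her⟩ :=
    htrc d J F (fun i => ch (i - 1)) w₀ w₀ z M (shl a₀ al) bb (shl wz om) (jg g)
      (fun k i => g (jk k) (i - 1)) h u 0 s (fun k => jk k + 1) A (jG F ch n (N + 1) a₀ al G)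
      (jH F ch n (N + 1) H) e₀ hLvl hjkL (by rw [hjM]) hMJ hTms hom hw₀
      (fun k hk1 hk i h1 hi => by
        obtain ⟨k, rfl⟩ : ∃ k', k = k' + 1 := ⟨k - 1, by omega⟩
        have := hg k (by omega) (i - 1) (by omega)
        show s₀ + 1 ≤ g k (i - 1)
        omega) hA he₀ (fun k hk => by
        have h1 := P.omle k hk
        have h2 := P.alJ N (by omega)
        have h3 := P.oa N (by omega)
        have h4 : om N ≤ J := h3.trans h2
        exact Pool.TRC31.timeF hA hTm (by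
          show shl wz om k + (J - om N) ≤ J
          omega))
      (le_trans (mul_le_mul_of_nonneg_right hC1 (by linarith)) hJ1) hg' hsuml
  -- closing
  have hagf : ∀ k ≤ M, ∀ i, 1 ≤ i → i ≤ n → gf k i + ac * (s + 1) ≤ g (jk k) (i - 1) := by
    intro k hk i h1 hi
    have h2 := (hgf k hk i h1 hi).1
    have h3 : ac * (s + 1) ≤ cc * (s + 1) := Nat.mul_le_mul_right _ (by rw [hcc]; omega)
    omega
  obtain ⟨Cd, B', hB', hPe', hHZ, hCnd, hNear, hNr⟩ := hclo d J M w₀ z s F (fun i => ch (i - 1))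
    (fun k i => g (jk k) (i - 1)) B G' H' R hMJ (fun k hk i h1 hi => by
      have := hagf k hk i h1 hi
      omega) hraw hpos hRt hRd hline
  refine ⟨Cd, B', fun ω hω => hBA ω (hB' ω hω), ?_, hHZ, fun C₂ hC₂ => ?_, fun k hk y hy => ?_,
    fun k hk ω hω i h1 hi b hb hb0 => ?_⟩
  · have h5 : 2 * Pe F.p B ≤ 2 * ((K' : ℝ) ^ (M + 1) * Pe F.p B') :=
      mul_le_mul_of_nonneg_left hPe' (by norm_num)
    rw [mul_assoc]
    exact hPe.trans h5
  · obtain ⟨C₀, hC₀⟩ : ∃ C₀ : ℝ, C₀ = ((c₂ * (s + 1) : ℕ) : ℝ) * Real.log 2 / z := ⟨_, rfl⟩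
    have hz0 : (0 : ℝ) < z := by exact_mod_cast hz
    have h6 : Real.exp (C₀ * z) = 2 ^ (c₂ * (s + 1)) := by
      rw [hC₀, div_mul_cancel₀ _ hz0.ne', exp_nlog]
    refine hlow d J F Cd (fun i => ch (i - 1)) w₀ z M r
      (fun k i => g (jk k) (i - 1) - ac * (s + 1)) gf C₀ C₂ B' (hCnd C₀ h6.ge)
      (fun k hk i h1 hi => ?_) ?_
    · have h7 := hagf k hk i h1 hi
      have h8 := (hgf k hk i h1 hi).2
      show gf k i ≤ g (jk k) (i - 1) - ac * (s + 1) ∧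
        g (jk k) (i - 1) - ac * (s + 1) ≤ gf k i + r
      omega
    · rw [h6, ← pow_add]
      refine le_trans (pow_le_pow_right₀ (by norm_num) ?_) hC₂
      have h7 : c₃ * (r + 1) + c₂ * (s + 1) ≤ (c₃ + c₂) * (s + r + 1) := by nlinarith
      refine h7.trans (Nat.mul_le_mul_right _ ?_)
      rw [hcc]
      nlinarith
  · obtain ⟨h1, h2, h3⟩ := hjk k hk
    have hok := (hJ.ok (jk k) (by omega)).sub (B := B) hBA
    have hvr := hvar d J (al (jk k)) (om (jk k)) ee s (y + c₂ * (s + 1)) F ch (fun _ => K) (g (jk k))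
      B (G (jk k)) (H (jk k)) (G' k) (P.alJ _ (by omega)) hc (fun _ _ => le_max_left _ _) hok
      (fun x i _ _ => (hraw k hk).G_tri x i)
      (fun x i _ _ => ((hraw k hk).G_deg x i).trans (le_max_right _ _))
      (fun ω hω i h1 hi b hb => by
        have h4 := hnear k hk ω hω i h1 hi b (by
          rw [gg_tus] at hb
          rw [jG_succ (by omega)]
          exact hb)
        rw [jG_succ (by omega)] at h4
        exact h4) (fun i hi => by
        have h4 := hy i hi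
        have h5 : (c₂ + 1) * (s + 1) ≤ cc * (s + 1) := Nat.mul_le_mul_right _ (by
          rw [hcc]
          nlinarith)
        have h6 : (c₂ + 1) * (s + 1) = c₂ * (s + 1) + s + 1 := by ring
        omega)
    have hN := hNear k hk y (fun ω hω i h1 hi b hb0 hb => by
      have h4 := hvr ω hω i h1 hi b hb0 hb
      exact h4) (fun i h1 hi => by
        have h4 := hy (i - 1) (by omega)
        have h5 : c₂ * (s + 1) ≤ cc * (s + 1) := Nat.mul_le_mul_right _ (by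
          rw [hcc]
          nlinarith)
        omega)
    intro ω ω' a b hl hT i h1 hi hX
    refine (hN ω ω' a b hl hT i h1 hi hX).trans ?_
    refine div_le_div_of_nonneg_left (by linarith) (by positivity)
      (pow_le_pow_right₀ (by norm_num) ?_)
    have := hagf k hk i h1 hi
    show gf k i + y ≤ g (jk k) (i - 1) - ac * (s + 1) + y
    omega
  · have hωB := hB' ω hω
    have e1 : (1 : ℝ) ≤ 2 ^ s := one_le_pow₀ (by norm_num)
    have hg0 : ∀ j, 1 ≤ j → CDat.g0 w₀ z (fun k i => g (jk k) (i - 1)) k j = g (jk k) (j - 1) :=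
      fun j hj => if_neg (by omega)
    have hin : ∀ j, 1 ≤ j → j ≤ i → |b j - eval b (G' k (ptr F J ω) j)| ≤
        2 ^ s / 2 ^ g (jk k) (j - 1) := by
      intro j hj1 hj
      exact her k hk ω hωB j hj1 (hj.trans hi) b ⟨hb.1, fun k' hk' l hl1 hl =>
        hb.2 k' hk' l hl1 (hl.trans hj)⟩
    have hbx : CLO.Bxr (2 ^ s) (CDat.g0 w₀ z (fun k i => g (jk k) (i - 1)) k)
        (G' k (ptr F J ω)) i b := by
      intro j hj
      rcases Nat.eq_zero_or_pos j with rfl | hj1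
      · rw [(hraw k hk).G_zero, eval_C, tp_eq]
        exact hb0
      · rw [hg0 j hj1]
        exact hin j hj1 hj.le
    have h2 := (hNr k hk ω hω).2 i h1 (by omega) (2 ^ s) e1 b hbx
    rw [hg0 i h1] at h2
    have h3 := hin i h1 le_rfl
    have h4 : |b i - eval b (Cd.Ph w₀ z k ω i)| ≤ |b i - eval b (G' k (ptr F J ω) i)| +
        |eval b (Cd.Ph w₀ z k ω i) - eval b (G' k (ptr F J ω) i)| := by
      have h5 := abs_add_le (b i - eval b (G' k (ptr F J ω) i))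
        (-(eval b (Cd.Ph w₀ z k ω i) - eval b (G' k (ptr F J ω) i)))
      rw [abs_neg] at h5
      refine le_trans (le_of_eq ?_) h5
      congr 1
      ring
    refine (h4.trans (add_le_add h3 h2)).trans ?_
    rw [← add_div]
    refine div_le_div_of_nonneg_right ?_ (by positivity)
    have h5 : ((c₂ : ℝ) * 2 ^ s * 2 ^ s) ^ c₂ ≤ 2 ^ (c₂ * (c₂ + 2 * s)) := by
      have h6 : (c₂ : ℝ) ≤ 2 ^ c₂ := by exact_mod_cast (Nat.lt_two_pow_self).le
      have h7 : (c₂ : ℝ) * 2 ^ s * 2 ^ s ≤ 2 ^ (c₂ + 2 * s) := by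
        have h8 : (2 : ℝ) ^ (c₂ + 2 * s) = 2 ^ c₂ * 2 ^ s * 2 ^ s := by
          rw [pow_add, two_mul, pow_add]
          ring
        rw [h8]
        exact mul_le_mul_of_nonneg_right (mul_le_mul_of_nonneg_right h6 (by positivity))
          (by positivity)
      calc ((c₂ : ℝ) * 2 ^ s * 2 ^ s) ^ c₂ ≤ (2 ^ (c₂ + 2 * s)) ^ c₂ :=
            pow_le_pow_left₀ (by positivity) h7 _
        _ = 2 ^ (c₂ * (c₂ + 2 * s)) := by rw [← pow_mul, mul_comm]
    have h9 : (2 : ℝ) ^ s ≤ 2 ^ ((c₂ + 1) * (c₂ + 2) * (s + 1)) := by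
      refine pow_le_pow_right₀ (by norm_num) ?_
      have e7 : (c₂ + 1) * (c₂ + 2) * (s + 1) =
          s + (c₂ * c₂ * s + 3 * (c₂ * s) + s + c₂ * c₂ + 3 * c₂ + 2) := by ring
      rw [e7]
      exact Nat.le_add_right _ _
    have h10 : (2 : ℝ) ^ (c₂ * (c₂ + 2 * s)) ≤ 2 ^ ((c₂ + 1) * (c₂ + 2) * (s + 1)) := by
      refine pow_le_pow_right₀ (by norm_num) ?_
      have e7 : (c₂ + 1) * (c₂ + 2) * (s + 1) =
          c₂ * (c₂ + 2 * s) + (c₂ * c₂ * s + c₂ * s + 2 * s + 3 * c₂ + 2) := by ring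
      rw [e7]
      exact Nat.le_add_right _ _
    calc (2 : ℝ) ^ s + ((c₂ : ℝ) * 2 ^ s * 2 ^ s) ^ c₂ ≤
          2 ^ ((c₂ + 1) * (c₂ + 2) * (s + 1)) + 2 ^ ((c₂ + 1) * (c₂ + 2) * (s + 1)) :=
            add_le_add h9 (h5.trans h10)
      _ = 2 ^ ((c₂ + 1) * (c₂ + 2) * (s + 1) + 1) := by rw [pow_succ]; ring
      _ ≤ 2 ^ (cc * (s + 1)) := by
          refine pow_le_pow_right₀ (by norm_num) ?_
          have h11 : (c₂ + 1) * (c₂ + 2) + 1 ≤ cc := by
            rw [hcc]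
            nlinarith
          have h12 := Nat.mul_le_mul_right (s + 1) h11
          nlinarith

end Pool.TRC
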