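import Pool.Agent.H33.TRC.LabR
import Pool.Agent.H87.GEN.StaI
import Pool.Agent.H69.STAT.LipJ

/-!
# The labels of universal degree in a static cell of a class

`labIn_of`: `LabIn` from the joint chains `JatN` near the point `a`.
-/

set_option autoImplicit false

namespace Pool.TRC

open Finset MvPolynomial
open Pool.Agent.H49.Ent Pool.Agent.H32.Dense Pool.STK Pool.KS3 Pool.KA Pool.KSAT Pool.K2S Pool.PB
open Pool.GEN Pool.S6C Pool.STAT Pool.STA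
open Pool.FLF (Fam.sub)
open Pool.STAT.CLO (Inj)

variable {m : ℕ}

theorem lin_small {C δ : ℝ} (hC : 0 ≤ C) (hδ : 0 < δ) :
    ∃ r₁ : ℝ, 0 < r₁ ∧ ∀ r : ℝ, 0 < r → r < r₁ → C * r ≤ δ := by
  refine ⟨δ / (C + 1), by positivity, fun r hr hr1 => ?_⟩
  rw [lt_div_iff₀ (by positivity)] at hr1
  nlinarith

theorem cx_congr {J : ℕ} {F : Fam m J} {e e' : ℕ → Fin m} (h : ∀ i, 1 ≤ i → e i = e' i)
    (ω : F.Ω) : cx F e ω = cx F e' ω := by
  funext i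
  rcases Nat.eq_zero_or_pos i with rfl | hi
  · exact (if_pos rfl : cx F e ω 0 = F.t ω).trans (if_pos rfl : cx F e' ω 0 = F.t ω).symm
  · have h1 : cx F e ω i = F.x ω (e i) := if_neg (by omega)
    have h2 : cx F e' ω i = F.x ω (e' i) := if_neg (by omega)
    rw [h1, h2, h i hi]

theorem cnd_congr {J : ℕ} {F : Fam m J} {C : CDat F} {e e' : ℕ → Fin m} {n K w₀ z M : ℕ}
    {g : ℕ → ℕ → ℕ} {C₁ : ℝ} {A : F.Ω → Prop} (h : C.Cnd e n K w₀ z M g C₁ A)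
    (he : ∀ i, 1 ≤ i → e i = e' i) : C.Cnd e' n K w₀ z M g C₁ A :=
  ⟨h.deg, h.tri, h.Rdeg, h.Rtri, h.cls, fun k hk ω hω i h1 hi => by
    have h2 := h.pos k hk ω hω i h1 hi
    rw [cx_congr he, he i h1] at h2
    exact h2, h.line⟩

theorem near_congr {J : ℕ} {F : Fam m J} {C : CDat F} {e e' : ℕ → Fin m} {n w₀ z k y : ℕ}
    {g : ℕ → ℕ → ℕ} {L : ℝ} {A : F.Ω → Prop} (h : C.Near e n w₀ z g k y L A)
    (he : ∀ i, 1 ≤ i → e i = e' i) : C.Near e' n w₀ z g k y L A := by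
  intro ω ω' a b hl hT i h1 hi hX
  have h2 := h ω ω' a b hl hT i h1 hi fun j h1 hj => by
    rw [he j h1]
    exact hX j h1 hj
  rw [cx_congr he, cx_congr he] at h2
  exact h2

theorem NumN.mono {n S M U c CC CC' N : ℕ} {jk al om : ℕ → ℕ} {g gf : ℕ → ℕ → ℕ}
    {J w₀ z h u u₀ s r ee : ℕ} {e₀ : ℝ}
    (H : NumN n S M U c CC N jk al om g gf J w₀ z h u u₀ s r ee e₀) (hC : CC' ≤ CC)
    (he : 0 ≤ e₀) : NumN n S M U c CC' N jk al om g gf J w₀ z h u u₀ s r ee e₀ := by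
  have h1 : (CC' : ℝ) * (e₀ + 1) ≤ CC * (e₀ + 1) :=
    mul_le_mul_of_nonneg_right (by exact_mod_cast hC) (by linarith)
  exact
    { path := H.path
      hu := by have := H.hu; omega
      hjk := H.hjk
      hjM := H.hjM
      hMJ := H.hMJ
      hz := H.hz
      tms := H.tms
      hom := H.hom
      hw₀ := H.hw₀
      hg := fun k hk l hl => hC.trans (H.hg k hk l hl)
      hJ1 := h1.trans H.hJ1
      hs := by have := H.hs; linarith
      hgf := H.hgf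
      hexp := H.hexp
      near := fun k hk i hi => by have := H.near k hk i hi; omega
      tim := H.tim }

/-- **The labels of universal degree of a class.** -/
theorem labIn_of {n : ℕ} {S : PCl m} {e : ℕ → Fin m} {L : ℕ → ℝ → ℝ → ℝ} {σ : ℕ → ℝ}
    {a ρ E c₀ : ℝ} {W : Set ℝ} {Att : Set (ℝ × ℝ)} (hTm : Pool.CHT.TmH S)
    (hinj : Inj (fun i => e (i + 1)) (n + 1)) (hA : NrA L n a ρ E c₀)
    (hJ : JatN S (fun i => e (i + 1)) n (fun l => L (l + 1)) a Att ρ E) :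
    LabIn S e n L σ a W Att := by
  classical
  intro s k₀ hk0 hk1
  have ha0 := hA.a0
  have hρ0 := hA.ρ0
  have hc00 := hA.c0
  obtain ⟨ρ₁, hρ₁⟩ : ∃ ρ₁, ρ₁ = min (ρ / 2) (a / 4) := ⟨_, rfl⟩
  have hρ₁0 : 0 < ρ₁ := by
    rw [hρ₁]
    exact lt_min (by positivity) (by positivity)
  have hρa : 4 * ρ₁ ≤ a := by
    have : ρ₁ ≤ a / 4 := by rw [hρ₁]; exact min_le_right _ _
    linarith
  have hρρ : 2 * ρ₁ ≤ ρ := by
    have : ρ₁ ≤ ρ / 2 := by rw [hρ₁]; exact min_le_left _ _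
    linarith
  -- the slope
  obtain ⟨Sl, hSl1, hSl2, hSl3, hSl4⟩ : ∃ Sl : ℕ, s ≤ Sl ∧ 1 ≤ Sl ∧
      (∀ i, 1 ≤ i → i ≤ n + 1 → |σ i| ≤ Sl) ∧ 2 ≤ Sl * ρ₁ := by
    obtain ⟨A₁, hA₁⟩ := exists_nat_ge (∑ i ∈ range (n + 2), |σ i|)
    obtain ⟨A₂, hA₂⟩ := exists_nat_ge (2 / ρ₁)
    refine ⟨s + 1 + A₁ + A₂, by omega, by omega, fun i h1 hi => ?_, ?_⟩
    · have h2 : |σ i| ≤ ∑ i ∈ range (n + 2), |σ i| :=
        Finset.single_le_sum (f := fun i => |σ i|) (fun _ _ => abs_nonneg _)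
          (mem_range.2 (by omega))
      have h3 : (A₁ : ℝ) ≤ (s + 1 + A₁ + A₂ : ℕ) := by
        exact_mod_cast (by omega : A₁ ≤ s + 1 + A₁ + A₂)
      linarith
    · have h3 : (A₂ : ℝ) ≤ (s + 1 + A₁ + A₂ : ℕ) := by
        exact_mod_cast (by omega : A₂ ≤ s + 1 + A₁ + A₂)
      have h4 := mul_le_mul_of_nonneg_right (hA₂.trans h3) hρ₁0.le
      rw [div_mul_cancel₀ _ hρ₁0.ne'] at h4
      exact h4
  obtain ⟨Kst, c, Lc, hKst, hLc, hlab⟩ := lab_jat (n + 1) (2 * Sl) (by omega)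
  obtain ⟨cl, hlip⟩ := Pool.STAT.CLO.lip_jat (n + 1) Kst
  refine ⟨Kst, fun M U γ ε₀ hγ hγk hε₀ => ?_⟩
  obtain ⟨q, hq⟩ : ∃ q : ℝ, q = γ / (M + 2) := ⟨_, rfl⟩
  have hq0 : 0 < q := by rw [hq]; positivity
  refine ⟨q / (8 * (c + 1)), by positivity, fun κ hκ0 hκ => ?_⟩
  obtain ⟨η, hη⟩ : ∃ η : ℝ, η = κ / (16 * (c + 1) ^ 2) := ⟨_, rfl⟩
  have hη0 : 0 < η := by rw [hη]; positivity
  obtain ⟨T, hT1, hTη⟩ : ∃ T : ℕ, 1 ≤ T ∧ ((Sl : ℝ) + 1) * (M + 1) * (q / T) ≤ η / 4 := by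
    obtain ⟨T, hT⟩ := exists_nat_ge (((Sl : ℝ) + 1) * (M + 1) * q / (η / 4))
    refine ⟨T + 1, by omega, ?_⟩
    have h1 : (T : ℝ) ≤ (T + 1 : ℕ) := by exact_mod_cast Nat.le_succ T
    have h2 := hT.trans h1
    rw [div_le_iff₀ (by positivity)] at h2
    rw [mul_div_assoc', div_le_iff₀ (by positivity)]
    linarith
  obtain ⟨ρ', hρ'0, hJ'⟩ := hJ (ε₀ / 2) (half_pos hε₀)
  have hγ0 : (0 : ℝ) ≤ γ := hγ.le
  obtain ⟨r1, h10, h1⟩ := lin_small (C := 8) (by norm_num) ha0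
  obtain ⟨r2, h20, h2⟩ := lin_small (C := (γ : ℝ)) hγ0 (half_pos hρ₁0)
  obtain ⟨r3, h30, h3⟩ := lin_small (C := (2 + γ : ℝ)) (by linarith) (half_pos hρ0)
  obtain ⟨r4, h40, h4⟩ := lin_small (C := (η + γ : ℝ)) (by linarith)
    (show 0 < a / 4 by positivity)
  obtain ⟨r5, h50, h5⟩ := lin_small (C := (Sl * M * q + κ : ℝ)) (by positivity)
    (show 0 < a / 4 by positivity)
  obtain ⟨r6, h60, h6⟩ := lin_small (C := ((U + 1) * q + κ + γ : ℝ)) (by positivity) hc00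
  obtain ⟨r7, h70, h7⟩ := lin_small (C := (2 + γ : ℝ)) (by linarith) hρ'0
  obtain ⟨r8, h80, h8'⟩ := lin_small (C := (3 * cl * κ : ℝ)) (by positivity)
    (show 0 < ε₀ / 4 by positivity)
  refine ⟨η / 8, by positivity, min r1 (min r2 (min r3 (min r4 (min r5 (min r6 (min r7 r8)))))),
    ?_, ∅, fun r b hr hr1 hba hcell hgnr => ?_⟩
  · simp only [lt_min_iff]
    exact ⟨h10, h20, h30, h40, h50, h60, h70, h80⟩
  simp only [lt_min_iff] at hr1
  obtain ⟨g1, g2, g3, g4, g5, g6, g7, g8⟩ := hr1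
  have hstp : Pool.STA.stp γ r M = q * r := by
    show (γ : ℝ) * r / (M + 2) = q * r
    rw [hq]
    ring
  obtain ⟨t, ht⟩ : ∃ t : ℝ, t = q / T * r := ⟨_, rfl⟩
  have hT0 : (0 : ℝ) < T := by exact_mod_cast hT1
  have ht0 : 0 < t := by rw [ht]; positivity
  have hTt : T * t = q * r := by
    rw [ht]
    field_simp
  obtain ⟨N₀, hN₀⟩ : ∃ N₀, N₀ = nst ρ₁ t := ⟨_, rfl⟩
  have n1 : (N₀ : ℝ) * t ≤ ρ₁ := by rw [hN₀]; exact nst_le hρ₁0.le ht0
  obtain ⟨y, hy⟩ : ∃ y : ℕ → ℝ, y = fun k : ℕ => b - N₀ * t + k * t := ⟨_, rfl⟩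
  obtain ⟨w, hw⟩ : ∃ w : ℕ → ℝ, w = fun k : ℕ => min (b - N₀ * t + k * t) (b - γ * r) :=
    ⟨_, rfl⟩
  have hyk : ∀ k : ℕ, y k = b - N₀ * t + k * t := fun k => by rw [hy]
  have hwk : ∀ k : ℕ, w k = min (y k) (b - γ * r) := fun k => by rw [hw, hy]
  have hba' := abs_le.1 hba
  have hcl := hcell.hi
  have b0 := h1 r hr g1
  have b2 := h2 r hr g2
  have b3 := h3 r hr g3
  have b7 := h7 r hr g7
  have hγr : 0 < (γ : ℝ) * r := mul_pos hγ hr
  have hqM : ((M : ℝ) + 2) * q = γ := by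
    rw [hq]
    field_simp
  have hMq : (M : ℝ) * (q * r) ≤ γ * r := by
    have h8 : ((M : ℝ) + 2) * q * r = γ * r := by rw [hqM]
    have h9 : 0 < q * r := mul_pos hq0 hr
    linarith
  have hytop : ∀ k < ntp N₀ M T + 1, y k < b + γ * r := by
    intro k hk
    have h8 : (k : ℝ) ≤ (ntp N₀ M T : ℕ) := by exact_mod_cast (by omega : k ≤ ntp N₀ M T)
    have h9 := mul_le_mul_of_nonneg_right h8 ht0.le
    have h10 : ((ntp N₀ M T : ℕ) : ℝ) * t ≤ N₀ * t + M * (q * r) := by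
      unfold ntp
      push_cast
      rw [Nat.cast_sub hT1, ← hTt]
      have : 0 ≤ (M : ℝ) * t := by positivity
      push_cast
      linarith
    have h11 : (M : ℝ) * (q * r) < γ * r := by
      have h8 : ((M : ℝ) + 2) * q * r = γ * r := by rw [hqM]
      have h9 : 0 < q * r := mul_pos hq0 hr
      linarith
    rw [hyk]
    linarith
  have hylow : ∀ k : ℕ, b - ρ₁ ≤ y k := fun k => by
    rw [hyk]
    have : 0 ≤ (k : ℝ) * t := by positivity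
    linarith
  have hwy : ∀ k, w k ≤ y k := fun k => by rw [hwk]; exact min_le_left _ _
  have hwlow : ∀ k, b - ρ₁ ≤ w k := fun k => by
    rw [hwk]
    exact le_min (hylow k) (by linarith)
  have hwtop : ∀ k, w k ≤ b - γ * r := fun k => by rw [hwk]; exact min_le_right _ _
  have hpos : ∀ k < ntp N₀ M T + 1, |y k - a| ≤ ρ ∧ |w k - a| ≤ ρ := by
    intro k hk
    have f1 := hytop k hk
    have f2 := hylow k
    have f3 := hwlow k
    have f4 := hwtop k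
    constructor
    · rw [abs_le]
      constructor <;> linarith
    · rw [abs_le]
      constructor <;> linarith
  have hrat : ∀ k : ℕ, ∃ q₁ : ℚ, y k = b - (0 : ℚ) - q₁ * r := by
    intro k
    refine ⟨((N₀ : ℚ) - k) * (γ / ((M + 2) * T)), ?_⟩
    rw [hyk, ht, hq]
    push_cast
    field_simp
    ring
  have hratw : ∀ k : ℕ, ∃ q₂ : ℚ, w k = b - (0 : ℚ) - q₂ * r := by
    intro k
    rw [hwk]
    rcases le_total (y k) (b - γ * r) with h8 | h8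
    · rw [min_eq_left h8]
      exact hrat k
    · rw [min_eq_right h8]
      exact ⟨γ, by push_cast; ring⟩
  have hAtt : ∀ k < ntp N₀ M T + 1, (y k, w k) ∈ Att := by
    intro k hk
    obtain ⟨q₁, e1⟩ := hrat k
    obtain ⟨q₂, e2⟩ := hratw k
    have f1 := hytop k hk
    have f3 := hwlow k
    have f5 := hwy k
    rw [e1, e2]
    rw [e2] at f3 f5
    rw [e1] at f1 f5
    exact hgnr.2 0 q₁ 0 q₂ (by linarith) f5 (by linarith)
  obtain ⟨K', d, δ, K₁, hK₁, hdδ, hBas⟩ := hJ' (ntp N₀ M T + 1) y w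
    (fun k hk => ⟨hAtt k hk, hwy k, hpos k hk⟩) (η / 8 * r) (by positivity)
  obtain ⟨CC₀, hlab⟩ := hlab K' (ntp N₀ M T)
  obtain ⟨Cl, hlip⟩ := hlip K' (ntp N₀ M T)
  obtain ⟨CC, hCC⟩ : ∃ CC, CC = CC₀ + Cl := ⟨_, rfl⟩
  have hNR := numR_of hA CC hSl1 hSl3 hρ₁0 hρa hρρ hSl4 hγ hγk hq hκ0 hκ hη hT1 hTt
    (by
      have h8 := mul_le_mul_of_nonneg_right hTη hr.le
      rw [ht]
      linarith) hr hba hcl (M := M) (U := U) (s := s) (d := d)
    (fun i _ hi => hcell.stat i hi) (fun i _ hi => hcell.sl i hi) b0 b2 b3 (h4 r hr g4)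
    (h5 r hr g5) (h6 r hr g6) (fun l hl => ⟨(hdδ l (by omega)).1.le, (hdδ l (by omega)).2.1⟩)
  rw [← hN₀] at hNR
  -- the time
  obtain ⟨τ, hτ⟩ : ∃ τ : ℝ, τ = t / (2 * (CC + 1)) := ⟨_, rfl⟩
  have hτ0 : 0 < τ := by rw [hτ]; positivity
  have hBT := (hBas.and (Pool.CHT.bas_ev (hTm.2 τ hτ0) (κ := 1 / K₁) (by positivity)))
  have hBP : Bas S (fun J F A => 0 < Pe F.p A) :=
    ⟨1, one_pos, 0, fun J _ F A hA => hTm.1 _ J F A hA⟩
  obtain ⟨J₀, hJ₀⟩ := exists_nat_ge ((2 * c + 2 * CC + Sl + 8 : ℝ) / t)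
  obtain ⟨J₂, hJ₂⟩ := exists_nat_ge ((cl * (c + 3) + Cl + 2 : ℝ) / (ε₀ / 4))
  refine ⟨K₁ * (2 * Kst ^ (M + 1)), Lc, by positivity, by linarith,
    Bas.mono (max J₀ J₂) (hBT.and hBP) ?_⟩
  rintro J hJJ F A ⟨⟨⟨B, G, H, hBA, hPB, hM, hsm⟩, hTB⟩, hPA⟩
  have hJ1 : (2 * c + 2 * CC + Sl + 8 : ℝ) ≤ t * J := by
    have h8 : ((2 * c + 2 * CC + Sl + 8 : ℝ)) / t ≤ J :=
      hJ₀.trans (by exact_mod_cast (le_max_left _ _).trans hJJ)
    rw [div_le_iff₀ ht0] at h8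
    linarith
  have hJ2 : (cl * (c + 3) + Cl + 2 : ℝ) ≤ ε₀ / 4 * J := by
    have h8 : ((cl * (c + 3) + Cl + 2 : ℝ)) / (ε₀ / 4) ≤ J :=
      hJ₂.trans (by exact_mod_cast (le_max_right _ _).trans hJJ)
    rw [div_le_iff₀ (by positivity)] at h8
    linarith
  have hPB0 : 0 < Pe F.p B := by
    by_contra h
    have h8 : K₁ * Pe F.p B ≤ 0 := mul_nonpos_of_nonneg_of_nonpos hK₁.le (not_lt.1 h)
    linarith
  have hTm' := hTB B hBA (by
    rw [one_div, inv_mul_le_iff₀ hK₁]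
    exact hPB) hPB0
  have hN := num_of hSl2 hNR (J := J) hJ1 (e₀ := τ * J) (by positivity) (by
    have h8 : (CC : ℝ) * τ ≤ t / 2 := by
      rw [hτ, mul_div_assoc', div_le_div_iff₀ (by positivity) (by norm_num)]
      nlinarith
    have h9 := mul_le_mul_of_nonneg_right h8 (Nat.cast_nonneg (α := ℝ) J)
    linarith)
  have hJat : Jat F (fun i => e (i + 1)) (n + 1) K' (ntp N₀ M T + 1) (fun k => ⌊y k * J⌋₊)
      (fun k => ⌊w k * J⌋₊) ⌊E * J⌋₊ (fun k l => ⌊(L (l + 1) (y k) (w k) - d l) * J⌋₊)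
      ⌊η / 8 * r * J⌋₊ B G H := by
    refine jat_of_mch hM (N' := ntp N₀ M T + 1) (idx := fun k => k) (fun k hk => hk)
      (fun k' hk' k hk => ?_) fun l hl => ?_
    · have h8 : y k ≤ y k' := by
        rw [hyk, hyk]
        have h9 : (k : ℝ) ≤ k' := by exact_mod_cast hk.le
        have := mul_le_mul_of_nonneg_right h9 ht0.le
        linarith
      refine ⟨h8, ?_⟩
      rw [hwk, hwk]
      exact min_le_min h8 le_rfl
    · exact Nat.floor_le_floor (mul_le_mul_of_nonneg_right (hdδ l (by omega)).2.2.2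
        (Nat.cast_nonneg _))
  have hN' := hN.mono (CC' := CC₀) (by omega) (by positivity)
  obtain ⟨bb, htms⟩ := hN.tms
  rw [hy, hw] at hJat
  obtain ⟨Cd, B', hB', hPB', hHZ, hCnd, hNear, hEr⟩ := hlab m J F (fun i => e (i + 1)) _ _ M _ _ bb
    _ _ _ _ _ _ _ _ _ _ _ B G H (τ * J) hPB0 hJat hinj hN.path hN'.hu hN.hjk hN.hjM hN.hMJ hN.hz
    htms hN.hom hN.hw₀ hN'.hg (by positivity) hTm' hN'.hJ1 hN'.hs hN.hgf
  have he : ∀ i, 1 ≤ i → (fun i => (fun i => e (i + 1)) (i - 1)) i = e i := fun i hi => by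
    show e (i - 1 + 1) = e i
    rw [Nat.sub_add_cancel hi]
  rw [hstp]
  refine ⟨Cd, B', fun ω hω => hBA ω (hB' ω hω), ?_, cnd_congr (hCnd 1 hN.hexp) he,
    fun k hk => near_congr (hNear k hk _ (hN'.near k hk)) he, fun v hv => ?_⟩
  · calc Pe F.p A ≤ K₁ * Pe F.p B := hPB
      _ ≤ K₁ * (2 * Kst ^ (M + 1) * Pe F.p B') := mul_le_mul_of_nonneg_left hPB' hK₁.le
      _ = _ := by ring
  · have hCn := hCnd 1 hN.hexp
    have hvJ : ⌊b * J⌋₊ + v * ⌊q * r * J⌋₊ ≤ J := by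
      have h8 := hN.hMJ
      have h9 := Nat.mul_le_mul_right ⌊q * r * J⌋₊ hv
      omega
    have hgen : ∀ r' ≤ n + 1, ∀ e' : ℕ, ChOK F (fun i => e (i + 1)) r' (fun _ => K')
        ⌊(b - N₀ * t + (jkk N₀ T v : ℕ) * t) * J⌋₊
        ⌊min (b - N₀ * t + (jkk N₀ T v : ℕ) * t) (b - γ * r) * J⌋₊ e'
        (fun l => ⌊(L (l + 1) (b - N₀ * t + (jkk N₀ T v : ℕ) * t)
          (min (b - N₀ * t + (jkk N₀ T v : ℕ) * t) (b - γ * r)) - d l) * J⌋₊) B
        (G (jkk N₀ T v)) (H (jkk N₀ T v)) →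
        NL.LipC F Cd ⌊b * J⌋₊ ⌊q * r * J⌋₊ v r' (e' + cl * (c * (⌊κ * r / (4 * (c + 1)) * J⌋₊ + 1) +
          (⌊2 * κ * r * J⌋₊ + 1) + 1) + Cl) (BK.g L σ b (q * r) (κ * r) J) B' := by
      intro r' hr' e' hok
      exact hlip m J F (fun i => e (i + 1)) Cd _ _ v (jkk N₀ T v) r' _ _ e' _ _ _ _ _ _ _ _ _
        (c * (⌊κ * r / (4 * (c + 1)) * J⌋₊ + 1)) (⌊2 * κ * r * J⌋₊ + 1) B B' G H hJat hinj hN.path
        (by have := hN.hu; omega) (hN.hjk v hv).1 (hN.hjk v hv).2.1 hvJ (hN.tim v hv) hr' hok hB'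
        (fun x i h1 hi => hCn.deg v hv x i h1 (hi.trans hr'))
        (fun x i h1 hi => hCn.tri v hv x i h1 (hi.trans hr')) (hEr v hv)
        (fun i h1 hi => ⟨by have := (hN.hgf v hv i h1 (hi.trans hr')).1; exact le_trans (Nat.le_add_right _ _) this,
          (hN.hgf v hv i h1 (hi.trans hr')).2⟩)
    have hjv := (hN.hjk v hv).1
    refine ⟨?_, _, hgen (n + 1) le_rfl _ (hJat.ok (jkk N₀ T v) (by omega))⟩
    have hyv : y (jkk N₀ T v) < b + γ * r := hytop _ (by omega)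
    have hyv' : b ≤ y (jkk N₀ T v) := by
      rw [hyk]
      have h8 : (N₀ : ℝ) ≤ (jkk N₀ T v : ℕ) := by exact_mod_cast Nat.le_add_right _ _
      have := mul_le_mul_of_nonneg_right h8 ht0.le
      linarith
    have hwv : w (jkk N₀ T v) = b - γ * r := by
      rw [hwk]
      exact min_eq_right (by linarith)
    have hok := hsm (jkk N₀ T v) (by omega) (by
      rw [abs_le]
      constructor <;> linarith) (by
      rw [hwv, abs_le]
      constructor <;> linarith)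
    rw [hy, hw] at hok
    have hfin := hgen n (by omega) _ hok
    have hle : ⌊ε₀ / 2 * J⌋₊ + cl * (c * (⌊κ * r / (4 * (c + 1)) * J⌋₊ + 1) +
        (⌊2 * κ * r * J⌋₊ + 1) + 1) + Cl ≤ ⌊ε₀ * J⌋₊ := by
      have hJ0 : (0 : ℝ) ≤ J := Nat.cast_nonneg J
      have k1 : (⌊ε₀ / 2 * J⌋₊ : ℝ) ≤ ε₀ / 2 * J := Nat.floor_le (by positivity)
      have k2 : (⌊κ * r / (4 * (c + 1)) * J⌋₊ : ℝ) ≤ κ * r / (4 * (c + 1)) * J :=
        Nat.floor_le (by positivity)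
      have k3 : (⌊2 * κ * r * J⌋₊ : ℝ) ≤ 2 * κ * r * J := Nat.floor_le (by positivity)
      have k4 : ε₀ * J < ⌊ε₀ * J⌋₊ + 1 := Nat.lt_floor_add_one _
      have k5 := mul_le_mul_of_nonneg_right (h8' r hr g8) hJ0
      have k6 : (c : ℝ) * (κ * r / (4 * (c + 1)) * J) ≤ κ * r / 4 * J := by
        have k7 : (c : ℝ) * (κ * r / (4 * (c + 1))) ≤ κ * r / 4 := by
          have : 0 < κ * r := mul_pos hκ0 hr
          rw [mul_div_assoc', div_le_div_iff₀ (by positivity) (by norm_num)]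
          linarith
        have k8 := mul_le_mul_of_nonneg_right k7 hJ0
        linarith
      have hc0 : (0 : ℝ) ≤ c := Nat.cast_nonneg c
      have hcl0 : (0 : ℝ) ≤ cl := Nat.cast_nonneg cl
      have k9 : (c : ℝ) * (⌊κ * r / (4 * (c + 1)) * J⌋₊ + 1) + (⌊2 * κ * r * J⌋₊ + 1) + 1 ≤
          3 * κ * r * J + (c + 2) := by
        have k10 := mul_le_mul_of_nonneg_left k2 hc0
        have k11 : 0 ≤ κ * r * J := by positivity
        linarith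
      have k12 := mul_le_mul_of_nonneg_left k9 hcl0
      have k13 : (⌊ε₀ / 2 * J⌋₊ : ℝ) + cl * (c * (⌊κ * r / (4 * (c + 1)) * J⌋₊ + 1) +
          (⌊2 * κ * r * J⌋₊ + 1) + 1) + Cl < ⌊ε₀ * J⌋₊ + 1 := by
        linarith
      have k14 : ⌊ε₀ / 2 * J⌋₊ + cl * (c * (⌊κ * r / (4 * (c + 1)) * J⌋₊ + 1) +
          (⌊2 * κ * r * J⌋₊ + 1) + 1) + Cl < ⌊ε₀ * J⌋₊ + 1 := by
        exact_mod_cast k13
      omega
    intro ω hω j h1 hj b' hb' l hl hlj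
    exact (hfin ω hω j h1 hj b' hb' l hl hlj).trans
      (pow_le_pow_right₀ (by norm_num) (Nat.add_le_add_right hle _))

end Pool.TRC
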