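import Pool.Agent.H33.TRC.LabC
import Pool.Agent.H62.GEN.JatC

/-!
# The labels of universal degree in a static cell of a class: the typed input from the thresholds

`labIn_cls`: `LabIn` from the thresholds of the class, at a centre `a` where the order of the
coordinates is greedy and the diagonals are continuous.
-/

set_option autoImplicit false

namespace Pool.TRC

open Finset MvPolynomial
open Pool.Agent.H49.Ent Pool.Agent.H32.Dense Pool.STK Pool.KS3 Pool.KA Pool.KSAT Pool.K2S Pool.PB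
open Pool.GEN Pool.S6C Pool.STAT Pool.STA
open Pool.CHT (chsys bet tau Rc Up1 TmH tau_mono tau_self)
open Pool.LBT (ThrOf)
open Pool.LEV (Law)
open Pool.STAT.CLO (Inj)

variable {m : ℕ}

theorem rc_of_cont {f : ℝ → ℝ → ℝ} {a : ℝ} (h : ContinuousAt (fun v => f v v) a) (ha : a < 1) :
    Rc f a a := by
  intro ε hε
  obtain ⟨δ, hδ, h1⟩ := Metric.continuousAt_iff.1 h ε hε
  obtain ⟨o, ho⟩ : ∃ o : ℝ, o = min (δ / 2) ((1 - a) / 2) := ⟨_, rfl⟩
  have ho0 : 0 < o := by
    rw [ho]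
    exact lt_min (by linarith) (by linarith)
  have ho1 : o ≤ δ / 2 := by rw [ho]; exact min_le_left _ _
  have ho2 : o ≤ (1 - a) / 2 := by rw [ho]; exact min_le_right _ _
  refine ⟨o, ho0, by linarith, ?_⟩
  have h2 := h1 (x := a + o) (by
    rw [Real.dist_eq, add_sub_cancel_left, abs_of_pos ho0]
    linarith)
  rw [Real.dist_eq] at h2
  have h3 := (abs_lt.1 h2).2
  linarith

/-- **The facts at the centre `a`** for the order `e 1, …, e n` and the target `e (n + 1)`. -/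
structure CenL (P : List (Fin m) × Fin m → ℝ → ℝ → ℝ) (θ : ℝ) (e : ℕ → Fin m) (n : ℕ)
    (L : ℕ → ℝ → ℝ → ℝ) (a sg : ℝ) : Prop where
  a0 : 0 < a
  a1 : a < 1
  num : ∀ l < n, L (l + 1) = bet P (fun i => e (i + 1)) l
  con : ∀ i < n, ∀ l ≤ i, ContinuousAt (fun v => tau P (fun i => e (i + 1)) l i v v) a
  conQ : ContinuousAt (fun v => L (n + 1) v v) a
  gre : ∀ i < n, ∀ l < i, bet P (fun i => e (i + 1)) l a a ≤ tau P (fun i => e (i + 1)) l i a a
  vis : ∀ i < n, bet P (fun i => e (i + 1)) i a a + θ * a < 1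
  lawQ : Law (L (n + 1))
  lowQ : ∀ y w, 0 ≤ w → w ≤ y → y ≤ 1 → y ≤ L (n + 1) y w
  sg1 : sg < 1
  les : ∀ i, 1 ≤ i → i ≤ n + 1 → L i a a ≤ sg

/-- **The labels of universal degree of a class**, from the thresholds. -/
theorem labIn_cls {n : ℕ} {S : PCl m} {θ : ℝ} {P : List (Fin m) × Fin m → ℝ → ℝ → ℝ}
    (hS0 : S.Ne) (hP : ThrOf (chsys m θ) S P) (hθ : 0 < θ) (hS : TmH S) {e : ℕ → Fin m}
    (hinj : Inj (fun i => e (i + 1)) (n + 1)) {L : ℕ → ℝ → ℝ → ℝ} {a sg : ℝ}
    (hC : CenL P θ e n L a sg) {Att : Set (ℝ × ℝ)}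
    (hAtt : ∀ x w, (x, w) ∈ Att → 0 < w → w ≤ x → x < 1 →
      (∀ i < n, ∀ l ≤ i, Rc (tau P (fun i => e (i + 1)) l i) x w) ∧
        ∀ i < n, Up1 (bet P (fun i => e (i + 1)) i) x w) {ρT : ℝ} (hρT : 0 < ρT)
    (hT : ∀ x w, (x, w) ∈ Att → 0 < w → w ≤ x → x < 1 → |x - a| ≤ ρT → |w - a| ≤ ρT →
      Pool.JTN.TgP S (fun i => e (i + 1)) n (L (n + 1) x w) x w sg) (σ : ℕ → ℝ) (W : Set ℝ) :
    LabIn S e n L σ a W Att := by
  classical
  have hIn : Set.InjOn (fun i => e (i + 1)) (Set.Iio n) := by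
    intro x hx y hy hxy
    exact hinj x (by have : x < n := hx; omega) y (by have : y < n := hy; omega) hxy
  -- the largest number
  obtain ⟨Mx, hMx1, hMx2, hMx3⟩ : ∃ Mx : ℝ, (∀ i, 1 ≤ i → i ≤ n + 1 → L i a a ≤ Mx) ∧
      (Mx = L (n + 1) a a ∨ 1 ≤ n ∧ Mx = bet P (fun i => e (i + 1)) (n - 1) a a) ∧ Mx ≤ sg := by
    rcases Nat.eq_zero_or_pos n with rfl | hn
    · refine ⟨L 1 a a, fun i h1 hi => ?_, Or.inl rfl, hC.les 1 le_rfl le_rfl⟩
      have : i = 1 := by omega
      rw [this]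
    · have hsrt : ∀ i < n, bet P (fun i => e (i + 1)) i a a ≤
          bet P (fun i => e (i + 1)) (n - 1) a a := by
        intro i hi
        rcases Nat.lt_or_ge i (n - 1) with h1 | h1
        · have h2 := hC.gre (n - 1) (by omega) i h1
          have h3 := tau_mono (l := i) (l' := n - 1) (i := n - 1) hS0 hP
            (hIn.mono fun x (hx : x < n - 1 + 1) => show x < n by omega) h1.le le_rfl
            hC.a0 le_rfl (rc_of_cont (hC.con (n - 1) (by omega) (n - 1) le_rfl) hC.a1)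
          rw [tau_self] at h3
          exact h2.trans h3
        · have : i = n - 1 := by omega
          rw [this]
      refine ⟨max (L (n + 1) a a) (bet P (fun i => e (i + 1)) (n - 1) a a), fun i h1 hi => ?_,
        ?_, max_le (hC.les _ (by omega) le_rfl) ?_⟩
      · rcases Nat.lt_or_ge n i with h2 | h2
        · have : i = n + 1 := by omega
          rw [this]
          exact le_max_left _ _
        · obtain ⟨l, rfl⟩ : ∃ l, i = l + 1 := ⟨i - 1, by omega⟩
          rw [hC.num l (by omega)]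
          exact (hsrt l (by omega)).trans (le_max_right _ _)
      · rcases le_total (L (n + 1) a a) (bet P (fun i => e (i + 1)) (n - 1) a a) with h2 | h2
        · exact Or.inr ⟨hn, max_eq_right h2⟩
        · exact Or.inl (max_eq_left h2)
      · have h2 := hC.les (n - 1 + 1) (by omega) (by omega)
        rwa [hC.num (n - 1) (by omega)] at h2
  obtain ⟨c₀, hc₀⟩ : ∃ c₀ : ℝ, c₀ = (1 - sg) / 4 := ⟨_, rfl⟩
  have hsg := hC.sg1
  have hc00 : 0 < c₀ := by rw [hc₀]; linarith
  obtain ⟨E, hE⟩ : ∃ E : ℝ, E = sg + 2 * c₀ - Mx := ⟨_, rfl⟩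
  have hE0 : 0 < E := by rw [hE]; linarith
  obtain ⟨ρ₀, hρ₀, hJ⟩ := Pool.JTN.jatN_of (c := fun i => e (i + 1)) (r := n)
    (β := fun l => L (l + 1)) (x := a) (sg := sg) (E := E) hS0 hP hθ hS hIn hC.num hC.lawQ
    (fun x w h1 h2 h3 => hC.lowQ x w h1.le h2 h3)
    { x0 := hC.a0
      x1 := hC.a1
      con := hC.con
      conQ := hC.conQ
      gre := hC.gre
      vis := hC.vis
      E0 := hE0
      top := by
        rcases hMx2 with h1 | ⟨h1, h2⟩
        · left
          show sg < E + L (n + 1) a a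
          rw [hE, h1]
          linarith
        · right
          refine ⟨h1, ?_⟩
          rw [hE, h2]
          linarith } hAtt hρT hT
  -- the laws
  have hlaw : ∀ i, 1 ≤ i → i ≤ n + 1 → Law (L i) := by
    intro i h1 hi
    rcases Nat.lt_or_ge n i with h2 | h2
    · have : i = n + 1 := by omega
      rw [this]
      exact hC.lawQ
    · obtain ⟨l, rfl⟩ : ∃ l, i = l + 1 := ⟨i - 1, by omega⟩
      rw [hC.num l (by omega)]
      exact hP.law _
  have hlow : ∀ i, 1 ≤ i → i ≤ n + 1 → ∀ y w, 0 ≤ w → w ≤ y → y ≤ 1 → y ≤ L i y w := by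
    intro i h1 hi
    rcases Nat.lt_or_ge n i with h2 | h2
    · have : i = n + 1 := by omega
      rw [this]
      exact hC.lowQ
    · obtain ⟨l, rfl⟩ : ∃ l, i = l + 1 := ⟨i - 1, by omega⟩
      rw [hC.num l (by omega)]
      exact fun y w h3 h4 h5 => hP.low _ y w h3 h4 h5
  have hcon : ∀ i < n + 1, ContinuousAt (fun v => L (i + 1) v v) a := by
    intro i hi
    rcases Nat.lt_or_ge i n with h2 | h2
    · have h3 := hC.con i h2 i le_rfl
      have h4 : (fun v => L (i + 1) v v) = fun v => tau P (fun i => e (i + 1)) i i v v := by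
        funext v
        rw [hC.num i h2, tau_self]
      rw [h4]
      exact h3
    · have : i = n := by omega
      rw [this]
      exact hC.conQ
  obtain ⟨ρ₁, hρ₁, hmod⟩ := Pool.JTN.mod_ex (n + 1) (f := fun i v => L (i + 1) v v) hcon c₀ hc00
  obtain ⟨ρ, hρ⟩ : ∃ ρ : ℝ, ρ = min ρ₀ (min ρ₁ (1 - a)) := ⟨_, rfl⟩
  have ha1 := hC.a1
  have hρ0 : 0 < ρ := by
    rw [hρ]
    exact lt_min hρ₀ (lt_min hρ₁ (by linarith))
  have e1 : ρ ≤ ρ₀ := by rw [hρ]; exact min_le_left _ _
  have e2 : ρ ≤ ρ₁ := by rw [hρ]; exact (min_le_right _ _).trans (min_le_left _ _)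
  have e3 : ρ ≤ 1 - a := by rw [hρ]; exact (min_le_right _ _).trans (min_le_right _ _)
  refine labIn_of (ρ := ρ) (E := E) (c₀ := c₀) hS hinj
    { a0 := hC.a0
      a1 := hC.a1
      ρ0 := hρ0
      E0 := hE0.le
      c0 := hc00
      law := hlaw
      low := hlow
      mar := fun i h1 hi y w hw hwy hy hwa => ?_ } (hJ ρ e1)
  obtain ⟨l, rfl⟩ : ∃ l, i = l + 1 := ⟨i - 1, by omega⟩
  have hy' := abs_le.1 hy
  have h2 := (hlaw (l + 1) h1 hi).mono_w y w y hw.le hwy le_rfl (by linarith)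
  have h3 := (abs_le.1 (hmod y (hy.trans e2) l (by omega))).2
  have h4 := hMx1 (l + 1) h1 hi
  have h5 : c₀ * 4 = 1 - sg := by rw [hc₀]; ring
  rw [hE]
  linarith

end Pool.TRC
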