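import Pool.Agent.H33.TRC.LabF
import Pool.Agent.H33.TRC.JatN

/-!
# The numbers of the labels of universal degree: from reals to naturals

`NumR`: the real numbers of a path; `NumN`: the conditions of `lab_jat`; `num_of`: `NumR → NumN` if
the dimension is large.
-/

set_option autoImplicit false

namespace Pool.TRC

open Finset
open Pool.GEN

/-- The top index of the path. -/
def ntp (N₀ M T : ℕ) : ℕ := N₀ + M * (T - 1)

/-- The index of the level `v`. -/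
def jkk (N₀ T : ℕ) (v : ℕ) : ℕ := N₀ + v * (T - 1)

theorem jkk_le {N₀ M T v : ℕ} (hv : v ≤ M) : jkk N₀ T v ≤ ntp N₀ M T :=
  Nat.add_le_add_left (Nat.mul_le_mul_right _ hv) _

/-- **The real numbers of a path**: radii `y₀ + k t`, windows `min (y₀ + k t) D`, levels
`b + v ζ`, `ζ = T t`, numbers `B l k` with the defects `d l`, final precisions `Tg i v`. -/
structure NumR (n S M T N₀ U c CC : ℕ) (y₀ t D b : ℝ) (B : ℕ → ℕ → ℝ) (Tg : ℕ → ℕ → ℝ)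
    (d : ℕ → ℝ) (ζ uR sR ϑ ξ φ E Bm ω : ℝ) : Prop where
  ω0 : 0 < ω
  y0 : 0 < y₀
  t0 : ω ≤ t
  T1 : 1 ≤ T
  hζ : ζ = T * t
  hb : y₀ + N₀ * t = b
  hD0 : y₀ ≤ D
  hDb : D + ω ≤ b
  top : b + M * ζ ≤ 1
  two : b + M * (T - 1 : ℕ) * t + D + ω ≤ 2 * b
  law : ∀ k ≤ ntp N₀ M T, ∀ k' ≤ k, ∀ l < n, B l k' + ((k : ℝ) - k') * t ≤ B l k
  low : ∀ k ≤ ntp N₀ M T, ∀ l < n, ω ≤ B l k - d l ∧ k * t ≤ B l k
  dl : ∀ l < n, 0 ≤ d l ∧ d l ≤ φ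
  slope : ∀ v ≤ M, ∀ k ≤ jkk N₀ T v, ∀ l < n,
    B l (jkk N₀ T v) ≤ B l k + S * (((jkk N₀ T v : ℕ) : ℝ) - k) * t + uR / 2
  up : ∀ v ≤ M, ∀ l < n, B l (jkk N₀ T v) ≤ S * ((jkk N₀ T v : ℕ) * t)
  tgt : ∀ v ≤ M, ∀ i, 1 ≤ i → i ≤ n → 0 ≤ Tg i v ∧
    Tg i v + ϑ ≤ B (i - 1) (jkk N₀ T v) - d (i - 1) ∧
    B (i - 1) (jkk N₀ T v) - d (i - 1) ≤ Tg i v + ξ
  φ0 : 0 ≤ φ
  ξ0 : 0 ≤ ξ
  E0 : 0 ≤ E
  hφ : φ + ω ≤ uR
  hu : 2 * ω ≤ uR
  hs : c * (t + uR) + 2 * ω ≤ sR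
  hs' : M * t + ω ≤ sR
  hϑ : c * sR + ω ≤ ϑ
  hz : c * (sR + ξ) + ω ≤ ζ
  bm : ∀ v ≤ M, ∀ l < n, B l (jkk N₀ T v) - d l ≤ Bm
  near : Bm + (U + 1) * ζ + c * sR + E + ω ≤ 1

/-- **The conditions of `lab_jat`** for the naturals. -/
structure NumN (n S M U c CC N : ℕ) (jk al om : ℕ → ℕ) (g gf : ℕ → ℕ → ℕ)
    (J w₀ z h u u₀ s r ee : ℕ) (e₀ : ℝ) : Prop where
  path : Path n (N + 1) J al om g (al 0) (om 0) h u
  hu : u₀ + CC ≤ u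
  hjk : ∀ k ≤ M, jk k ≤ N ∧ al (jk k) ≤ w₀ + k * z ∧
    Slp n S (shl (al 0) al) (jg g) u (jk k + 1)
  hjM : jk M = N
  hMJ : w₀ + M * z ≤ J
  hz : 1 ≤ z
  tms : ∃ bb, Tms n S (N + 1) bb (wtop (N + 1) w₀ (shl (om 0) om)) (jg g) h u
  hom : om N ≤ w₀
  hw₀ : w₀ ≤ al N
  hg : ∀ k ≤ N, ∀ l < n, CC ≤ g k l
  hJ1 : CC * (e₀ + 1) ≤ (J - om N : ℕ)
  hs : (c : ℝ) * (h + u) + CC * (e₀ + 1) ≤ s
  hgf : ∀ k ≤ M, ∀ i, 1 ≤ i → i ≤ n → gf k i + c * (s + 1) ≤ g (jk k) (i - 1) ∧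
    g (jk k) (i - 1) ≤ gf k i + r
  hexp : (2 : ℝ) ^ (c * (s + r + 1)) ≤ Real.exp (1 * z)
  near : ∀ k ≤ M, ∀ i < n, g (jk k) i + (U + 1) * z + c * (s + 1) +
    (ee + nlp (g (jk k)) 0 i) + CC ≤ J
  tim : ∀ k ≤ M, w₀ + k * z + 2 ≤ al (jk k) + s

theorem nlp_add_le {g : ℕ → ℕ} {i X : ℕ} (h : ∀ j ≤ i, g j ≤ X) : g i + nlp g 0 i ≤ X := by
  unfold nlp
  have h1 : (Finset.Icc 0 i).sup g ≤ X := Finset.sup_le fun j hj => h j (Finset.mem_Icc.1 hj).2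
  have h2 := h i le_rfl
  omega

/-- **From reals to naturals.** -/
theorem num_of {n S M T N₀ U c CC : ℕ} {y₀ t D b : ℝ} {B : ℕ → ℕ → ℝ} {Tg : ℕ → ℕ → ℝ}
    {d : ℕ → ℝ} {ζ uR sR ϑ ξ φ E Bm ω : ℝ} (hS : 1 ≤ S)
    (H : NumR n S M T N₀ U c CC y₀ t D b B Tg d ζ uR sR ϑ ξ φ E Bm ω) {J : ℕ}
    (hJ : (2 * c + 2 * CC + S + 8 : ℝ) ≤ ω * J) {e₀ : ℝ} (he0 : 0 ≤ e₀)
    (he : CC * e₀ ≤ ω / 2 * J) :
    NumN n (2 * S) M U c CC (ntp N₀ M T) (jkk N₀ T) (fun k => ⌊(y₀ + k * t) * J⌋₊)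
      (fun k => ⌊min (y₀ + k * t) D * J⌋₊) (fun k l => ⌊(B l k - d l) * J⌋₊)
      (fun v i => ⌊Tg i v * J⌋₊) J ⌊b * J⌋₊ ⌊ζ * J⌋₊ (⌊t * J⌋₊ + 1) ⌊uR * J⌋₊ ⌊φ * J⌋₊ ⌊sR * J⌋₊
      (⌊ξ * J⌋₊ + 1) ⌊E * J⌋₊ e₀ := by
  obtain ⟨ω0, y0, t0, T1, hζ, hb, hD0, hDb, top, two, law, low, dl, slope, up, tgt, φ0, ξ0, E0, hφ,
    hu, hs, hs', hϑ, hz, bm, near⟩ := H
  have hJ0 : (0 : ℝ) ≤ J := Nat.cast_nonneg J
  have ht : 0 < t := ω0.trans_le t0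
  have hc0 : (0 : ℝ) ≤ c := Nat.cast_nonneg c
  have hCC0 : (0 : ℝ) ≤ CC := Nat.cast_nonneg CC
  have hS0 : (1 : ℝ) ≤ S := by exact_mod_cast hS
  have htJ : ω * J ≤ t * J := mul_le_mul_of_nonneg_right t0 hJ0
  -- floors
  have fle : ∀ x : ℝ, 0 ≤ x → (⌊x * J⌋₊ : ℝ) ≤ x * J := fun x hx =>
    Nat.floor_le (mul_nonneg hx hJ0)
  have flt : ∀ x : ℝ, x * J < ⌊x * J⌋₊ + 1 := fun x => Nat.lt_floor_add_one _
  have fmo : ∀ x y : ℝ, x ≤ y → ⌊x * J⌋₊ ≤ ⌊y * J⌋₊ := fun x y h =>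
    Nat.floor_le_floor (mul_le_mul_of_nonneg_right h hJ0)
  have ypos : ∀ k : ℕ, 0 ≤ y₀ + k * t := fun k => by positivity
  have hyN : ∀ v : ℕ, y₀ + (jkk N₀ T v : ℕ) * t = b + v * (T - 1 : ℕ) * t := by
    intro v
    unfold jkk
    push_cast
    rw [← hb]
    ring
  have hT : ((T - 1 : ℕ) : ℝ) = T - 1 := by
    rw [Nat.cast_sub T1, Nat.cast_one]
  have hbD : D ≤ b := by linarith
  have hb0 : 0 ≤ b := by linarith
  have hD00 : 0 ≤ D := by linarith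
  have hζ0 : 0 ≤ ζ := by rw [hζ]; positivity
  have hsR0 : 0 ≤ sR := by
    have : 0 ≤ (M : ℝ) * t := by positivity
    linarith
  have huR0 : 0 ≤ uR := by linarith
  have hMζ : 0 ≤ (M : ℝ) * ζ := by positivity
  have hb1 : b ≤ 1 := by linarith
  have hz0 : 0 ≤ (M : ℝ) * (T - 1 : ℕ) * t := by positivity
  have hyM : y₀ + (ntp N₀ M T : ℕ) * t = b + M * (T - 1 : ℕ) * t := hyN M
  have hyle : ∀ k ≤ ntp N₀ M T, y₀ + k * t ≤ b + M * (T - 1 : ℕ) * t := by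
    intro k hk
    rw [← hyM]
    have h1 : (k : ℝ) ≤ (ntp N₀ M T : ℕ) := by exact_mod_cast hk
    have := mul_le_mul_of_nonneg_right h1 ht.le
    linarith
  have hy1 : b + M * (T - 1 : ℕ) * t ≤ 1 := by
    have h1 : (M : ℝ) * (T - 1 : ℕ) * t ≤ M * ζ := by
      rw [hζ, hT, mul_assoc]
      refine mul_le_mul_of_nonneg_left ?_ (Nat.cast_nonneg M)
      linarith
    linarith
  have ymono : ∀ k k' : ℕ, k' ≤ k → y₀ + k' * t ≤ y₀ + k * t := by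
    intro k k' hk
    have h1 : (k' : ℝ) ≤ k := by exact_mod_cast hk
    have := mul_le_mul_of_nonneg_right h1 ht.le
    linarith
  have hmin : ∀ x y : ℝ, ⌊min x y * J⌋₊ = min ⌊x * J⌋₊ ⌊y * J⌋₊ := by
    intro x y
    rcases le_total x y with h | h
    · rw [min_eq_left h, min_eq_left (fmo x y h)]
    · rw [min_eq_right h, min_eq_right (fmo y x h)]
  have Bpos : ∀ k ≤ ntp N₀ M T, ∀ l < n, 0 ≤ B l k - d l := fun k hk l hl => by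
    linarith [(low k hk l hl).1]
  have lawN : ∀ k ≤ ntp N₀ M T, ∀ k' ≤ k, ∀ l < n, ⌊(B l k' - d l) * J⌋₊ + ⌊(y₀ + k * t) * J⌋₊ ≤
      ⌊(B l k - d l) * J⌋₊ + ⌊(y₀ + k' * t) * J⌋₊ + ⌊uR * J⌋₊ := by
    intro k hk k' hk' l hl
    have h1 := law k hk k' hk' l hl
    have h2 := fle _ (Bpos k' (hk'.trans hk) l hl)
    have h3 := fle _ (ypos k)
    have h4 := flt (B l k - d l)
    have h5 := flt (y₀ + k' * t)
    have h6 := flt uR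
    have h7 : (B l k' - d l) * J + (y₀ + k * t) * J ≤ (B l k - d l) * J + (y₀ + k' * t) * J := by
      have := mul_le_mul_of_nonneg_right h1 hJ0
      linarith
    have h8 : 2 * (ω * J) ≤ uR * J := by
      have := mul_le_mul_of_nonneg_right hu hJ0
      linarith
    have h9 : (⌊(B l k' - d l) * J⌋₊ : ℝ) + ⌊(y₀ + k * t) * J⌋₊ ≤
        ⌊(B l k - d l) * J⌋₊ + ⌊(y₀ + k' * t) * J⌋₊ + ⌊uR * J⌋₊ := by linarith
    exact_mod_cast h9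
  have Bmono : ∀ k ≤ ntp N₀ M T, ∀ k' ≤ k, ∀ l < n,
      ⌊(B l k' - d l) * J⌋₊ ≤ ⌊(B l k - d l) * J⌋₊ := by
    intro k hk k' hk' l hl
    refine fmo _ _ ?_
    have h1 := law k hk k' hk' l hl
    have h2 : (k' : ℝ) ≤ k := by exact_mod_cast hk'
    have h3 : 0 ≤ ((k : ℝ) - k') * t := mul_nonneg (by linarith) ht.le
    linarith
  have law0N : ∀ k ≤ ntp N₀ M T, ∀ l < n, ⌊(y₀ + k * t) * J⌋₊ ≤
      ⌊(B l k - d l) * J⌋₊ + ⌊(y₀ + (0 : ℕ) * t) * J⌋₊ + ⌊uR * J⌋₊ := by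
    intro k hk l hl
    have h1 := (low k hk l hl).2
    have h2 := fle _ (ypos k)
    have h4 := flt (B l k - d l)
    have h5 := flt (y₀ + (0 : ℕ) * t)
    have h6 := flt uR
    have h7 := (dl l hl).2
    have h8 : (φ + ω) * J ≤ uR * J := mul_le_mul_of_nonneg_right hφ hJ0
    have h9 : k * t * J ≤ B l k * J := mul_le_mul_of_nonneg_right h1 hJ0
    have h10 : d l * J ≤ φ * J := mul_le_mul_of_nonneg_right h7 hJ0
    rw [Nat.cast_zero, zero_mul, add_zero] at h5 ⊢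
    have h11 : (⌊(y₀ + k * t) * J⌋₊ : ℝ) ≤ ⌊(B l k - d l) * J⌋₊ + ⌊y₀ * J⌋₊ + ⌊uR * J⌋₊ := by
      linarith
    exact_mod_cast h11
  have slpN : ∀ v ≤ M, ∀ k ≤ jkk N₀ T v, ∀ l < n,
      ⌊(B l (jkk N₀ T v) - d l) * J⌋₊ + S * ⌊(y₀ + k * t) * J⌋₊ ≤
        ⌊(B l k - d l) * J⌋₊ + S * ⌊(y₀ + (jkk N₀ T v : ℕ) * t) * J⌋₊ + ⌊uR * J⌋₊ := by
    intro v hv k hk l hl
    have hj := jkk_le (N₀ := N₀) (T := T) hv
    have h1 := slope v hv k hk l hl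
    have h2 := fle _ (Bpos _ hj l hl)
    have h3 := mul_le_mul_of_nonneg_left (fle _ (ypos k)) (zero_le_one.trans hS0)
    have h4 := flt (B l k - d l)
    have h5 := mul_le_mul_of_nonneg_left (flt (y₀ + (jkk N₀ T v : ℕ) * t)).le
      (zero_le_one.trans hS0)
    have h6 := flt uR
    have h7 := mul_le_mul_of_nonneg_right h1 hJ0
    have h8 : 2 * (ω * J) ≤ uR * J := by
      have := mul_le_mul_of_nonneg_right hu hJ0
      linarith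
    have h9 : (⌊(B l (jkk N₀ T v) - d l) * J⌋₊ : ℝ) + S * ⌊(y₀ + k * t) * J⌋₊ ≤
        ⌊(B l k - d l) * J⌋₊ + S * ⌊(y₀ + (jkk N₀ T v : ℕ) * t) * J⌋₊ + ⌊uR * J⌋₊ := by
      linarith
    exact_mod_cast h9
  have slp0 : ∀ v ≤ M, ∀ l < n,
      ⌊(B l (jkk N₀ T v) - d l) * J⌋₊ + S * ⌊(y₀ + (0 : ℕ) * t) * J⌋₊ ≤
        S * ⌊(y₀ + (jkk N₀ T v : ℕ) * t) * J⌋₊ + ⌊uR * J⌋₊ := by
    intro v hv l hl
    have hj := jkk_le (N₀ := N₀) (T := T) hv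
    have h1 := up v hv l hl
    have h2 := fle _ (Bpos _ hj l hl)
    have h3 := mul_le_mul_of_nonneg_left (fle _ (ypos 0)) (zero_le_one.trans hS0)
    have h5 := mul_le_mul_of_nonneg_left (flt (y₀ + (jkk N₀ T v : ℕ) * t)).le
      (zero_le_one.trans hS0)
    have h6 := flt uR
    have h7 := mul_le_mul_of_nonneg_right h1 hJ0
    have h10 := mul_nonneg (dl l hl).1 hJ0
    have h8 : 2 * (ω * J) ≤ uR * J := by
      have := mul_le_mul_of_nonneg_right hu hJ0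
      linarith
    have h9 : (⌊(B l (jkk N₀ T v) - d l) * J⌋₊ : ℝ) + S * ⌊(y₀ + (0 : ℕ) * t) * J⌋₊ ≤
        S * ⌊(y₀ + (jkk N₀ T v : ℕ) * t) * J⌋₊ + ⌊uR * J⌋₊ := by
      push_cast at h3 ⊢
      linarith
    exact_mod_cast h9
  have slpA : ∀ v ≤ M, Slp n S (shl ⌊(y₀ + (0 : ℕ) * t) * J⌋₊ fun k => ⌊(y₀ + k * t) * J⌋₊)
      (jg fun k l => ⌊(B l k - d l) * J⌋₊) ⌊uR * J⌋₊ (jkk N₀ T v + 1) := by
    rintro v hv (_ | k) hk l h1 h2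
    · show ⌊(B (l - 1) (jkk N₀ T v) - d (l - 1)) * J⌋₊ + S * ⌊(y₀ + (0 : ℕ) * t) * J⌋₊ ≤
        0 + S * ⌊(y₀ + (jkk N₀ T v : ℕ) * t) * J⌋₊ + ⌊uR * J⌋₊
      rw [Nat.zero_add]
      exact slp0 v hv (l - 1) (by omega)
    · exact slpN v hv k (by omega) (l - 1) (by omega)
  have slpB : ∀ v ≤ M, Slp n (2 * S) (shl ⌊(y₀ + (0 : ℕ) * t) * J⌋₊ fun k => ⌊(y₀ + k * t) * J⌋₊)
      (jg fun k l => ⌊(B l k - d l) * J⌋₊) ⌊uR * J⌋₊ (jkk N₀ T v + 1) := by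
    intro v hv k hk l h1 h2
    have h3 := slpA v hv k hk l h1 h2
    have h4 : shl ⌊(y₀ + (0 : ℕ) * t) * J⌋₊ (fun k => ⌊(y₀ + k * t) * J⌋₊) k ≤
        shl ⌊(y₀ + (0 : ℕ) * t) * J⌋₊ (fun k => ⌊(y₀ + k * t) * J⌋₊) (jkk N₀ T v + 1) := by
      rcases k with _ | k
      · exact fmo _ _ (ymono _ _ (Nat.zero_le _))
      · exact fmo _ _ (ymono _ _ (by omega))
    have h5 := Nat.mul_le_mul_left S h4
    have h6 : ∀ x : ℕ, 2 * S * x = S * x + S * x := fun x => by ring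
    rw [h6, h6]
    omega
  have omal : ∀ k : ℕ, ⌊min (y₀ + k * t) D * J⌋₊ = min ⌊(y₀ + k * t) * J⌋₊ ⌊D * J⌋₊ :=
    fun k => hmin _ _
  have om0 : ⌊min (y₀ + (0 : ℕ) * t) D * J⌋₊ = ⌊(y₀ + (0 : ℕ) * t) * J⌋₊ := by
    rw [min_eq_left]
    rw [Nat.cast_zero, zero_mul, add_zero]
    exact hD0
  have meshN : ∀ k : ℕ, ⌊(y₀ + k * t) * J⌋₊ ≤ ⌊(y₀ + (k + 1 : ℕ) * t) * J⌋₊ ∧
      ⌊(y₀ + (k + 1 : ℕ) * t) * J⌋₊ ≤ ⌊(y₀ + k * t) * J⌋₊ + (⌊t * J⌋₊ + 1) := by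
    intro k
    refine ⟨fmo _ _ (ymono _ _ (Nat.le_succ k)), Pool.CHT.fl_add ?_⟩
    push_cast
    linarith
  have hwN : ⌊min (y₀ + (ntp N₀ M T : ℕ) * t) D * J⌋₊ = ⌊D * J⌋₊ := by
    rw [min_eq_right]
    rw [hyM]
    linarith
  have halN : ⌊b * J⌋₊ ≤ ⌊(y₀ + (ntp N₀ M T : ℕ) * t) * J⌋₊ := fmo _ _ (by rw [hyM]; linarith)
  have twoN : ⌊(y₀ + (ntp N₀ M T : ℕ) * t) * J⌋₊ + ⌊D * J⌋₊ ≤ 2 * ⌊b * J⌋₊ := by
    have h1 := fle _ (ypos (ntp N₀ M T))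
    have h2 := fle D hD00
    have h3 := flt b
    rw [hyM] at h1
    have h4 := mul_le_mul_of_nonneg_right two hJ0
    have h5 : (⌊(y₀ + (ntp N₀ M T : ℕ) * t) * J⌋₊ : ℝ) + ⌊D * J⌋₊ ≤ 2 * ⌊b * J⌋₊ := by
      rw [hyM]
      linarith
    exact_mod_cast h5
  refine
    { path := ?_
      hu := ?_
      hjk := fun v hv => ⟨jkk_le hv, ?_, slpB v hv⟩
      hjM := rfl
      hMJ := ?_
      hz := ?_
      tms := ?_
      hom := ?_
      hw₀ := halN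
      hg := ?_
      hJ1 := ?_
      hs := ?_
      hgf := ?_
      hexp := ?_
      near := ?_
      tim := ?_ }
  · exact
      { alJ := fun k hk => Pool.LBT.fl_le' ((hyle k (by omega)).trans hy1) J
        a0J := Pool.LBT.fl_le' ((hyle 0 (Nat.zero_le _)).trans hy1) J
        w0 := om0.le
        oa := fun k _ => fmo _ _ (min_le_left _ _)
        om1 := fun k _ => fmo _ _ (min_le_min (ymono _ _ (Nat.le_succ k)) le_rfl)
        ini := fun _ => ⟨le_rfl, le_rfl, Nat.le_add_right _ _⟩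
        mesh := fun k _ => meshN k
        law := fun k hk k' hk' l hl => ⟨lawN k (by omega) k' hk' l hl,
          Bmono k (by omega) k' hk' l hl⟩
        law0 := fun k hk l hl => law0N k (by omega) l hl }
  · have h1 := fle φ φ0
    have h2 := flt uR
    have h3 := mul_le_mul_of_nonneg_right hφ hJ0
    have h4 : (⌊φ * J⌋₊ : ℝ) + CC ≤ ⌊uR * J⌋₊ := by linarith
    exact_mod_cast h4
  · rcases Nat.eq_zero_or_pos v with rfl | hv0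
    · show ⌊(y₀ + (jkk N₀ T 0 : ℕ) * t) * J⌋₊ ≤ ⌊b * J⌋₊ + 0 * ⌊ζ * J⌋₊
      rw [hyN 0, Nat.cast_zero, zero_mul, zero_mul, add_zero, Nat.zero_mul, Nat.add_zero]
    · have h1 := fle _ (ypos (jkk N₀ T v))
      have h2 := flt b
      have h3 := mul_le_mul_of_nonneg_left (flt ζ).le (Nat.cast_nonneg (α := ℝ) v)
      have hv1 : (1 : ℝ) ≤ v := by exact_mod_cast hv0
      have h4 : (⌊(y₀ + (jkk N₀ T v : ℕ) * t) * J⌋₊ : ℝ) ≤ ⌊b * J⌋₊ + v * ⌊ζ * J⌋₊ := by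
        rw [hyN v, hT] at h1
        rw [hyN v, hT]
        rw [hζ] at h3 ⊢
        have h5 : (v : ℝ) * 2 ≤ v * (t * J) :=
          mul_le_mul_of_nonneg_left (by linarith) (Nat.cast_nonneg v)
        linarith
      exact_mod_cast h4
  · have h1 := fle b hb0
    have h2 := mul_le_mul_of_nonneg_left (fle ζ hζ0) (Nat.cast_nonneg (α := ℝ) M)
    have h3 := mul_le_mul_of_nonneg_right top hJ0
    have h4 : (⌊b * J⌋₊ : ℝ) + M * ⌊ζ * J⌋₊ ≤ J := by linarith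
    exact_mod_cast h4
  · refine Nat.le_floor ?_
    rw [Nat.cast_one, hζ]
    have h1 : (1 : ℝ) ≤ T := by exact_mod_cast T1
    have h2 : 1 * (t * J) ≤ T * (t * J) := mul_le_mul_of_nonneg_right h1 (by positivity)
    linarith
  · refine ⟨_, tms_min (n := n) (S := S) (m := ntp N₀ M T + 1)
      (a := shl ⌊(y₀ + (0 : ℕ) * t) * J⌋₊ fun k => ⌊(y₀ + k * t) * J⌋₊) ?_ ?_ ?_ ?_ ?_ ?_ ?_⟩
    · rintro (_ | k) hk
      · exact ⟨le_rfl, Nat.le_add_right _ _⟩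
      · exact meshN k
    · rintro (_ | k) hk (_ | k') hk' l h1 h2
      · exact Nat.le_add_right _ _
      · omega
      · show 0 + ⌊(y₀ + k * t) * J⌋₊ ≤ ⌊(B (l - 1) k - d (l - 1)) * J⌋₊ +
          ⌊(y₀ + (0 : ℕ) * t) * J⌋₊ + ⌊uR * J⌋₊
        rw [Nat.zero_add]
        exact law0N k (by omega) (l - 1) (by omega)
      · exact lawN k (by omega) k' (by omega) (l - 1) (by omega)
    · intro k hk l h1 h2
      exact slpA M le_rfl k hk l h1 h2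
    · rintro (_ | k) hk (_ | k') hk'
      · exact le_rfl
      · omega
      · exact fmo _ _ (ymono _ _ (Nat.zero_le _))
      · exact fmo _ _ (ymono _ _ (by omega))
    · intro k hk k' hk'
      unfold wtop
      rcases Nat.lt_or_ge k (ntp N₀ M T + 1) with h1 | h1
      · rw [if_neg (by omega), if_neg (by omega)]
        rcases k with _ | k
        · obtain rfl : k' = 0 := by omega
          exact le_rfl
        · rcases k' with _ | k'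
          · exact fmo _ _ (min_le_min (ymono _ _ (Nat.zero_le _)) le_rfl)
          · exact fmo _ _ (min_le_min (ymono _ _ (by omega)) le_rfl)
      · rw [if_pos (by omega : k = ntp N₀ M T + 1)]
        split_ifs
        · exact le_rfl
        · rcases k' with _ | k'
          · exact fmo _ _ ((min_le_right _ _).trans hbD)
          · exact fmo _ _ ((min_le_right _ _).trans hbD)
    · intro k hk k' hk'
      unfold wtop
      rw [if_neg (by omega), if_neg (by omega)]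
      rcases k with _ | k
      · obtain rfl : k' = 0 := by omega
        exact le_rfl
      · rcases k' with _ | k'
        · show ⌊min (y₀ + k * t) D * J⌋₊ + ⌊(y₀ + (0 : ℕ) * t) * J⌋₊ ≤
            ⌊min (y₀ + (0 : ℕ) * t) D * J⌋₊ + ⌊(y₀ + k * t) * J⌋₊
          rw [om0, omal]
          omega
        · show ⌊min (y₀ + k * t) D * J⌋₊ + ⌊(y₀ + k' * t) * J⌋₊ ≤
            ⌊min (y₀ + k' * t) D * J⌋₊ + ⌊(y₀ + k * t) * J⌋₊
          rw [omal, omal]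
          have h3 := fmo _ _ (ymono k k' (by omega))
          omega
    · intro k hk
      have h6 : wtop (ntp N₀ M T + 1) ⌊b * J⌋₊
          (shl ⌊min (y₀ + (0 : ℕ) * t) D * J⌋₊ fun k => ⌊min (y₀ + k * t) D * J⌋₊)
          (ntp N₀ M T + 1) = ⌊b * J⌋₊ := if_pos rfl
      rw [h6]
      rcases Nat.lt_or_ge k (ntp N₀ M T + 1) with h1 | h1
      · unfold wtop
        rw [if_neg (by omega)]
        rcases k with _ | k
        · show ⌊(y₀ + (ntp N₀ M T : ℕ) * t) * J⌋₊ + 2 * ⌊min (y₀ + (0 : ℕ) * t) D * J⌋₊ ≤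
            ⌊(y₀ + (0 : ℕ) * t) * J⌋₊ + 2 * ⌊b * J⌋₊
          rw [omal]
          omega
        · show ⌊(y₀ + (ntp N₀ M T : ℕ) * t) * J⌋₊ + 2 * ⌊min (y₀ + k * t) D * J⌋₊ ≤
            ⌊(y₀ + k * t) * J⌋₊ + 2 * ⌊b * J⌋₊
          rw [omal]
          omega
      · obtain rfl : k = ntp N₀ M T + 1 := by omega
        rw [h6]
  · show ⌊min (y₀ + (ntp N₀ M T : ℕ) * t) D * J⌋₊ ≤ ⌊b * J⌋₊
    rw [hwN]
    exact fmo _ _ hbD
  · intro k hk l hl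
    refine Nat.le_floor ?_
    have h1 := mul_le_mul_of_nonneg_right (low k hk l hl).1 hJ0
    linarith
  · show (CC : ℝ) * (e₀ + 1) ≤ ((J - ⌊min (y₀ + (ntp N₀ M T : ℕ) * t) D * J⌋₊ : ℕ) : ℝ)
    rw [hwN]
    have h1 := fle D hD00
    have h2 : ⌊D * J⌋₊ ≤ J := Pool.LBT.fl_le' (hbD.trans hb1) J
    rw [Nat.cast_sub h2]
    have h3 := mul_le_mul_of_nonneg_right hDb hJ0
    have h4 := mul_le_mul_of_nonneg_right hb1 hJ0
    linarith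
  · have h1 := fle t ht.le
    have h2 := fle uR huR0
    have h3 := flt sR
    have h4 := mul_le_mul_of_nonneg_right hs hJ0
    have h5 := mul_le_mul_of_nonneg_left h1 hc0
    have h6 := mul_le_mul_of_nonneg_left h2 hc0
    push_cast
    linarith
  · intro v hv i h1 hi
    obtain ⟨h2, h3, h4⟩ := tgt v hv i h1 hi
    refine ⟨?_, Pool.CHT.fl_add ?_⟩
    · show ⌊Tg i v * J⌋₊ + c * (⌊sR * J⌋₊ + 1) ≤ ⌊(B (i - 1) (jkk N₀ T v) - d (i - 1)) * J⌋₊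
      have h5 := fle _ h2
      have h6 := mul_le_mul_of_nonneg_left (fle sR hsR0) hc0
      have h7 := flt (B (i - 1) (jkk N₀ T v) - d (i - 1))
      have h8 := mul_le_mul_of_nonneg_right h3 hJ0
      have h9 := mul_le_mul_of_nonneg_right hϑ hJ0
      have h10 : (⌊Tg i v * J⌋₊ : ℝ) + c * (⌊sR * J⌋₊ + 1) ≤
          ⌊(B (i - 1) (jkk N₀ T v) - d (i - 1)) * J⌋₊ := by linarith
      exact_mod_cast h10
    · have h5 := mul_le_mul_of_nonneg_right h4 hJ0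
      show (B (i - 1) (jkk N₀ T v) - d (i - 1)) * J ≤ Tg i v * J + ξ * J
      linarith
  · rw [one_mul, ← exp_nlog]
    refine Real.exp_le_exp.2 ?_
    have h1 := fle sR hsR0
    have h2 := fle ξ ξ0
    have h3 := flt ζ
    have h4 := mul_le_mul_of_nonneg_right hz hJ0
    have hl : Real.log 2 ≤ 1 := by
      have := Real.log_two_lt_d9
      linarith
    have hl0 : 0 < Real.log 2 := Real.log_pos (by norm_num)
    have h5 : ((c * (⌊sR * J⌋₊ + (⌊ξ * J⌋₊ + 1) + 1) : ℕ) : ℝ) * Real.log 2 ≤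
        ((c * (⌊sR * J⌋₊ + (⌊ξ * J⌋₊ + 1) + 1) : ℕ) : ℝ) * 1 :=
      mul_le_mul_of_nonneg_left hl (Nat.cast_nonneg _)
    refine h5.trans ?_
    rw [mul_one]
    push_cast
    have h6 := mul_le_mul_of_nonneg_left h1 hc0
    have h7 := mul_le_mul_of_nonneg_left h2 hc0
    linarith
  · intro v hv i hi
    have h0 : ⌊(B i (jkk N₀ T v) - d i) * J⌋₊ +
        nlp (fun l => ⌊(B l (jkk N₀ T v) - d l) * J⌋₊) 0 i ≤ ⌊Bm * J⌋₊ :=
      nlp_add_le (g := fun l => ⌊(B l (jkk N₀ T v) - d l) * J⌋₊) fun j hj =>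
        fmo _ _ (bm v hv j (by omega))
    have hBm : 0 ≤ Bm := (Bpos _ (jkk_le hv) i hi).trans (bm v hv i hi)
    have h1 := fle Bm hBm
    have h2 := mul_le_mul_of_nonneg_left (fle ζ hζ0) (show (0 : ℝ) ≤ U + 1 by positivity)
    have h3 := mul_le_mul_of_nonneg_left (fle sR hsR0) hc0
    have h4 := fle E E0
    have h5 := mul_le_mul_of_nonneg_right near hJ0
    have h6 : (⌊Bm * J⌋₊ : ℝ) + (U + 1) * ⌊ζ * J⌋₊ + c * (⌊sR * J⌋₊ + 1) + ⌊E * J⌋₊ + CC ≤ J := by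
      linarith
    have h7 : ⌊Bm * J⌋₊ + (U + 1) * ⌊ζ * J⌋₊ + c * (⌊sR * J⌋₊ + 1) + ⌊E * J⌋₊ + CC ≤ J := by
      exact_mod_cast h6
    show ⌊(B i (jkk N₀ T v) - d i) * J⌋₊ + (U + 1) * ⌊ζ * J⌋₊ + c * (⌊sR * J⌋₊ + 1) +
      (⌊E * J⌋₊ + nlp (fun l => ⌊(B l (jkk N₀ T v) - d l) * J⌋₊) 0 i) + CC ≤ J
    omega
  · intro v hv
    have h1 := fle b hb0
    have h2 := mul_le_mul_of_nonneg_left (fle ζ hζ0) (Nat.cast_nonneg (α := ℝ) v)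
    have h3 := flt (y₀ + (jkk N₀ T v : ℕ) * t)
    have h4 := flt sR
    have h5 := mul_le_mul_of_nonneg_right hs' hJ0
    have hv1 : (v : ℝ) ≤ M := by exact_mod_cast hv
    have h6 : (v : ℝ) * (t * J) ≤ M * (t * J) := mul_le_mul_of_nonneg_right hv1 (by positivity)
    have h7 : (⌊b * J⌋₊ : ℝ) + v * ⌊ζ * J⌋₊ + 2 ≤ ⌊(y₀ + (jkk N₀ T v : ℕ) * t) * J⌋₊ +
        ⌊sR * J⌋₊ := by
      rw [hyN v, hT] at h3
      rw [hyN v, hT]
      rw [hζ] at h2 ⊢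
      linarith
    exact_mod_cast h7

end Pool.TRC
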