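import Pool.Agent.H33.TRC.LabN

/-!
# The real numbers of the path in a static cell
-/

set_option autoImplicit false

namespace Pool.TRC

open Finset
open Pool.LEV (Law)

/-- **The facts at the point `a`**: laws, lower bounds, the margin `c₀` for gradients `E`. -/
structure NrA (L : ℕ → ℝ → ℝ → ℝ) (n : ℕ) (a ρ E c₀ : ℝ) : Prop where
  a0 : 0 < a
  a1 : a < 1
  ρ0 : 0 < ρ
  E0 : 0 ≤ E
  c0 : 0 < c₀
  law : ∀ i, 1 ≤ i → i ≤ n + 1 → Law (L i)
  low : ∀ i, 1 ≤ i → i ≤ n + 1 → ∀ y w, 0 ≤ w → w ≤ y → y ≤ 1 → y ≤ L i y w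
  mar : ∀ i, 1 ≤ i → i ≤ n + 1 → ∀ y w, 0 < w → w ≤ y → |y - a| ≤ ρ → |w - a| ≤ ρ →
    L i y w + E + c₀ ≤ 1

/-- The index of the path at the start. -/
noncomputable def nst (ρ₁ t : ℝ) : ℕ := ⌊ρ₁ / t⌋₊

theorem nst_le {ρ₁ t : ℝ} (hρ : 0 ≤ ρ₁) (ht : 0 < t) : nst ρ₁ t * t ≤ ρ₁ := by
  have h1 : (nst ρ₁ t : ℝ) ≤ ρ₁ / t := Nat.floor_le (div_nonneg hρ ht.le)
  calc (nst ρ₁ t : ℝ) * t ≤ ρ₁ / t * t := mul_le_mul_of_nonneg_right h1 ht.le
    _ = ρ₁ := div_mul_cancel₀ _ ht.ne'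

theorem lt_nst {ρ₁ t : ℝ} (ht : 0 < t) : ρ₁ - t ≤ nst ρ₁ t * t := by
  have h1 : ρ₁ / t < nst ρ₁ t + 1 := Nat.lt_floor_add_one _
  have h2 := mul_le_mul_of_nonneg_right h1.le ht.le
  rw [div_mul_cancel₀ _ ht.ne'] at h2
  linarith

/-- **The real numbers of the path in a static cell.** -/
theorem numR_of {L : ℕ → ℝ → ℝ → ℝ} {n : ℕ} {a ρ E c₀ : ℝ} (hA : NrA L n a ρ E c₀) {σ : ℕ → ℝ}
    {s S M U c T : ℕ} {k₀ γ ρ₁ q κ η t r b : ℝ} {d : ℕ → ℝ} (CC : ℕ) (hsS : s ≤ S)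
    (hσ : ∀ i, 1 ≤ i → i ≤ n + 1 → |σ i| ≤ S) (hρ₁ : 0 < ρ₁) (hρa : 4 * ρ₁ ≤ a)
    (hρρ : 2 * ρ₁ ≤ ρ) (hS : 2 ≤ S * ρ₁) (hγ : 0 < γ) (hγk : γ ≤ k₀)
    (hq : q = γ / (M + 2)) (hκ0 : 0 < κ) (hκ : κ ≤ q / (8 * (c + 1)))
    (hη : η = κ / (16 * (c + 1) ^ 2)) (hT : 1 ≤ T) (ht : T * t = q * r)
    (htη : (S + 1) * (M + 1) * t ≤ η / 4 * r) (hr : 0 < r) (hba : |b - a| ≤ 2 * r)
    (hhi : b + γ * r ≤ 1)
    (hst : ∀ i, 1 ≤ i → i ≤ n + 1 → ∀ a' w', b - k₀ * r ≤ w' → w' ≤ a' → a' ≤ b + γ * r →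
      |L i a' w' - L i b b - σ i * (a' - b)| ≤ η / 8 * r)
    (hsl : ∀ i, 1 ≤ i → i ≤ n + 1 → ∀ v, 0 ≤ v → v ≤ b →
      L i b b - L i (b - v) (b - v) ≤ s * v + η / 8 * r)
    (R1 : 8 * r ≤ a) (R2 : γ * r ≤ ρ₁ / 2) (R2' : (2 + γ) * r ≤ ρ / 2)
    (R4 : (η + γ) * r ≤ a / 4) (R5 : (S * M * q + κ) * r ≤ a / 4)
    (R6 : ((U + 1) * q + κ + γ) * r ≤ c₀) (hd : ∀ l < n + 1, 0 ≤ d l ∧ d l ≤ η / 8 * r) :
    NumR (n + 1) S M T (nst ρ₁ t) U c CC (b - nst ρ₁ t * t) t (b - γ * r) b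
      (fun l k => L (l + 1) (b - nst ρ₁ t * t + k * t)
        (min (b - nst ρ₁ t * t + k * t) (b - γ * r)))
      (fun i v => L i b b + σ i * (v * (q * r)) - κ * r) d (q * r) (η * r)
      (κ * r / (4 * (c + 1))) (κ * r / 2) (2 * κ * r) (η / 8 * r) E (1 - E - c₀) t := by
  have hc0 : (0 : ℝ) ≤ c := Nat.cast_nonneg c
  have hM0 : (0 : ℝ) ≤ M := Nat.cast_nonneg M
  have hS0 : (0 : ℝ) ≤ S := Nat.cast_nonneg S
  have hU0 : (0 : ℝ) ≤ U := Nat.cast_nonneg U
  have hT1 : (1 : ℝ) ≤ T := by exact_mod_cast hT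
  have hq0 : 0 < q := by rw [hq]; positivity
  have hη0 : 0 < η := by rw [hη]; positivity
  have hqr : 0 < q * r := mul_pos hq0 hr
  have ht0 : 0 < t := by
    by_contra h
    have := mul_nonpos_of_nonneg_of_nonpos (zero_le_one.trans hT1) (not_lt.1 h)
    linarith
  have hηκ : 16 * (c + 1) * (η * (c + 1)) = κ := by
    rw [hη]
    field_simp
  have hqγ : (M + 2) * q = γ := by
    rw [hq]
    field_simp
  have hqle : q ≤ γ := by
    have : 0 ≤ (M + 1) * q := by positivity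
    linarith
  have hκq : 8 * (c + 1) * κ ≤ q := by
    rw [le_div_iff₀ (by positivity)] at hκ
    linarith
  have hκq' : 8 * κ ≤ q := by
    have : 0 ≤ c * κ := by positivity
    linarith
  have hηκ1 : 16 * η ≤ κ := by
    have h1 : 0 ≤ η * (c * c) := by positivity
    have h2 : 0 ≤ η * c := by positivity
    linarith
  have hηκ2 : 16 * (η * (c + 1)) ≤ κ := by
    have h1 : 0 ≤ η * (c * c) := by positivity
    have h2 : 0 ≤ η * c := by positivity
    linarith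
  -- sizes of the step
  have e1 : t ≤ η / 4 * r := by
    have h1 : 0 ≤ (S * M + S + M) * t := by positivity
    linarith
  have e2 : M * t ≤ η / 4 * r := by
    have h1 : 0 ≤ (S * M + S + 1) * t := by positivity
    linarith
  have e3 : S * (M * t) ≤ η / 4 * r := by
    have h1 : 0 ≤ (S + M + 1) * t := by positivity
    linarith
  have hηr : 0 < η * r := mul_pos hη0 hr
  have hκr : 0 < κ * r := mul_pos hκ0 hr
  have hγr : 0 < γ * r := mul_pos hγ hr
  have f1 : 16 * (η * r) ≤ κ * r := by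
    have := mul_le_mul_of_nonneg_right hηκ1 hr.le
    linarith
  have f2 : 8 * (κ * r) ≤ q * r := by
    have := mul_le_mul_of_nonneg_right hκq' hr.le
    linarith
  have f3 : q * r ≤ γ * r := mul_le_mul_of_nonneg_right hqle hr.le
  have f4 : (M + 2) * (q * r) = γ * r := by rw [← mul_assoc, hqγ]
  have f5 : (M : ℝ) * (q * r) ≤ γ * r := by linarith
  -- the start
  obtain ⟨N₀, hN₀⟩ : ∃ N₀, N₀ = nst ρ₁ t := ⟨_, rfl⟩
  have g1 : (N₀ : ℝ) * t ≤ ρ₁ := by rw [hN₀]; exact nst_le hρ₁.le ht0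
  have g2 : ρ₁ - t ≤ (N₀ : ℝ) * t := by rw [hN₀]; exact lt_nst ht0
  have g3 : t ≤ ρ₁ / 2 := by linarith
  have g4 : ρ₁ / 2 ≤ (N₀ : ℝ) * t := by linarith
  rw [← hN₀]
  obtain ⟨y₀, hy₀⟩ : ∃ y₀, y₀ = b - N₀ * t := ⟨_, rfl⟩
  obtain ⟨D, hD⟩ : ∃ D, D = b - γ * r := ⟨_, rfl⟩
  rw [← hy₀, ← hD]
  rw [abs_le] at hba
  have hy0 : a / 2 ≤ y₀ := by rw [hy₀]; linarith
  have hya : 0 < y₀ := by linarith [hA.a0]
  have hyD : y₀ ≤ D := by rw [hy₀, hD]; linarith
  have hyT : ((T - 1 : ℕ) : ℝ) = T - 1 := by rw [Nat.cast_sub hT, Nat.cast_one]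
  have hyj : ∀ v : ℕ, y₀ + (jkk N₀ T v : ℕ) * t = b + v * (q * r) - v * t := by
    intro v
    unfold jkk
    push_cast
    rw [hyT, ← ht, hy₀]
    ring
  have hytop : ∀ k ≤ ntp N₀ M T, y₀ + k * t ≤ b + γ * r := by
    intro k hk
    have h1 : (k : ℝ) ≤ (ntp N₀ M T : ℕ) := by exact_mod_cast hk
    have h2 := mul_le_mul_of_nonneg_right h1 ht0.le
    have h3 : y₀ + (ntp N₀ M T : ℕ) * t = b + M * (q * r) - M * t := hyj M
    have h4 : 0 ≤ (M : ℝ) * t := by positivity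
    linarith
  have hkt : ∀ k : ℕ, 0 ≤ (k : ℝ) * t := fun k => by positivity
  obtain ⟨w, hw⟩ : ∃ w : ℕ → ℝ, w = fun k : ℕ => min (y₀ + k * t) D := ⟨_, rfl⟩
  obtain ⟨y, hy⟩ : ∃ y : ℕ → ℝ, y = fun k : ℕ => y₀ + k * t := ⟨_, rfl⟩
  have hyk : ∀ k, y k = y₀ + k * t := fun k => by rw [hy]
  have hwk : ∀ k, w k = min (y k) D := fun k => by rw [hw, hy]
  have hwy : ∀ k, w k ≤ y k := fun k => by rw [hwk]; exact min_le_left _ _
  have hwD : ∀ k, w k ≤ D := fun k => by rw [hwk]; exact min_le_right _ _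
  have hw0 : ∀ k, y₀ ≤ w k := fun k => by
    rw [hwk, hyk]
    exact le_min (by linarith [hkt k]) hyD
  have hy1 : ∀ k ≤ ntp N₀ M T, y k ≤ 1 := fun k hk => by
    rw [hyk]; exact (hytop k hk).trans hhi
  have hmar : ∀ k ≤ ntp N₀ M T, ∀ l < n + 1, ∀ w', y₀ ≤ w' → w' ≤ w k →
      L (l + 1) (y k) w' + E + c₀ ≤ 1 := by
    intro k hk l hl w' h1 h2
    have h3 := hwy k
    have h4 := hwD k
    have h5 := hytop k hk
    have h6 := hkt k
    refine hA.mar (l + 1) (by omega) (by omega) _ _ (by linarith) (h2.trans h3) ?_ ?_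
    · rw [hyk, abs_le]
      constructor <;> linarith
    · rw [abs_le]
      constructor <;> linarith
  have hlaw : ∀ k ≤ ntp N₀ M T, ∀ k' ≤ k, ∀ l < n + 1,
      L (l + 1) (y k') (w k') + ((k : ℝ) - k') * t ≤ L (l + 1) (y k) (w k) := by
    intro k hk k' hk' l hl
    have h1 : (k' : ℝ) ≤ k := by exact_mod_cast hk'
    have h2 : 0 ≤ ((k : ℝ) - k') * t := mul_nonneg (by linarith) ht0.le
    have h3 : y k' + ((k : ℝ) - k') * t = y k := by rw [hyk, hyk]; ring
    have hww : w k' ≤ w k := by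
      rw [hwk, hwk]
      exact min_le_min (by linarith) le_rfl
    have h4 := (hA.law (l + 1) (by omega) (by omega)).slope (y k') (w k') (((k : ℝ) - k') * t)
      (hya.le.trans (hw0 k')) (hwy k') h2 (by rw [h3]; exact hy1 k hk)
    rw [h3] at h4
    have h5 := hmar k hk l hl (w k') (hw0 k') hww
    have h6 := (hA.law (l + 1) (by omega) (by omega)).mono_w (y k) (w k') (w k)
      (hya.le.trans (hw0 k')) hww (hwy k) (hy1 k hk)
    rcases min_le_iff.1 h4 with h7 | h7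
    · linarith [hA.E0, hA.c0]
    · linarith
  have hBlow : ∀ k ≤ ntp N₀ M T, ∀ l < n + 1, y k ≤ L (l + 1) (y k) (w k) := fun k hk l hl =>
    hA.low (l + 1) (by omega) (by omega) _ _ (hya.le.trans (hw0 k)) (hwy k) (hy1 k hk)
  -- the used levels
  have hDw : b - k₀ * r ≤ D := by
    have := mul_le_mul_of_nonneg_right hγk hr.le
    rw [hD]; linarith
  have hvt : ∀ v ≤ M, (v : ℝ) * t ≤ M * t := fun v hv =>
    mul_le_mul_of_nonneg_right (by exact_mod_cast hv) ht0.le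
  have hvq : ∀ v : ℕ, (v : ℝ) * t ≤ v * (q * r) := by
    intro v
    refine mul_le_mul_of_nonneg_left ?_ (Nat.cast_nonneg v)
    rw [← ht]
    have := mul_le_mul_of_nonneg_right hT1 ht0.le
    linarith
  have hyv : ∀ v : ℕ, y (jkk N₀ T v) = b + v * (q * r) - v * t := fun v => by rw [hyk]; exact hyj v
  have hwv : ∀ v : ℕ, w (jkk N₀ T v) = D := fun v => by
    rw [hwk, hyv]
    refine min_eq_right ?_
    have := hvq v
    rw [hD]
    linarith
  have hstv : ∀ v ≤ M, ∀ l < n + 1, |L (l + 1) (y (jkk N₀ T v)) (w (jkk N₀ T v)) -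
      L (l + 1) b b - σ (l + 1) * (v * (q * r) - v * t)| ≤ η / 8 * r := by
    intro v hv l hl
    have h1 := hst (l + 1) (by omega) (by omega) (y (jkk N₀ T v)) (w (jkk N₀ T v))
      (by rw [hwv]; exact hDw) (hwy _) (by rw [hyk]; exact hytop _ (jkk_le hv))
    have h2 : y (jkk N₀ T v) - b = v * (q * r) - v * t := by rw [hyv]; ring
    rw [h2] at h1
    exact h1
  have hσl : ∀ l < n + 1, σ (l + 1) ≤ S ∧ -(S : ℝ) ≤ σ (l + 1) := fun l hl => by
    have := abs_le.1 (hσ (l + 1) (by omega) (by omega))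
    exact ⟨this.2, this.1⟩
  refine
    { ω0 := ht0
      y0 := hya
      t0 := le_rfl
      T1 := hT
      hζ := ht.symm
      hb := by rw [hy₀]; ring
      hD0 := hyD
      hDb := by rw [hD]; linarith
      top := by linarith
      two := ?_
      law := fun k hk k' hk' l hl => ?_
      low := fun k hk l hl => ?_
      dl := hd
      slope := fun v hv k hk l hl => ?_
      up := fun v hv l hl => ?_
      tgt := fun v hv i h1 hi => ?_
      φ0 := by positivity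
      ξ0 := by positivity
      E0 := hA.E0
      hφ := by linarith
      hu := by linarith
      hs := ?_
      hs' := ?_
      hϑ := ?_
      hz := ?_
      bm := fun v hv l hl => ?_
      near := ?_ }
  · rw [hyT, hD]
    have h1 : (M : ℝ) * (T - 1) * t = M * (q * r) - M * t := by rw [← ht]; ring
    rw [h1]
    have h2 : 0 ≤ (M : ℝ) * t := by positivity
    linarith
  · have h1 := hlaw k hk k' hk' l hl
    rw [hyk, hyk, hwk, hwk, hyk, hyk] at h1
    exact h1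
  · have h1 := hBlow k hk l hl
    rw [hwk, hyk] at h1
    have h2 := (hd l hl).2
    have h3 := hkt k
    have h4 := (hd l hl).1
    refine ⟨?_, ?_⟩
    · show t ≤ L (l + 1) (y₀ + k * t) (min (y₀ + k * t) D) - d l
      have h5 : η / 8 * r + t ≤ a / 4 := by linarith
      linarith [hA.a0]
    · show k * t ≤ L (l + 1) (y₀ + k * t) (min (y₀ + k * t) D)
      linarith
  · -- slope
    have hstj := (abs_le.1 (hstv v hv l hl)).2
    obtain ⟨hσ1, hσ2⟩ := hσl l hl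
    have h0 : 0 ≤ v * (q * r) - v * t := by linarith [hvq v]
    have h1 := mul_le_mul_of_nonneg_right hσ1 h0
    show L (l + 1) (y₀ + (jkk N₀ T v : ℕ) * t) (min (y₀ + (jkk N₀ T v : ℕ) * t) D) ≤
      L (l + 1) (y₀ + k * t) (min (y₀ + k * t) D) + S * (((jkk N₀ T v : ℕ) : ℝ) - k) * t +
        η * r / 2
    have h2 : (((jkk N₀ T v : ℕ) : ℝ) - k) * t = b + (v * (q * r) - v * t) - y k := by
      have := hyj v
      rw [hyk]
      linarith
    have h3 : S * (((jkk N₀ T v : ℕ) : ℝ) - k) * t = S * (b + (v * (q * r) - v * t) - y k) := by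
      rw [mul_assoc, h2]
    rw [h3]
    have h4 : L (l + 1) (y₀ + (jkk N₀ T v : ℕ) * t) (min (y₀ + (jkk N₀ T v : ℕ) * t) D) =
        L (l + 1) (y (jkk N₀ T v)) (w (jkk N₀ T v)) := by rw [hwk, hyk]
    have h5 : L (l + 1) (y₀ + k * t) (min (y₀ + k * t) D) = L (l + 1) (y k) (w k) := by
      rw [hwk, hyk]
    rw [h4, h5]
    rcases le_total (y k) D with h6 | h6
    · have h7 : w k = y k := by rw [hwk]; exact min_eq_left h6
      rw [h7]
      have h8 : 0 ≤ b - y k := by rw [hD] at h6; linarith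
      have h9 := hsl (l + 1) (by omega) (by omega) (b - y k) h8 (by
        have := hkt k
        rw [hyk]; linarith)
      rw [sub_sub_cancel] at h9
      have h10 : (s : ℝ) * (b - y k) ≤ S * (b - y k) :=
        mul_le_mul_of_nonneg_right (by exact_mod_cast hsS) h8
      linarith
    · have h7 : w k = D := by rw [hwk]; exact min_eq_right h6
      rw [h7]
      have hkN := hk.trans (jkk_le (N₀ := N₀) (T := T) hv)
      have h8 := (abs_le.1 (hst (l + 1) (by omega) (by omega) (y k) D hDw h6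
        (by rw [hyk]; exact hytop k hkN))).1
      have h9 : y k ≤ b + (v * (q * r) - v * t) := by
        have hk' : (k : ℝ) ≤ (jkk N₀ T v : ℕ) := by exact_mod_cast hk
        have := mul_le_mul_of_nonneg_right hk' ht0.le
        have := hyj v
        rw [hyk]
        linarith
      have h10 := mul_le_mul_of_nonneg_right hσ1 (show 0 ≤ b + (v * (q * r) - v * t) - y k by
        linarith)
      linarith
  · -- up
    have h1 := hmar (jkk N₀ T v) (jkk_le hv) l hl _ (hw0 _) le_rfl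
    rw [hwk, hyk] at h1
    show L (l + 1) (y₀ + (jkk N₀ T v : ℕ) * t) (min (y₀ + (jkk N₀ T v : ℕ) * t) D) ≤
      S * ((jkk N₀ T v : ℕ) * t)
    have h2 : (N₀ : ℝ) ≤ (jkk N₀ T v : ℕ) := by
      exact_mod_cast Nat.le_add_right _ _
    have h3 := mul_le_mul_of_nonneg_right h2 ht0.le
    have h4 : S * (ρ₁ / 2) ≤ S * ((jkk N₀ T v : ℕ) * t) :=
      mul_le_mul_of_nonneg_left (by linarith) hS0
    linarith [hA.E0, hA.c0]
  · -- target
    obtain ⟨l, rfl⟩ : ∃ l, i = l + 1 := ⟨i - 1, by omega⟩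
    rw [Nat.add_sub_cancel]
    have hl : l < n + 1 := by omega
    obtain ⟨h2, h3⟩ := abs_le.1 (hstv v hv l hl)
    obtain ⟨hσ1, hσ2⟩ := hσl l hl
    have hvt' := hvt v hv
    have hv0 : 0 ≤ (v : ℝ) * t := by positivity
    have h4 : σ (l + 1) * (v * t) ≤ η / 4 * r := by
      have h5 := mul_le_mul_of_nonneg_right hσ1 hv0
      have h6 := mul_le_mul_of_nonneg_left hvt' hS0
      linarith
    have h5 : -(η / 4 * r) ≤ σ (l + 1) * (v * t) := by
      have h5 := mul_le_mul_of_nonneg_right hσ2 hv0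
      have h6 := mul_le_mul_of_nonneg_left hvt' hS0
      linarith
    have h6 : L (l + 1) (y₀ + (jkk N₀ T v : ℕ) * t) (min (y₀ + (jkk N₀ T v : ℕ) * t) D) =
        L (l + 1) (y (jkk N₀ T v)) (w (jkk N₀ T v)) := by rw [hwk, hyk]
    obtain ⟨hd0, hd1⟩ := hd l hl
    refine ⟨?_, ?_, ?_⟩
    · show 0 ≤ L (l + 1) b b + σ (l + 1) * (v * (q * r)) - κ * r
      have h7 := hA.low (l + 1) (by omega) (by omega) b b (by linarith) le_rfl (by linarith)
      have hvq0 : 0 ≤ (v : ℝ) * (q * r) := by positivity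
      have h8 := mul_le_mul_of_nonneg_right hσ2 hvq0
      have h9 : (v : ℝ) * (q * r) ≤ M * (q * r) :=
        mul_le_mul_of_nonneg_right (by exact_mod_cast hv) hqr.le
      have h10 := mul_le_mul_of_nonneg_left h9 hS0
      linarith [hA.a0]
    · show L (l + 1) b b + σ (l + 1) * (v * (q * r)) - κ * r + κ * r / 2 ≤
        L (l + 1) (y₀ + (jkk N₀ T v : ℕ) * t) (min (y₀ + (jkk N₀ T v : ℕ) * t) D) - d l
      rw [h6]
      linarith
    · show L (l + 1) (y₀ + (jkk N₀ T v : ℕ) * t) (min (y₀ + (jkk N₀ T v : ℕ) * t) D) - d l ≤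
        L (l + 1) b b + σ (l + 1) * (v * (q * r)) - κ * r + 2 * κ * r
      rw [h6]
      linarith
  · -- hs
    rw [le_div_iff₀ (by positivity)]
    have h1 : 16 * (c + 1) * (η * (c + 1)) * r = κ * r := by rw [hηκ]
    have h2 : t * (4 * (c + 1)) ≤ η / 4 * r * (4 * (c + 1)) :=
      mul_le_mul_of_nonneg_right e1 (by positivity)
    have h3 : c * (t * (4 * (c + 1))) ≤ c * (η / 4 * r * (4 * (c + 1))) :=
      mul_le_mul_of_nonneg_left h2 hc0
    have h4 : 0 ≤ η * r * c := by positivity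
    have h5 : 0 ≤ η * r * c * c := by positivity
    linarith
  · rw [le_div_iff₀ (by positivity)]
    have h1 : 16 * (c + 1) * (η * (c + 1)) * r = κ * r := by rw [hηκ]
    have h2 : (M * t + t) * (4 * (c + 1)) ≤ (η / 4 * r + η / 4 * r) * (4 * (c + 1)) :=
      mul_le_mul_of_nonneg_right (by linarith) (by positivity)
    have h4 : 0 ≤ η * r * c := by positivity
    have h5 : 0 ≤ η * r * c * c := by positivity
    linarith
  · have h1 : c * (κ * r / (4 * (c + 1))) ≤ κ * r / 4 := by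
      rw [mul_div_assoc', div_le_div_iff₀ (by positivity) (by norm_num)]
      linarith
    linarith
  · have h1 : c * (κ * r / (4 * (c + 1))) ≤ κ * r / 4 := by
      rw [mul_div_assoc', div_le_div_iff₀ (by positivity) (by norm_num)]
      linarith
    have h2 : 8 * (c + 1) * (κ * r) ≤ q * r := by
      have := mul_le_mul_of_nonneg_right hκq hr.le
      linarith
    linarith
  · have h1 := hmar (jkk N₀ T v) (jkk_le hv) l hl _ (hw0 _) le_rfl
    rw [hwk, hyk] at h1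
    show L (l + 1) (y₀ + (jkk N₀ T v : ℕ) * t) (min (y₀ + (jkk N₀ T v : ℕ) * t) D) - d l ≤
      1 - E - c₀
    linarith [(hd l hl).1]
  · have h1 : c * (κ * r / (4 * (c + 1))) ≤ κ * r / 4 := by
      rw [mul_div_assoc', div_le_div_iff₀ (by positivity) (by norm_num)]
      linarith
    linarith

end Pool.TRC
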