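import Pool.Agent.H33.TRC.Uni

/-!
# Labels of different levels are near on the natural boxes

`box_ext`: a point of the box of the coordinates `< l` extends to a point of the box.
`uni_pairs`: for all pairs of levels `k < k' ≤ m` the labels of the level `k` are near the labels
of the level `k'` on the natural boxes of the level `k'`, off an event of small probability.
-/

set_option autoImplicit false

namespace Pool.TRC

open Finset MvPolynomial
open Pool.Agent.H49.Ent Pool.Agent.H32.Dense Pool.STK Pool.KS3 Pool.STAT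
open Pool.BFL (Pl CB Pb P2 MC alt)

/-- Union bound. -/
theorem pb_ex {Ω ι : Type} [Fintype Ω] {q : Ω → ℝ} (hq : ∀ ω, 0 ≤ q ω) (s : Finset ι)
    (A : ι → Ω → Prop) : Pb q (fun ω => ∃ i ∈ s, A i ω) ≤ ∑ i ∈ s, Pb q (A i) := by
  classical
  unfold Pb
  rw [Finset.sum_comm]
  refine Finset.sum_le_sum fun ω _ => ?_
  have h0 : ∀ i ∈ s, (0 : ℝ) ≤ if A i ω then q ω else 0 := fun i _ => by
    split_ifs
    · exact hq ω
    · exact le_rfl
  by_cases h : ∃ i ∈ s, A i ω
  · obtain ⟨i, hi, hA⟩ := h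
    rw [if_pos ⟨i, hi, hA⟩]
    have h1 := Finset.single_le_sum h0 hi
    rwa [if_pos hA] at h1
  · rw [if_neg h]
    exact Finset.sum_nonneg h0

/-- A point of the box of the coordinates `< l` extends to a point of the box. -/
theorem box_ext {Φ : ℕ → PN} (hΦ : TriN Φ) {g : ℕ → ℕ} {l : ℕ} (n : ℕ) {b : ℕ → ℝ}
    (hb : Bx g Φ l b) : ∃ b' : ℕ → ℝ, (∀ j < l, b' j = b j) ∧ Bx g Φ n b' := by
  obtain ⟨y, hy⟩ : ∃ y : ℕ → ℝ, y = fun j => if j < l then CLO.nc g Φ b j else 0 := ⟨_, rfl⟩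
  refine ⟨fun j => eval y (nuc g Φ j), fun j hj => ?_, ?_⟩
  · show eval y (nuc g Φ j) = b j
    rw [← AdxRow.nuc_eval hΦ g b j]
    refine hom_congr_vars (by ext; simp) ?_ rfl
    intro i hi _
    rw [eval_X, eval_X]
    have h1 := mem_range.1 (AdxRow.nuc_vars hΦ g j hi)
    rw [hy]
    simp only
    rw [if_pos (by omega)]
    rfl
  · have h1 := CLO.box_nuc hΦ g y (ρ := 1) (n := n) fun j _ => by
      rw [hy]
      simp only
      split_ifs with hj
      · exact CLO.nc_le.2 (hb j hj)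
      · rw [abs_zero]
        exact zero_le_one
    exact CLO.Bxr_one.1 h1

theorem eval_vars {F : PN} {l : ℕ} (hF : F.vars ⊆ range l) {b b' : ℕ → ℝ}
    (h : ∀ j < l, b j = b' j) : eval b F = eval b' F := by
  refine hom_congr_vars (by ext; simp) ?_ rfl
  intro j hj _
  rw [eval_X, eval_X]
  exact h j (mem_range.1 (hF hj))

/-- **Labels of different levels are near on the natural boxes.** Coordinates `0, …, n`. -/
theorem uni_pairs (n K m : ℕ) : ∃ C : ℝ, 1 ≤ C ∧ ∀ (Ω Γ V : Type) [Fintype Ω] (q : Ω → ℝ)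
    (c : ℕ → Ω → Γ) (X : Ω → ℕ → ℝ) (z : ℕ → Ω → V) (P : ℕ → V → ℕ → PN) (g : ℕ → ℕ → ℕ)
    (L : ℕ) (θ η : ℝ), IsLaw q → (∀ k x, TriN (P k x)) → (∀ k x i, (P k x i).totalDegree ≤ K) →
    (∀ k ≤ m, ∀ ω, 0 < q ω → ∀ i ≤ n, |ht X (P k) (z k) ω i| ≤ 1 / 2 ^ g k i) → 0 ≤ θ →
    0 < η → η ≤ 1 → (∀ k ≤ m, ∀ k' ≤ k, Det q (c k) (z k')) →
    (∀ k ≤ m, ∀ k' ≤ k, ∀ i, 1 ≤ i → i ≤ n → g k' i ≤ g k i) →
    (∀ k ≤ m, n * (L * Real.log 2) - θ ≤
      CH q (fun ω (i : Fin n) => ⌊(2 : ℝ) ^ (g k i + L) * ht X (P k) (z k) ω i⌋) (c k)) →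
    C * (θ + 1) / η ≤ L * Real.log 2 →
    Pb q (fun ω => ¬ ∀ k' ≤ m, ∀ k < k', ∀ l, 1 ≤ l → l ≤ n → ∀ b : ℕ → ℝ,
      Bx (g k') (P k' (z k' ω)) l b →
        |eval b (P k' (z k' ω) l) - eval b (P k (z k ω) l)| ≤
          Real.exp (C * (θ + 1) / η) / 2 ^ g k l) ≤ η := by
  classical
  obtain ⟨C₀, hC₀, hU⟩ := uni_box n K K
  obtain ⟨N, hN⟩ : ∃ N : ℕ, N = (m + 1) * (m + 1) * (n + 1) := ⟨_, rfl⟩
  have hN1 : (1 : ℝ) ≤ N := by
    have : 1 ≤ N := by
      rw [hN]
      exact Nat.succ_le_of_lt (by positivity)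
    exact_mod_cast this
  refine ⟨C₀ * N + 1, by nlinarith, ?_⟩
  intro Ω Γ V _ q c X z P g L θ η hq hT hK hgt hθ hη hη1 hd hg hful hL
  have hηN : 0 < η / N := by positivity
  have hηN1 : η / N ≤ 1 := by
    rw [div_le_one (by linarith)]
    linarith
  have hC1 : C₀ * (θ + 1) / (η / N) + 1 ≤ (C₀ * N + 1) * (θ + 1) / η := by
    have e1 : C₀ * (θ + 1) / (η / N) = C₀ * N * (θ + 1) / η := by
      field_simp
    rw [e1, add_mul, add_div]
    have e2 : 1 ≤ 1 * (θ + 1) / η := by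
      rw [le_div_iff₀ hη]
      linarith
    linarith
  -- one pair
  have one : ∀ k' ≤ m, ∀ k < k', ∀ l, 1 ≤ l → l ≤ n →
      Pb q (fun ω => ¬ ∀ b : ℕ → ℝ, Bx (g k') (P k' (z k' ω)) l b →
        |eval b (P k' (z k' ω) l) - eval b (P k (z k ω) l)| ≤
          Real.exp ((C₀ * N + 1) * (θ + 1) / η) / 2 ^ g k l) ≤ η / N := by
    intro k' hk' k hk l hl1 hl
    have h1 := hU Ω (Γ × V × V) q (fun ω => (c k' ω, z k' ω, z k ω)) X (fun x => P k' x.2.1)
      (g k') L (fun x => P k' x.2.1 l - P k x.2.2 l) (fun ω => 0 < q ω)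
      (fun _ => 2 / 2 ^ g k l) θ (η / N) hq (fun x => hT k' _) (fun x i => hK k' _ i)
      (fun ω hω i hi => hgt k' hk' ω hω i hi.le) hθ hηN hηN1 ?_ (fun x =>
        (totalDegree_sub _ _).trans (max_le (hK _ _ _) (hK _ _ _))) (fun x => ?_)
      (fun x => by positivity) ?_ ?_ fun ω hω => ?_
    · refine (Pool.Agent.H39.BFL.Pb_mono hq.nonneg fun ω hω hnot hall => ?_).trans h1
      apply hnot
      intro b hb
      obtain ⟨b', hb1, hb2⟩ := box_ext (hT k' (z k' ω)) n hb
      have h2 := hall b' hb2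
      have e1 : eval b' (P k' (z k' ω) l - P k (z k ω) l) =
          eval b (P k' (z k' ω) l) - eval b (P k (z k ω) l) := by
        rw [map_sub, eval_vars (hT k' (z k' ω) l) hb1, eval_vars (hT k (z k ω) l) hb1]
      simp only at h2
      rw [e1] at h2
      refine h2.trans ?_
      have hpos : (0 : ℝ) < 2 ^ g k l := by positivity
      rw [← mul_div_assoc]
      refine div_le_div_of_nonneg_right ?_ hpos.le
      have e2 : (2 : ℝ) ≤ Real.exp 1 := by
        have := Real.add_one_le_exp (1 : ℝ)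
        linarith
      calc Real.exp (C₀ * (θ + 1) / (η / N)) * 2
          ≤ Real.exp (C₀ * (θ + 1) / (η / N)) * Real.exp 1 :=
            mul_le_mul_of_nonneg_left e2 (Real.exp_pos _).le
        _ = Real.exp (C₀ * (θ + 1) / (η / N) + 1) := (Real.exp_add _ _).symm
        _ ≤ _ := Real.exp_le_exp.2 hC1
    · refine (hful k' hk').trans (le_of_eq ?_)
      refine CH_congr hq.nonneg ?_ ?_ ?_ ?_
      · intro ω ω' a b h
        exact (Prod.ext_iff.1 h).1
      · intro ω ω' a b h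
        exact (Prod.ext_iff.1 h).1
      · intro ω ω' a b h
        exact Prod.ext h (Prod.ext (hd k' hk' k' le_rfl ω ω' a b h) (hd k' hk' k hk.le ω ω' a b h))
      · intro ω ω' a b h
        exact (Prod.ext_iff.1 h).1
    · refine (vars_sub_subset _).trans (Finset.union_subset ?_ ?_)
      · exact (hT k' _ l).trans (Finset.range_mono hl)
      · exact (hT k _ l).trans (Finset.range_mono hl)
    · have h2 : Pb q (fun ω => ¬ 0 < q ω) = 0 := by
        unfold Pb
        refine Finset.sum_eq_zero fun ω _ => ?_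
        split_ifs with h
        · exact le_antisymm (not_lt.1 h) (hq.nonneg ω)
        · rfl
      rw [h2]
      positivity
    · refine le_trans ?_ hL
      linarith
    · have h2 := hgt k' hk' ω hω l hl
      have h3 := hgt k (hk.le.trans hk') ω hω l hl
      have h4 : (1 : ℝ) / 2 ^ g k' l ≤ 1 / 2 ^ g k l :=
        one_div_le_one_div_of_le (by positivity) (pow_le_pow_right₀ (by norm_num)
          (hg k' hk' k hk.le l hl1 hl))
      unfold ht at h2 h3
      rw [map_sub]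
      have e1 : eval (X ω) (P k' (z k' ω) l) - eval (X ω) (P k (z k ω) l) =
          (X ω l - eval (X ω) (P k (z k ω) l)) - (X ω l - eval (X ω) (P k' (z k' ω) l)) := by
        ring
      rw [e1]
      refine (abs_sub _ _).trans ?_
      have e2 : (2 : ℝ) / 2 ^ g k l = 1 / 2 ^ g k l + 1 / 2 ^ g k l := by ring
      rw [e2]
      exact add_le_add h3 (h2.trans h4)
  -- the union
  obtain ⟨s, hs⟩ : ∃ s : Finset (ℕ × ℕ × ℕ), s = ((range (m + 1)) ×ˢ ((range (m + 1)) ×ˢ
      (range (n + 1)))).filter fun x => x.2.1 < x.1 ∧ 1 ≤ x.2.2 := ⟨_, rfl⟩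
  have hcard : (s.card : ℝ) ≤ N := by
    have h1 : s.card ≤ N := by
      rw [hs, hN]
      refine (Finset.card_filter_le _ _).trans (le_of_eq ?_)
      rw [Finset.card_product, Finset.card_product, card_range, card_range, mul_assoc]
    exact_mod_cast h1
  refine (Pool.Agent.H39.BFL.Pb_mono hq.nonneg (A' := fun ω => ∃ x ∈ s,
    ¬ ∀ b : ℕ → ℝ, Bx (g x.1) (P x.1 (z x.1 ω)) x.2.2 b →
      |eval b (P x.1 (z x.1 ω) x.2.2) - eval b (P x.2.1 (z x.2.1 ω) x.2.2)| ≤
        Real.exp ((C₀ * N + 1) * (θ + 1) / η) / 2 ^ g x.2.1 x.2.2) fun ω hω hnot => ?_).trans ?_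
  · by_contra hcon
    push Not at hcon
    apply hnot
    intro k' hk' k hk l hl1 hl b hb
    exact hcon (k', k, l) (by
      rw [hs]
      simp only [mem_filter, mem_product, mem_range]
      omega) b hb
  · refine (pb_ex hq.nonneg s _).trans ?_
    refine (Finset.sum_le_sum (g := fun _ => η / N) fun x hx => ?_).trans ?_
    · rw [hs] at hx
      simp only [mem_filter, mem_product, mem_range] at hx
      exact one x.1 (by omega) x.2.1 (by omega) x.2.2 (by omega) (by omega)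
    · rw [Finset.sum_const, nsmul_eq_mul]
      have : (s.card : ℝ) * (η / N) ≤ N * (η / N) := mul_le_mul_of_nonneg_right hcard hηN.le
      refine this.trans (le_of_eq ?_)
      field_simp

end Pool.TRC
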