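import Pool.Agent.H33.TRC.Pairs
import Pool.Agent.H95.GN.Lag

/-!
# Line sides of different levels are near on the tubes

The polynomials `H k` of the lines (with windows of length `2 ^ (-w k)`) are near the closed labels
on the natural boxes of the samples. For typical samples the line sides of different levels are
near on the whole tube over the window (the time of the sample is full given the line and the
window).
-/

set_option autoImplicit false

namespace Pool.TRC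

open Finset MvPolynomial
open Pool.Agent.H49.Ent Pool.Agent.H32.Dense Pool.STK Pool.KS3 Pool.STAT
open Pool.BFL (Pl CB Pb P2 MC alt)

/-- The system of the tube: the cell of the window in place of the time. -/
noncomputable def tub (τ : ℝ) (Φ : ℕ → PN) : ℕ → PN := Function.update Φ 0 (C τ)

/-- The sides of the tube. -/
def tus (w : ℕ) (g : ℕ → ℕ) : ℕ → ℕ := Function.update g 0 w

theorem tub_zero (τ : ℝ) (Φ : ℕ → PN) : tub τ Φ 0 = C τ := Function.update_self _ _ _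

theorem tub_pos (τ : ℝ) (Φ : ℕ → PN) {i : ℕ} (hi : 1 ≤ i) : tub τ Φ i = Φ i :=
  Function.update_of_ne (by omega) _ _

theorem tus_zero (w : ℕ) (g : ℕ → ℕ) : tus w g 0 = w := Function.update_self _ _ _

theorem tus_pos (w : ℕ) (g : ℕ → ℕ) {i : ℕ} (hi : 1 ≤ i) : tus w g i = g i :=
  Function.update_of_ne (by omega) _ _

theorem tub_tri {τ : ℝ} {Φ : ℕ → PN} (h : TriN Φ) : TriN (tub τ Φ) := by
  intro i
  rcases Nat.eq_zero_or_pos i with rfl | hi
  · rw [tub_zero, vars_C]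
    exact Finset.empty_subset _
  · rw [tub_pos _ _ hi]
    exact h i

theorem tub_deg {τ : ℝ} {Φ : ℕ → PN} {K : ℕ} (h : ∀ i, (Φ i).totalDegree ≤ K) (i : ℕ) :
    (tub τ Φ i).totalDegree ≤ K := by
  rcases Nat.eq_zero_or_pos i with rfl | hi
  · rw [tub_zero, totalDegree_C]
    exact Nat.zero_le _
  · rw [tub_pos _ _ hi]
    exact h i

/-- Near on the natural boxes, hence near on the dilated boxes. -/
theorem nr_line (n K : ℕ) : ∃ c : ℕ, 1 ≤ c ∧ ∀ (Φ Ψ : ℕ → PN) (g : ℕ → ℕ) (S : ℝ), TriN Φ →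
    TriN Ψ → (∀ i, (Φ i).totalDegree ≤ K) → (∀ i, (Ψ i).totalDegree ≤ K) → 1 ≤ S →
    Φ 0 = Ψ 0 → (∀ i, 1 ≤ i → i ≤ n → ∀ b : ℕ → ℝ, Bx g Ψ i b →
      |eval b (Φ i) - eval b (Ψ i)| ≤ S / 2 ^ g i) → CLO.Nr c S g Φ Ψ (n + 1) := by
  obtain ⟨C, hC, hd⟩ := CLO.dil n K
  obtain ⟨K₂, hK₂⟩ : ∃ K₂, K₂ = K * (K + 1) ^ (n + 1) := ⟨_, rfl⟩
  obtain ⟨c, hc⟩ : ∃ c : ℕ, c = ⌈C⌉₊ + K₂ + 1 := ⟨_, rfl⟩
  have hcC : C ≤ c := by
    rw [hc]
    push_cast
    have := Nat.le_ceil C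
    linarith [(Nat.cast_nonneg K₂ : (0 : ℝ) ≤ K₂)]
  refine ⟨c, by omega, ?_⟩
  intro Φ Ψ g S hΦ hΨ hdΦ hdΨ hS h0 h
  refine ⟨h0, fun j h1 h2 ρ hρ b hb => ?_⟩
  have h3 := hd Ψ g (Φ j - Ψ j) j (S / 2 ^ g j) ρ hΨ hdΨ (by omega)
    ((vars_sub_subset _).trans (Finset.union_subset (hΦ j) (hΨ j)))
    ((totalDegree_sub _ _).trans (max_le (hdΦ j) (hdΨ j))) hρ (fun b hb => by
      rw [map_sub]
      exact h j h1 (by omega) b (CLO.Bxr_one.1 hb)) b hb
  rw [map_sub] at h3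
  refine h3.trans ?_
  rw [← hK₂, ← mul_div_assoc, div_mul_eq_mul_div]
  refine div_le_div_of_nonneg_right ?_ (by positivity)
  have hc1 : (1 : ℝ) ≤ c := by exact_mod_cast (by omega : 1 ≤ c)
  have e1 : C * S ≤ (c * S) ^ c := by
    have : C * S ≤ c * S := mul_le_mul_of_nonneg_right hcC (by linarith)
    exact this.trans (le_self_pow₀ (by nlinarith) (by omega))
  have e2 : ρ ^ K₂ ≤ ρ ^ c := pow_le_pow_right₀ hρ (by omega)
  calc C * S * ρ ^ K₂ ≤ (c * S) ^ c * ρ ^ c :=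
        mul_le_mul e1 e2 (by positivity) (by positivity)
    _ = (c * S * ρ) ^ c := (mul_pow _ _ _).symm

/-- Constants against exponentials. -/
theorem le_expu {a u : ℝ} (hu : 1 ≤ u) (ha : 0 ≤ a) : a ≤ Real.exp (a * u) := by
  have h1 := Real.add_one_le_exp (a * u)
  have h2 : a * 1 ≤ a * u := mul_le_mul_of_nonneg_left hu ha
  linarith

theorem tri0 {Φ : ℕ → PN} {b x : ℕ → ℝ} (hΦ : TriN Φ) : eval b (Φ 0) = eval x (Φ 0) :=
  eval_vars (hΦ 0) fun j hj => absurd hj (Nat.not_lt_zero j)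

/-- **One slice.** The polynomials of the lines of two levels are near on the tube, at the time of
a typical sample. -/
theorem slice (n K : ℕ) : ∃ C : ℝ, 1 ≤ C ∧ ∀ (P P' H H' : ℕ → PN) (g g' : ℕ → ℕ) (x : ℕ → ℝ)
    (E u : ℝ), TriN P → TriN P' → TriN H → TriN H' → (∀ i, (P i).totalDegree ≤ K) →
    (∀ i, (P' i).totalDegree ≤ K) → (∀ i, (H i).totalDegree ≤ K) →
    (∀ i, (H' i).totalDegree ≤ K) → 1 ≤ u → 0 ≤ E → E ≤ u →
    |x 0 - eval x (P 0)| ≤ 1 / 2 ^ g 0 → |x 0 - eval x (P' 0)| ≤ 1 / 2 ^ g' 0 →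
    (∀ i, 1 ≤ i → i ≤ n → ∀ b : ℕ → ℝ, Bx g P i b →
      |eval b (H i) - eval b (P i)| ≤ Real.exp E / 2 ^ g i) →
    (∀ i, 1 ≤ i → i ≤ n → ∀ b : ℕ → ℝ, Bx g' P' i b →
      |eval b (H' i) - eval b (P' i)| ≤ Real.exp E / 2 ^ g' i) →
    (∀ i, 1 ≤ i → i ≤ n → g i ≤ g' i) →
    (∀ i, 1 ≤ i → i ≤ n → ∀ b : ℕ → ℝ, Bx g' P' i b →
      |eval b (P' i) - eval b (P i)| ≤ Real.exp u / 2 ^ g i) →
    ∀ l, 1 ≤ l → l ≤ n → ∀ b : ℕ → ℝ, b 0 = x 0 →
      (∀ j, 1 ≤ j → j < l → |b j - eval b (H' j)| ≤ 1 / 2 ^ g' j) →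
      |eval b (H' l) - eval b (H l)| ≤ Real.exp (C * u) / 2 ^ g l := by
  obtain ⟨c, hc, hnr⟩ := nr_line n K
  obtain ⟨C₀, hC₀, hd⟩ := CLO.dil n K
  obtain ⟨M, hM⟩ := CLO.cc_le c n
  obtain ⟨K₂, hK₂⟩ : ∃ K₂, K₂ = K * (K + 1) ^ (n + 1) := ⟨_, rfl⟩
  have hc1 : (1 : ℝ) ≤ c := by exact_mod_cast hc
  -- exponents
  obtain ⟨r₁, hr₁⟩ : ∃ r₁ : ℝ, r₁ = (2 * c + 1) * M := ⟨_, rfl⟩
  obtain ⟨r₂, hr₂⟩ : ∃ r₂ : ℝ, r₂ = C₀ + 2 + K₂ * r₁ + r₁ := ⟨_, rfl⟩
  obtain ⟨r₃, hr₃⟩ : ∃ r₃ : ℝ, r₃ = c * (c + 1 + r₂) := ⟨_, rfl⟩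
  have hM0 : (0 : ℝ) ≤ M := Nat.cast_nonneg M
  have hK0 : (0 : ℝ) ≤ K₂ := Nat.cast_nonneg K₂
  have hr10 : 0 ≤ r₁ := by rw [hr₁]; positivity
  have hr20 : 0 ≤ r₂ := by rw [hr₂]; positivity
  have hr12 : r₁ ≤ r₂ := by
    rw [hr₂]
    have : 0 ≤ (K₂ : ℝ) * r₁ := mul_nonneg hK0 hr10
    linarith
  have hr30 : 0 ≤ r₃ := by rw [hr₃]; positivity
  refine ⟨r₃ + r₂ + 3, by linarith, ?_⟩
  intro P P' H H' g g' x E u hP hP' hH hH' dP dP' dH dH' hu hE hEu hx hx' hl hl' hg hpr l h1 hln b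
    hb0 hb
  have hu0 : 0 ≤ u := by linarith
  have hS1 : (1 : ℝ) ≤ Real.exp E := Real.one_le_exp hE
  have hSu : Real.exp E ≤ Real.exp u := Real.exp_le_exp.2 hEu
  have hev0 : ∀ {Φ : ℕ → PN}, TriN Φ → eval b (Φ 0) = eval x (Φ 0) := fun hΦ =>
    tri0 hΦ
  -- the systems with the cells of the labels
  obtain ⟨Q', hQ'⟩ : ∃ Q' : ℕ → PN, Q' = Function.update H' 0 (P' 0) := ⟨_, rfl⟩
  obtain ⟨Q, hQ⟩ : ∃ Q : ℕ → PN, Q = Function.update H 0 (P 0) := ⟨_, rfl⟩
  have q1' : ∀ i, 1 ≤ i → Q' i = H' i := fun i hi => by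
    rw [hQ', Function.update_of_ne (by omega)]
  have q1 : ∀ i, 1 ≤ i → Q i = H i := fun i hi => by
    rw [hQ, Function.update_of_ne (by omega)]
  have q0' : Q' 0 = P' 0 := by rw [hQ', Function.update_self]
  have q0 : Q 0 = P 0 := by rw [hQ, Function.update_self]
  have triQ' : TriN Q' := by
    intro i
    rcases Nat.eq_zero_or_pos i with rfl | hi
    · rw [q0']
      exact hP' 0
    · rw [q1' i hi]
      exact hH' i
  have triQ : TriN Q := by
    intro i
    rcases Nat.eq_zero_or_pos i with rfl | hi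
    · rw [q0]
      exact hP 0
    · rw [q1 i hi]
      exact hH i
  have degQ' : ∀ i, (Q' i).totalDegree ≤ K := by
    intro i
    rcases Nat.eq_zero_or_pos i with rfl | hi
    · rw [q0']
      exact dP' 0
    · rw [q1' i hi]
      exact dH' i
  have degQ : ∀ i, (Q i).totalDegree ≤ K := by
    intro i
    rcases Nat.eq_zero_or_pos i with rfl | hi
    · rw [q0]
      exact dP 0
    · rw [q1 i hi]
      exact dH i
  have nr' := hnr Q' P' g' (Real.exp E) triQ' hP' degQ' dP' hS1 q0' fun i hi hin b hb => by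
    rw [q1' i hi]
    exact hl' i hi hin b hb
  have nr := hnr Q P g (Real.exp E) triQ hP degQ dP hS1 q0 fun i hi hin b hb => by
    rw [q1 i hi]
    exact hl i hi hin b hb
  -- the point is in the dilated box of the fine level
  have hb1 : CLO.Bxr 1 g' Q' l b := by
    intro j hj
    rcases Nat.eq_zero_or_pos j with rfl | hj0
    · rw [q0', hb0, hev0 hP']
      exact hx'
    · rw [q1' j hj0]
      exact hb j hj0 hj
  obtain ⟨ρ₁, hρ₁⟩ : ∃ ρ₁ : ℝ, ρ₁ = Real.exp (r₁ * u) := ⟨_, rfl⟩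
  have hρ1 : 1 ≤ ρ₁ := by
    rw [hρ₁]
    exact Real.one_le_exp (mul_nonneg hr10 hu0)
  have hb2 : CLO.Bxr ρ₁ g' P' l b := by
    refine ((nr'.mono (show l ≤ n + 1 by omega)).box hc hS1 le_rfl hb1 l le_rfl).mono ?_ le_rfl
    have e1 : 2 * (c : ℝ) * Real.exp E * 1 ≤ Real.exp ((2 * c + 1) * u) := by
      have e2 := le_expu hu (show (0 : ℝ) ≤ 2 * c by positivity)
      calc 2 * (c : ℝ) * Real.exp E * 1 = 2 * c * Real.exp E := mul_one _
        _ ≤ Real.exp (2 * c * u) * Real.exp u := mul_le_mul e2 hSu (by positivity) (by positivity)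
        _ = Real.exp ((2 * c + 1) * u) := by
            rw [← Real.exp_add]
            congr 1
            ring
    have e2 : (1 : ℝ) ≤ 2 * (c : ℝ) * Real.exp E * 1 := by nlinarith
    calc (2 * (c : ℝ) * Real.exp E * 1) ^ CLO.cc c l ≤ (2 * (c : ℝ) * Real.exp E * 1) ^ M :=
          pow_le_pow_right₀ e2 (hM l hln)
      _ ≤ Real.exp ((2 * c + 1) * u) ^ M := pow_le_pow_left₀ (by positivity) e1 _
      _ = ρ₁ := by
          rw [hρ₁, hr₁, ← Real.exp_nat_mul]
          congr 1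
          ring
  -- the pair of labels
  have pr : ∀ j, 1 ≤ j → j ≤ l → |eval b (P' j) - eval b (P j)| ≤
      Real.exp ((C₀ + 1 + K₂ * r₁) * u) / 2 ^ g j := by
    intro j hj1 hj
    have h3 := hd P' g' (P' j - P j) j (Real.exp u / 2 ^ g j) ρ₁ hP' dP' (by omega)
      ((vars_sub_subset _).trans (Finset.union_subset (hP' j) (hP j)))
      ((totalDegree_sub _ _).trans (max_le (dP' j) (dP j))) hρ1 (fun b hb => by
        rw [map_sub]
        exact hpr j hj1 (by omega) b (CLO.Bxr_one.1 hb)) b (hb2.mono le_rfl hj)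
    rw [map_sub, ← hK₂] at h3
    refine h3.trans ?_
    rw [← mul_div_assoc, div_mul_eq_mul_div]
    refine div_le_div_of_nonneg_right ?_ (by positivity)
    have e2 := le_expu hu (show (0 : ℝ) ≤ C₀ by linarith)
    have e3 : ρ₁ ^ K₂ = Real.exp (K₂ * r₁ * u) := by
      rw [hρ₁, ← Real.exp_nat_mul]
      congr 1
      ring
    rw [e3]
    calc C₀ * Real.exp u * Real.exp (K₂ * r₁ * u)
        ≤ Real.exp (C₀ * u) * Real.exp u * Real.exp (K₂ * r₁ * u) := by gcongr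
      _ = Real.exp ((C₀ + 1 + K₂ * r₁) * u) := by
          rw [← Real.exp_add, ← Real.exp_add]
          congr 1
          ring
  obtain ⟨ρ₂, hρ₂⟩ : ∃ ρ₂ : ℝ, ρ₂ = Real.exp (r₂ * u) := ⟨_, rfl⟩
  have hρ2 : 1 ≤ ρ₂ := by
    rw [hρ₂]
    exact Real.one_le_exp (mul_nonneg hr20 hu0)
  have hKr : 0 ≤ (K₂ : ℝ) * r₁ := mul_nonneg hK0 hr10
  have hb3 : CLO.Bxr ρ₂ g P l b := by
    intro j hj
    rcases Nat.eq_zero_or_pos j with rfl | hj0
    · rw [hb0, hev0 hP]
      exact hx.trans (div_le_div_of_nonneg_right hρ2 (by positivity))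
    · have a1 := hb2 j hj
      have a2 := pr j hj0 hj.le
      have a3 : ρ₁ / 2 ^ g' j ≤ ρ₁ / 2 ^ g j := div_le_div_of_nonneg_left (by linarith)
        (by positivity) (pow_le_pow_right₀ (by norm_num) (hg j hj0 (by omega)))
      have a4 : |b j - eval b (P j)| ≤ |b j - eval b (P' j)| + |eval b (P' j) - eval b (P j)| := by
        have := abs_add_le (b j - eval b (P' j)) (eval b (P' j) - eval b (P j))
        rwa [sub_add_sub_cancel] at this
      refine a4.trans ((add_le_add (a1.trans a3) a2).trans ?_)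
      rw [← add_div]
      refine div_le_div_of_nonneg_right ?_ (by positivity)
      have e1 : ρ₁ ≤ Real.exp ((C₀ + 1 + K₂ * r₁ + r₁) * u) := by
        rw [hρ₁]
        refine Real.exp_le_exp.2 (mul_le_mul_of_nonneg_right ?_ hu0)
        linarith
      have e2 : Real.exp ((C₀ + 1 + K₂ * r₁) * u) ≤ Real.exp ((C₀ + 1 + K₂ * r₁ + r₁) * u) :=
        Real.exp_le_exp.2 (mul_le_mul_of_nonneg_right (by linarith) hu0)
      have e3 : (2 : ℝ) ≤ Real.exp u := by
        have := Real.add_one_le_exp u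
        linarith
      calc ρ₁ + Real.exp ((C₀ + 1 + K₂ * r₁) * u)
          ≤ 2 * Real.exp ((C₀ + 1 + K₂ * r₁ + r₁) * u) := by linarith
        _ ≤ Real.exp u * Real.exp ((C₀ + 1 + K₂ * r₁ + r₁) * u) :=
            mul_le_mul_of_nonneg_right e3 (Real.exp_pos _).le
        _ = ρ₂ := by
            rw [hρ₂, hr₂, ← Real.exp_add]
            congr 1
            ring
  -- the three differences
  have big : ∀ ρ : ℝ, 1 ≤ ρ → ρ ≤ ρ₂ → (c * Real.exp E * ρ) ^ c ≤ Real.exp (r₃ * u) := by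
    intro ρ h1 h2
    have e2 := le_expu hu (show (0 : ℝ) ≤ c by positivity)
    have e3 : (c : ℝ) * Real.exp E * ρ ≤ Real.exp ((c + 1 + r₂) * u) := by
      calc (c : ℝ) * Real.exp E * ρ ≤ Real.exp (c * u) * Real.exp u * ρ₂ := by gcongr
        _ = Real.exp ((c + 1 + r₂) * u) := by
            rw [hρ₂, ← Real.exp_add, ← Real.exp_add]
            congr 1
            ring
    refine (pow_le_pow_left₀ (by positivity) e3 _).trans (le_of_eq ?_)
    rw [← Real.exp_nat_mul, hr₃]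
    congr 1
    ring
  have d1 : |eval b (H' l) - eval b (P' l)| ≤ Real.exp (r₃ * u) / 2 ^ g l := by
    have h2 := nr'.all hc hS1 (show l < n + 1 by omega) hρ1 hb2
    rw [q1' l h1] at h2
    refine h2.trans ?_
    have h3 : (0 : ℝ) < 2 ^ g l := by positivity
    refine (div_le_div_of_nonneg_left (by positivity) h3 (pow_le_pow_right₀ (by norm_num)
      (hg l h1 hln))).trans (div_le_div_of_nonneg_right (big ρ₁ hρ1 ?_) h3.le)
    rw [hρ₁, hρ₂]
    exact Real.exp_le_exp.2 (mul_le_mul_of_nonneg_right hr12 hu0)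
  have d2 : |eval b (H l) - eval b (P l)| ≤ Real.exp (r₃ * u) / 2 ^ g l := by
    have h2 := nr.all hc hS1 (show l < n + 1 by omega) hρ2 hb3
    rw [q1 l h1] at h2
    exact h2.trans (div_le_div_of_nonneg_right (big ρ₂ hρ2 le_rfl) (by positivity))
  have d3 := pr l h1 le_rfl
  have e0 : eval b (H' l) - eval b (H l) = (eval b (H' l) - eval b (P' l)) +
      (eval b (P' l) - eval b (P l)) - (eval b (H l) - eval b (P l)) := by ring
  rw [e0]
  refine (abs_sub _ _).trans ((add_le_add (abs_add_le _ _) le_rfl).trans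
    ((add_le_add (add_le_add d1 d3) d2).trans ?_))
  rw [← add_div, ← add_div]
  refine div_le_div_of_nonneg_right ?_ (by positivity)
  have f1 : Real.exp (r₃ * u) ≤ Real.exp ((r₃ + r₂) * u) :=
    Real.exp_le_exp.2 (mul_le_mul_of_nonneg_right (by linarith) hu0)
  have f2 : Real.exp ((C₀ + 1 + K₂ * r₁) * u) ≤ Real.exp ((r₃ + r₂) * u) := by
    refine Real.exp_le_exp.2 (mul_le_mul_of_nonneg_right ?_ hu0)
    rw [hr₂]
    linarith
  have f3 : (3 : ℝ) ≤ Real.exp (3 * u) := le_expu hu (by norm_num)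
  calc Real.exp (r₃ * u) + Real.exp ((C₀ + 1 + K₂ * r₁) * u) + Real.exp (r₃ * u)
      ≤ 3 * Real.exp ((r₃ + r₂) * u) := by linarith
    _ ≤ Real.exp (3 * u) * Real.exp ((r₃ + r₂) * u) :=
        mul_le_mul_of_nonneg_right f3 (Real.exp_pos _).le
    _ = Real.exp ((r₃ + r₂ + 3) * u) := by
        rw [← Real.exp_add]
        congr 1
        ring

/-- The polynomial with the space coordinates at a point of the grid. -/
noncomputable def grd (w : ℕ) (τ : ℝ) (y : ℕ → ℝ) (F : PN) : PN :=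
  bind₁ (fun j => if j = 0 then C ((2 : ℝ) ^ w) * (X 0 - C τ) else C (y j)) F

theorem grd_eval (w : ℕ) (τ : ℝ) (y : ℕ → ℝ) (F : PN) (b : ℕ → ℝ) : eval b (grd w τ y F) =
    eval (fun j => if j = 0 then (2 : ℝ) ^ w * (b 0 - τ) else y j) F := by
  unfold grd
  rw [Pool.SYS35.eval_bind]
  congr 2
  funext j
  split_ifs
  · rw [map_mul, map_sub, eval_C, eval_C, eval_X]
  · rw [eval_C]

theorem grd_vars (w : ℕ) (τ : ℝ) (y : ℕ → ℝ) (F : PN) : (grd w τ y F).vars ⊆ range 1 := by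
  unfold grd
  refine AdxRow.vars_bnd (m := F.vars.sup id + 1) (fun j hj => ?_) fun j _ => ?_
  · exact mem_range.2 (Nat.lt_succ_of_le (Finset.le_sup (f := id) hj))
  · split_ifs
    · refine (vars_mul _ _).trans (Finset.union_subset ?_ ((vars_sub_subset _).trans
        (Finset.union_subset ?_ ?_)))
      · rw [vars_C]
        exact Finset.empty_subset _
      · rw [vars_X]
        intro k hk
        rw [mem_singleton] at hk
        rw [hk]
        exact mem_range.2 one_pos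
      · rw [vars_C]
        exact Finset.empty_subset _
    · rw [vars_C]
      exact Finset.empty_subset _

theorem grd_deg (w : ℕ) (τ : ℝ) (y : ℕ → ℝ) {F : PN} {D : ℕ} (hF : F.totalDegree ≤ D) :
    (grd w τ y F).totalDegree ≤ D := by
  unfold grd
  refine (Dgb.deg_bind (B := 1) fun k _ => ?_).trans (by rw [mul_one]; exact hF)
  split_ifs
  · refine (totalDegree_mul _ _).trans ?_
    rw [totalDegree_C, zero_add]
    refine (totalDegree_sub _ _).trans (max_le ?_ ?_)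
    · rw [totalDegree_X]
    · rw [totalDegree_C]
      exact Nat.zero_le _
  · rw [totalDegree_C]
    exact Nat.zero_le _

/-- Bounds at the grid give bounds on the cube, at a fixed first coordinate. -/
theorem grid (n D : ℕ) : ∃ C : ℝ, 1 ≤ C ∧ ∀ (F : PN) (l : ℕ) (S s : ℝ), l ≤ n →
    F.vars ⊆ range l → F.totalDegree ≤ D →
    (∀ i : Fin n → Fin (D + 1), |eval (fun j => if j = 0 then s else
      if h : j < n then (((i ⟨j, h⟩ : Fin (D + 1)) : ℕ) : ℝ) / (D + 1) else 0) F| ≤ S) →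
    ∀ y : ℕ → ℝ, y 0 = s → (∀ j, 1 ≤ j → j < l → |y j| ≤ 1) → |eval y F| ≤ C * S := by
  obtain ⟨C₀, hC₀, h⟩ := Pool.UNJ.lagm n D 1 le_rfl
  refine ⟨C₀, hC₀, ?_⟩
  intro F l S s hl hv hD hS y hy0 hy
  obtain ⟨f, hf⟩ : ∃ f : ℕ → MvPolynomial (Fin n) ℝ, f = fun j => if j = 0 then C s else
      if h : j < n then X ⟨j, h⟩ else 0 := ⟨_, rfl⟩
  have hev : ∀ x : Fin n → ℝ, eval x (aeval f F : MvPolynomial (Fin n) ℝ) =
      eval (fun j => if j = 0 then s else if h : j < n then x ⟨j, h⟩ else 0) F := by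
    intro x
    have h1 : eval x (aeval f F : MvPolynomial (Fin n) ℝ) = eval (fun j => eval x (f j)) F := by
      rw [aeval_def, algebraMap_eq, eval_eval₂]
      have h1 : (eval x).comp (C : ℝ →+* MvPolynomial (Fin n) ℝ) = RingHom.id ℝ := by
        ext a
        simp
      rw [h1]
      rfl
    rw [h1, hf]
    congr 2
    funext j
    simp only
    split_ifs
    · rw [eval_C]
    · rw [eval_X]
    · rw [map_zero]
  have hdeg : (aeval f F : MvPolynomial (Fin n) ℝ).totalDegree ≤ D := by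
    have := CmrRow.deg_aeval (K := 1) (D := D) (θ := f) (F := F) (fun i _ => by
      rw [hf]
      simp only
      split_ifs
      · rw [totalDegree_C]
        exact Nat.zero_le _
      · rw [totalDegree_X]
      · rw [totalDegree_zero]
        exact Nat.zero_le _) hD
    rwa [mul_one] at this
  have h2 := h (aeval f F) S hdeg (fun i => by
    rw [hev]
    exact hS i) (fun k => if (k : ℕ) < l ∧ 1 ≤ (k : ℕ) then y k else 0) (fun k => by
      split_ifs with hk
      · exact hy k hk.2 hk.1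
      · rw [abs_zero]
        exact zero_le_one)
  rw [hev] at h2
  refine (le_of_eq ?_).trans h2
  congr 1
  refine eval_vars hv fun j hj => ?_
  rcases Nat.eq_zero_or_pos j with rfl | hj0
  · rw [if_pos rfl, hy0]
  · rw [if_neg (by omega), dif_pos (by omega), if_pos ⟨hj, hj0⟩]

end Pool.TRC
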