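import Pool.Agent.H33.TRC.TrcR

/-!
# From raw two-sided levels to two-sided systems of universal degree

`trc_fam`: the input of the closing theorem `clo_trc` from the raw levels `Lvl`.
-/

set_option autoImplicit false

namespace Pool.TRC

open Finset MvPolynomial
open Pool.Agent.H49.Ent Pool.Agent.H32.Dense Pool.STK Pool.KS3 Pool.KA Pool.KSAT Pool.PB Pool.GEN
open Pool.K2S Pool.STAT
open Pool.STAT.CLO (tp tl t_cell crs crs_eq tp_eq tl_eq Raw)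

/-- Constants. -/
theorem loss_le {cw r s₀ s : ℕ} {x y : ℝ} (hx : 0 ≤ x) (hy : 0 ≤ y)
    (h : 2 * ((cw : ℝ) * (cw + x + r) + x + y + s₀ + 2) ≤ s) :
    (cw * (Real.exp x * 2 ^ r)) ^ cw * (Real.exp x + 2 ^ s₀ + Real.exp y) ≤ 2 ^ s := by
  have hl2 : 1 / 2 ≤ Real.log 2 := by
    have := Real.log_two_gt_d9
    linarith
  have hl1 : Real.log 2 ≤ 1 := by
    have := Real.log_two_lt_d9
    linarith
  have p2 : ∀ k : ℕ, (2 : ℝ) ^ k ≤ Real.exp k := by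
    intro k
    rw [← exp_nlog]
    refine Real.exp_le_exp.2 ?_
    have : (0 : ℝ) ≤ k := Nat.cast_nonneg k
    nlinarith
  have h1 : (cw : ℝ) ≤ Real.exp cw := by
    have := Real.add_one_le_exp (cw : ℝ)
    linarith
  have h2 : (cw : ℝ) * (Real.exp x * 2 ^ r) ≤ Real.exp (cw + x + r) := by
    rw [Real.exp_add, Real.exp_add, mul_assoc]
    exact mul_le_mul h1 (mul_le_mul_of_nonneg_left (p2 r) (Real.exp_pos _).le) (by positivity)
      (Real.exp_pos _).le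
  have h3 : ((cw : ℝ) * (Real.exp x * 2 ^ r)) ^ cw ≤ Real.exp (cw * (cw + x + r)) := by
    rw [Real.exp_nat_mul]
    exact pow_le_pow_left₀ (by positivity) h2 _
  have hs0 : (0 : ℝ) ≤ s₀ := Nat.cast_nonneg s₀
  have h4 : Real.exp x + 2 ^ s₀ + Real.exp y ≤ Real.exp (x + y + s₀ + 2) := by
    have e1 : Real.exp x ≤ Real.exp (x + y + s₀) := Real.exp_le_exp.2 (by linarith)
    have e2 : (2 : ℝ) ^ s₀ ≤ Real.exp (x + y + s₀) :=
      (p2 s₀).trans (Real.exp_le_exp.2 (by linarith))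
    have e3 : Real.exp y ≤ Real.exp (x + y + s₀) := Real.exp_le_exp.2 (by linarith)
    have e4 : (3 : ℝ) ≤ Real.exp 2 := by
      have := Real.add_one_le_exp (2 : ℝ)
      linarith
    rw [Real.exp_add _ (2 : ℝ)]
    have e5 := Real.exp_pos (x + y + s₀)
    nlinarith
  have h5 : Real.exp (cw * (cw + x + r)) * Real.exp (x + y + s₀ + 2) ≤ 2 ^ s := by
    rw [← Real.exp_add, ← exp_nlog]
    refine Real.exp_le_exp.2 ?_
    have hs : (0 : ℝ) ≤ s := Nat.cast_nonneg s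
    nlinarith
  refine le_trans ?_ h5
  exact mul_le_mul h3 h4 (by positivity) (Real.exp_pos _).le

/-- **From raw levels to two-sided systems of universal degree.** `raw`, `pos`, `near`, the error
bound `er` for all points near the path, and `wid`: comparison with other polynomials. -/
theorem trc_two (n S : ℕ) (hS : 1 ≤ S) : ∃ c : ℕ, ∀ K m s₀ : ℕ, ∃ C : ℕ,
    ∀ (d J : ℕ) (F : Fam d J) (e : ℕ → Fin d) (w₀ z M : ℕ) (a w : ℕ → ℕ) (g g' : ℕ → ℕ → ℕ)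
    (h u r s : ℕ) (jk : ℕ → ℕ) (A : F.Ω → Prop) (G : ℕ → PtT F → ℕ → PN)
    (H : ℕ → LnT F → ℕ → PN), Lvl F e n K m a w g h u s₀ A G H →
    (∀ k ≤ M, jk k ≤ m ∧ Slp n S a g u (jk k) ∧ a (jk k) ≤ w₀ + k * z) → w₀ + M * z ≤ J →
    (∀ k ≤ M, ∀ i, 1 ≤ i → i ≤ n → g' k i ≤ g (jk k) i ∧ g (jk k) i ≤ g' k i + r) →
    (c : ℝ) * (h + u + r) + C ≤ s →
    ∃ (G' : ℕ → PtT F → ℕ → PN) (H' : ℕ → LnT F → ℕ → PN),
      (∀ k ≤ M, Raw n ((S + 1) ^ (n + 1) ^ 2) (2 ^ s) A (ptr F J) (slam F (w₀ + k * z))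
        (tp (w₀ + k * z)) (tl (w₀ + k * z)) (CDat.g0 w₀ z g' k) (G' k) (H' k)) ∧
      (∀ k ≤ M, ∀ ω, A ω → ∀ i, 1 ≤ i → i ≤ n →
        |F.x ω (e i) - eval (cx F e ω) (G' k (ptr F J ω) i)| ≤ 2 ^ s / 2 ^ g' k i) ∧
      (∀ k ≤ M, ∀ ω, A ω → ∀ i, 1 ≤ i → i ≤ n → ∀ b : ℕ → ℝ,
        Bx (tus (a (jk k)) (g (jk k))) (G (jk k) (ptr F J ω)) i b →
        |eval b (G (jk k) (ptr F J ω) i) - eval b (G' k (ptr F J ω) i)| ≤
          2 ^ s / 2 ^ g (jk k) i) ∧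
      (∀ k ≤ M, ∀ ω, A ω → ∀ i, 1 ≤ i → i ≤ n → ∀ b : ℕ → ℝ,
        InB F a g u (jk k) ω (fun k' => G k' (ptr F J ω)) i b →
        |b i - eval b (G' k (ptr F J ω) i)| ≤ 2 ^ s / 2 ^ g (jk k) i) ∧
      ∀ k ≤ M, ∀ ω, A ω → ∀ i, 1 ≤ i → i ≤ n → ∀ (T : PN) (v : ℝ) (s' : ℕ), 0 ≤ v →
        T.vars ⊆ range i → T.totalDegree ≤ (S + 1) ^ (n + 1) ^ 2 →
        (c : ℝ) * (h + u + r) + C + 2 * v ≤ s' →
        (∀ b : ℕ → ℝ, Bx (tus (a (jk k)) (g (jk k))) (G (jk k) (ptr F J ω)) i b →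
          |eval b (G (jk k) (ptr F J ω) i) - eval b T| ≤ (2 ^ s₀ + Real.exp v) / 2 ^ g (jk k) i) →
        ∀ b : ℕ → ℝ, Bx (CDat.g0 w₀ z g' k) (G' k (ptr F J ω)) i b →
          |eval b (G' k (ptr F J ω) i) - eval b T| ≤ 2 ^ s' / 2 ^ g' k i := by
  classical
  obtain ⟨cG, hcG, hsG⟩ := side_G n S hS
  obtain ⟨cH, hcH, hsH⟩ := side_H n S hS
  obtain ⟨D, hD⟩ : ∃ D, D = (S + 1) ^ (n + 1) ^ 2 := ⟨_, rfl⟩
  obtain ⟨cw, hcw, hw⟩ := widb n D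
  obtain ⟨c, hc⟩ := exists_nat_ge (2 * ((cw : ℝ) * (cG + 1) + cG + cH))
  refine ⟨c, fun K m s₀ => ?_⟩
  obtain ⟨CG, hCG, hG⟩ := hsG K m
  obtain ⟨CH', hCH, hH⟩ := hsH K m s₀
  obtain ⟨C, hC⟩ := exists_nat_ge (2 * ((cw : ℝ) * (cw + CG) + CG + CH' + s₀ + 2))
  refine ⟨C, ?_⟩
  intro d J F e w₀ z M a w g g' h u r s jk A G H L hjk hMJ hgg hs
  rw [← hD]
  have hc1 : (1 : ℝ) ≤ cw := by exact_mod_cast hcw
  have hh0 : (0 : ℝ) ≤ h := Nat.cast_nonneg h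
  have hu0 : (0 : ℝ) ≤ u := Nat.cast_nonneg u
  have hr0 : (0 : ℝ) ≤ r := Nat.cast_nonneg r
  have hs0 : (0 : ℝ) ≤ s₀ := Nat.cast_nonneg s₀
  obtain ⟨x, hx⟩ : ∃ x : ℝ, x = cG * (h + u) + CG := ⟨_, rfl⟩
  obtain ⟨y, hy⟩ : ∃ y : ℝ, y = cH * (h + u) + CH' := ⟨_, rfl⟩
  have hx0 : 0 ≤ x := by rw [hx]; positivity
  have hy0 : 0 ≤ y := by rw [hy]; positivity
  have hsum : 2 * ((cw : ℝ) * (cw + x + r) + x + y + s₀ + 2) ≤ c * (h + u + r) + C := by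
    have e1 : 2 * ((cw : ℝ) * (cG + 1) + cG + cH) * (h + u + r) ≤ c * (h + u + r) :=
      mul_le_mul_of_nonneg_right hc (by positivity)
    have e5 : 0 ≤ (cw : ℝ) * (h + u) + (cw * cG + cG + cH) * r := by positivity
    rw [hx, hy]
    nlinarith
  have hl1 : (cw * (Real.exp x * 2 ^ r)) ^ cw * (Real.exp x + 2 ^ s₀ + Real.exp y) ≤
      2 ^ s := loss_le hx0 hy0 (by linarith)
  have hex1 : 1 ≤ Real.exp x := Real.one_le_exp hx0
  have h2r : (1 : ℝ) ≤ 2 ^ r := one_le_pow₀ (by norm_num)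
  have hR1 : 1 ≤ Real.exp x * 2 ^ r := by nlinarith
  have hRx : Real.exp x ≤ Real.exp x * 2 ^ r := by nlinarith
  have hRr : (2 : ℝ) ^ r ≤ Real.exp x * 2 ^ r := by nlinarith [Real.exp_pos x]
  have hxs : Real.exp x ≤ 2 ^ s := by
    refine le_trans ?_ hl1
    have e1 : (1 : ℝ) ≤ (cw * (Real.exp x * 2 ^ r)) ^ cw := one_le_pow₀ (by nlinarith)
    have e2 : Real.exp x ≤ Real.exp x + 2 ^ s₀ + Real.exp y := by
      have := Real.exp_pos y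
      have : (0 : ℝ) < 2 ^ s₀ := by positivity
      linarith
    nlinarith [Real.exp_pos x]
  -- the sides
  have hQG : ∀ k, ∃ Q : PtT F → ℕ → PN, (∀ y, TriN (Q y)) ∧ (∀ y i, (Q y i).totalDegree ≤ D) ∧
      (k ≤ M → ∀ ω, A ω → ∀ i, 1 ≤ i → i ≤ n →
        |cx F e ω i - eval (cx F e ω) (Q (ptr F J ω) i)| ≤ Real.exp x / 2 ^ g (jk k) i ∧
        (∀ b : ℕ → ℝ, InB F a g u (jk k) ω (fun k' => G k' (ptr F J ω)) i b →
          |b i - eval b (Q (ptr F J ω) i)| ≤ Real.exp x / 2 ^ g (jk k) i) ∧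
        ∀ b : ℕ → ℝ, Bx (tus (a (jk k)) (g (jk k))) (G (jk k) (ptr F J ω)) i b →
          |eval b (G (jk k) (ptr F J ω) i) - eval b (Q (ptr F J ω) i)| ≤
            Real.exp x / 2 ^ g (jk k) i) := by
    intro k
    by_cases hk : k ≤ M
    · obtain ⟨h1, h2, h3⟩ := hjk k hk
      obtain ⟨Q, q1, q2, q3⟩ := hG d J F e a w g h u s₀ A G H L (jk k) h1 h2
      rw [hx, hD]
      exact ⟨Q, q1, q2, fun _ => q3⟩
    · exact ⟨fun _ _ => 0, fun _ i => by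
        rw [vars_0]
        exact Finset.empty_subset _, fun _ i => by
        rw [totalDegree_zero]
        exact Nat.zero_le _, fun h => absurd h hk⟩
  choose Q q1 q2 q3 using hQG
  have hPH : ∀ k, ∃ P : LnT F → ℕ → PN, (∀ s, TriN (P s)) ∧ (∀ s i, (P s i).totalDegree ≤ D) ∧
      (k ≤ M → ∀ ω, A ω → ∀ i, 1 ≤ i → i ≤ n → ∀ b : ℕ → ℝ,
        Bx (tus (a (jk k)) (g (jk k))) (G (jk k) (ptr F J ω)) i b →
        |eval b (H (jk k) (slam F (w (jk k)) ω) i) -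
          eval b (P (slam F (a (jk k)) ω) i)| ≤ Real.exp y / 2 ^ g (jk k) i) := by
    intro k
    by_cases hk : k ≤ M
    · obtain ⟨h1, h2, h3⟩ := hjk k hk
      obtain ⟨P, p1, p2, p3⟩ := hH d J F e a w g h u A G H L (jk k) h1 h2
      rw [hy, hD]
      exact ⟨P, p1, p2, fun _ ω hω i h1 hi => (p3 ω hω i h1 hi).2⟩
    · exact ⟨fun _ _ => 0, fun _ i => by
        rw [vars_0]
        exact Finset.empty_subset _, fun _ i => by
        rw [totalDegree_zero]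
        exact Nat.zero_le _, fun h => absurd h hk⟩
  choose P p1 p2 p3 using hPH
  have hwk : ∀ k ≤ M, w₀ + k * z ≤ J := fun k hk => by
    have : k * z ≤ M * z := Nat.mul_le_mul_right _ hk
    omega
  -- from the final box to the wide box of the truncated side
  have hbx : ∀ k ≤ M, ∀ ω : F.Ω, ∀ i ≤ n + 1, ∀ b : ℕ → ℝ,
      Bx (CDat.g0 w₀ z g' k) (tub (tp (w₀ + k * z) (ptr F J ω)) (Q k (ptr F J ω))) i b →
      CLO.Bxr (Real.exp x * 2 ^ r) (tus (a (jk k)) (g (jk k)))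
        (tub (tp (a (jk k)) (ptr F J ω)) (Q k (ptr F J ω))) i b := by
    intro k hk ω i hi b hb j hj
    rcases Nat.eq_zero_or_pos j with rfl | hj1
    · have h1 := hb 0 hj
      have h2 : CDat.g0 w₀ z g' k 0 = w₀ + k * z := if_pos rfl
      rw [tub_zero, eval_C, tp_eq, h2] at h1
      rw [tub_zero, eval_C, tp_eq, tus_zero]
      refine (nest F (hjk k hk).2.2 (hwk k hk) ω h1).trans
        (div_le_div_of_nonneg_right hR1 (by positivity))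
    · have h1 := hb j hj
      have h2 : CDat.g0 w₀ z g' k j = g' k j := if_neg (by omega)
      rw [tub_pos _ _ hj1, h2] at h1
      rw [tub_pos _ _ hj1, tus_pos _ _ hj1]
      refine h1.trans ?_
      have h3 := (hgg k hk j hj1 (by omega)).2
      rw [div_le_div_iff₀ (by positivity) (by positivity), one_mul]
      calc (2 : ℝ) ^ g (jk k) j ≤ 2 ^ (g' k j + r) := pow_le_pow_right₀ (by norm_num) h3
        _ = 2 ^ r * 2 ^ g' k j := by rw [pow_add]; ring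
        _ ≤ Real.exp x * 2 ^ r * 2 ^ g' k j := mul_le_mul_of_nonneg_right hRr (by positivity)
  -- widening
  have hwid : ∀ k ≤ M, ∀ ω, A ω → ∀ i, 1 ≤ i → i ≤ n → ∀ (T : PN) (E : ℝ) (s' : ℕ), 0 ≤ E →
      T.vars ⊆ range i → T.totalDegree ≤ D →
      (∀ b : ℕ → ℝ, Bx (tus (a (jk k)) (g (jk k))) (G (jk k) (ptr F J ω)) i b →
        |eval b (Q k (ptr F J ω) i) - eval b T| ≤ E / 2 ^ g (jk k) i) →
      (cw * (Real.exp x * 2 ^ r)) ^ cw * E ≤ 2 ^ s' → ∀ b : ℕ → ℝ,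
      Bx (CDat.g0 w₀ z g' k) (tub (tp (w₀ + k * z) (ptr F J ω)) (Q k (ptr F J ω))) i b →
      |eval b (Q k (ptr F J ω) i) - eval b T| ≤ 2 ^ s' / 2 ^ g' k i := by
    intro k hk ω hω i hi1 hi T E s' hE hTv hTd hT hEs b hb
    have h1 := hw (tub (tp (a (jk k)) (ptr F J ω)) (Q k (ptr F J ω))) (G (jk k) (ptr F J ω))
      (tus (a (jk k)) (g (jk k))) (Q k (ptr F J ω) i - T) i (Real.exp x * 2 ^ r)
      (E / 2 ^ g (jk k) i) (tub_tri (q1 k _)) (L.triG _ _) (tub_deg (q2 k _)) hi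
      ((vars_sub_subset _).trans (Finset.union_subset (q1 k _ i) hTv))
      ((totalDegree_sub _ _).trans (max_le (q2 k _ i) hTd)) hR1 (by positivity)
      (by rw [tub_zero, L.G_zero]) (fun j hj1 hj b' hb' => ?_) (fun b' hb' => ?_) b
      (hbx k hk ω i (by omega) b hb)
    · rw [map_sub, ← mul_div_assoc] at h1
      refine h1.trans (div_le_div₀ (by positivity) hEs (by positivity) ?_)
      exact pow_le_pow_right₀ (by norm_num) (hgg k hk i hi1 hi).1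
    · rw [tub_pos _ _ hj1, tus_pos _ _ hj1, abs_sub_comm]
      exact ((q3 k hk ω hω j hj1 (by omega)).2.2 b' hb').trans
        (div_le_div_of_nonneg_right hRx (by positivity))
    · rw [map_sub]
      exact hT b' hb'
  have hgle : ∀ k ≤ M, ∀ i, 1 ≤ i → i ≤ n → ∀ E : ℝ, 0 ≤ E → E ≤ 2 ^ s →
      E / 2 ^ g (jk k) i ≤ 2 ^ s / 2 ^ g' k i := fun k hk i h1 hi E hE hEs =>
    div_le_div₀ (by positivity) hEs (by positivity)
      (pow_le_pow_right₀ (by norm_num) (hgg k hk i h1 hi).1)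
  refine ⟨fun k y => tub (tp (w₀ + k * z) y) (Q k y),
    fun k l => tub (tl (w₀ + k * z) l) (P k (crs (a (jk k)) (w₀ + k * z) l)),
    fun k hk => ?_, fun k hk ω hω i hi1 hi => ?_, fun k hk ω hω i hi1 hi b hb => ?_,
    fun k hk ω hω i hi1 hi b hb => ?_, fun k hk ω hω i hi1 hi T v s' hv hTv hTd hs' hT b hb => ?_⟩
  · refine ⟨fun y => tub_tri (q1 k y), fun y i => tub_deg (q2 k y) i, fun l => tub_tri (p1 k _),
      fun l i => tub_deg (p2 k _) i, fun y => tub_zero _ _, fun ω _ => by rw [tp_eq, tl_eq],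
      fun ω hω i hi1 hi b hb => ?_⟩
    have hg0 : CDat.g0 w₀ z g' k i = g' k i := if_neg (by omega)
    dsimp only at hb ⊢
    rw [tub_pos _ _ hi1, tub_pos _ _ hi1, crs_eq F (hjk k hk).2.2 (hwk k hk) ω, hg0]
    refine hwid k hk ω hω i hi1 hi (P k (slam F (a (jk k)) ω) i)
      (Real.exp x + 2 ^ s₀ + Real.exp y) s (by positivity) (p1 k _ i) (p2 k _ i)
      (fun b' hb' => ?_) hl1 b hb
    have f1 := (q3 k hk ω hω i hi1 hi).2.2 b' hb'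
    have f2 := L.agr ω hω (jk k) (hjk k hk).1 i hi1 hi b' hb'
    have f3 := p3 k hk ω hω i hi1 hi b' hb'
    rw [add_div, add_div]
    rw [abs_le] at f1 f2 f3 ⊢
    constructor <;> linarith [f1.1, f1.2, f2.1, f2.2, f3.1, f3.2]
  · simp only
    rw [tub_pos _ _ hi1]
    have h1 := (q3 k hk ω hω i hi1 hi).1
    have h2 : cx F e ω i = F.x ω (e i) := if_neg (by omega)
    rw [h2] at h1
    exact h1.trans (hgle k hk i hi1 hi _ (Real.exp_pos _).le hxs)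
  · simp only
    rw [tub_pos _ _ hi1]
    exact ((q3 k hk ω hω i hi1 hi).2.2 b hb).trans
      (div_le_div_of_nonneg_right hxs (by positivity))
  · simp only
    rw [tub_pos _ _ hi1]
    exact ((q3 k hk ω hω i hi1 hi).2.1 b hb).trans
      (div_le_div_of_nonneg_right hxs (by positivity))
  · simp only
    rw [tub_pos _ _ hi1]
    refine hwid k hk ω hω i hi1 hi T (Real.exp x + 2 ^ s₀ + Real.exp v) s' (by positivity) hTv hTd
      (fun b' hb' => ?_) (loss_le hx0 hv (by linarith)) b hb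
    have f1 := (q3 k hk ω hω i hi1 hi).2.2 b' hb'
    have f2 := hT b' hb'
    rw [add_div] at f2
    rw [add_div, add_div]
    rw [abs_le] at f1 f2 ⊢
    constructor <;> linarith [f1.1, f1.2, f2.1, f2.2]

/-- **From raw levels to two-sided systems of universal degree**, with the line side in the window
`w₁`. -/
theorem trc_fam (n S : ℕ) (hS : 1 ≤ S) : ∃ c : ℕ, ∀ K m s₀ : ℕ, ∃ C : ℕ,
    ∀ (d J : ℕ) (F : Fam d J) (e : ℕ → Fin d) (w₀ w₁ z M : ℕ) (a b w : ℕ → ℕ) (g g' : ℕ → ℕ → ℕ)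
    (h u r s : ℕ) (jk : ℕ → ℕ) (A : F.Ω → Prop) (G : ℕ → PtT F → ℕ → PN)
    (H : ℕ → LnT F → ℕ → PN) (θ : ℝ), Lvl F e n K m a w g h u s₀ A G H →
    (∀ k ≤ M, jk k ≤ m ∧ Slp n S a g u (jk k) ∧ a (jk k) ≤ w₀ + k * z) → jk M = m →
    w₀ + M * z ≤ J → Tms n S m b (wtop m w₁ w) g h u → w m ≤ w₁ → w₁ ≤ a m →
    (∀ k, 1 ≤ k → k ≤ m → ∀ i, 1 ≤ i → i ≤ n → s₀ + 1 ≤ g k i) → 0 < Pe F.p A → 0 ≤ θ →
    (∀ k ≤ m, TimeS F A (w k) (J - w m) θ) → C * (θ + 1) ≤ (J - w m : ℕ) →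
    (∀ k ≤ M, ∀ i, 1 ≤ i → i ≤ n → g' k i ≤ g (jk k) i ∧ g (jk k) i ≤ g' k i + r) →
    (c : ℝ) * (h + u + r) + C * (θ + 1) ≤ s →
    ∃ (B : F.Ω → Prop) (G' : ℕ → PtT F → ℕ → PN) (H' : ℕ → LnT F → ℕ → PN)
      (R : LnT F → ℕ → PN), (∀ ω, B ω → A ω) ∧ Pe F.p A ≤ 2 * Pe F.p B ∧
      (∀ k ≤ M, Raw n ((S + 1) ^ (n + 1) ^ 2) (2 ^ s) B (ptr F J) (slam F (w₀ + k * z))
        (tp (w₀ + k * z)) (tl (w₀ + k * z)) (CDat.g0 w₀ z g' k) (G' k) (H' k)) ∧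
      (∀ k ≤ M, ∀ ω, B ω → ∀ i, 1 ≤ i → i ≤ n →
        |F.x ω (e i) - eval (cx F e ω) (G' k (ptr F J ω) i)| ≤ 2 ^ s / 2 ^ g' k i) ∧
      (∀ l, TriN (R l)) ∧ (∀ l i, (R l i).totalDegree ≤ (S + 1) ^ (n + 1) ^ 2) ∧
      (∀ ω, B ω → ∀ i, 1 ≤ i → i ≤ n → ∀ b : ℕ → ℝ,
        Bx (CDat.g0 w₀ z g' M) (G' M (ptr F J ω)) i b →
        |eval b (R (slam F w₁ ω) i) - eval b (G' M (ptr F J ω) i)| ≤ 2 ^ s / 2 ^ g' M i) ∧
      (∀ k ≤ M, ∀ ω, B ω → ∀ i, 1 ≤ i → i ≤ n → ∀ b : ℕ → ℝ,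
        Bx (tus (a (jk k)) (g (jk k))) (G (jk k) (ptr F J ω)) i b →
        |eval b (G (jk k) (ptr F J ω) i) - eval b (G' k (ptr F J ω) i)| ≤
          2 ^ s / 2 ^ g (jk k) i) ∧
      ∀ k ≤ M, ∀ ω, B ω → ∀ i, 1 ≤ i → i ≤ n → ∀ b : ℕ → ℝ,
        InB F a g u (jk k) ω (fun k' => G k' (ptr F J ω)) i b →
        |b i - eval b (G' k (ptr F J ω) i)| ≤ 2 ^ s / 2 ^ g (jk k) i := by
  classical
  obtain ⟨c₀, htwo⟩ := trc_two n S hS
  obtain ⟨cR, hcR, hsR⟩ := side_R n S hS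
  obtain ⟨c, hc⟩ := exists_nat_ge ((c₀ : ℝ) + 2 * cR)
  refine ⟨c, fun K m s₀ => ?_⟩
  obtain ⟨C₀, htwo⟩ := htwo K m s₀
  obtain ⟨CR, hCR, hR⟩ := hsR K m s₀
  obtain ⟨C, hC⟩ := exists_nat_ge ((C₀ : ℝ) + 2 * CR)
  refine ⟨C, ?_⟩
  intro d J F e w₀ w₁ z M a bb w g g' h u r s jk A G H θ L hjk hjM hMJ hTms hw1 hw2 hg hA hθ htm
    hJ hgg hs
  have hh0 : (0 : ℝ) ≤ h := Nat.cast_nonneg h
  have hu0 : (0 : ℝ) ≤ u := Nat.cast_nonneg u
  have hr0 : (0 : ℝ) ≤ r := Nat.cast_nonneg r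
  have hC₀ : (0 : ℝ) ≤ C₀ := Nat.cast_nonneg C₀
  obtain ⟨v, hv⟩ : ∃ v : ℝ, v = cR * (h + u) + CR * (θ + 1) := ⟨_, rfl⟩
  have hv0 : 0 ≤ v := by rw [hv]; positivity
  have hsum : (c₀ : ℝ) * (h + u + r) + C₀ + 2 * v ≤ s := by
    refine le_trans ?_ hs
    have e1 : ((c₀ : ℝ) + 2 * cR) * (h + u + r) ≤ c * (h + u + r) :=
      mul_le_mul_of_nonneg_right hc (by positivity)
    have e2 : ((C₀ : ℝ) + 2 * CR) * (θ + 1) ≤ C * (θ + 1) :=
      mul_le_mul_of_nonneg_right hC (by linarith)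
    have e4 := mul_nonneg hC₀ hθ
    have e5 : 0 ≤ cR * r := by positivity
    rw [hv]
    nlinarith
  obtain ⟨G', H', o1, o2, o3, o4, o5⟩ := htwo d J F e w₀ z M a w g g' h u r s jk A G H L hjk hMJ hgg
    (by linarith)
  obtain ⟨B, R, hBA, hPe, r1, r2, r3⟩ := hR d J F e w₁ a bb w g h u A G H θ L hTms hw1 hw2 hg hA
    hθ htm (by
      refine le_trans (mul_le_mul_of_nonneg_right ?_ (by linarith)) hJ
      refine le_trans ?_ hC
      linarith)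
  rw [← hv] at r3
  refine ⟨B, G', H', R, hBA, hPe, fun k hk => (o1 k hk).sub hBA, fun k hk ω hω =>
    o2 k hk ω (hBA ω hω), r1, r2, fun ω hω i hi1 hi b hb => ?_, fun k hk ω hω =>
    o3 k hk ω (hBA ω hω), fun k hk ω hω => o4 k hk ω (hBA ω hω)⟩
  have hωA := hBA ω hω
  rw [abs_sub_comm]
  refine o5 M le_rfl ω hωA i hi1 hi (R (slam F w₁ ω) i) v s hv0 (r1 _ i) (r2 _ i) hsum
    (fun b' hb' => ?_) b hb
  rw [hjM] at hb' ⊢
  have f2 := L.agr ω hωA m le_rfl i hi1 hi b' hb'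
  have f3 := r3 ω hω i hi1 hi b' hb'
  rw [add_div]
  rw [abs_le] at f2 f3 ⊢
  constructor <;> linarith [f2.1, f2.2, f3.1, f3.2]

end Pool.TRC
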