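import Pool.Agent.H33.TRC.Rem

/-!
# Line sides of different levels are near on the tubes: the event

`tubes`: if the polynomials of the lines of different levels are near on the slice of the tube at
the time of every sample, then off an event of small probability they are near on the whole tubes.
-/

set_option autoImplicit false

namespace Pool.TRC

open Finset MvPolynomial
open Pool.Agent.H49.Ent Pool.Agent.H32.Dense Pool.STK Pool.KS3 Pool.STAT
open Pool.BFL (Pl CB Pb P2 MC alt)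

/-- The polynomials of the lines of the levels `k < k'` are near on the tubes of the level
`k'`. -/
def PrH {Λ : Type} (n m : ℕ) (H : ℕ → Λ → ℕ → PN) (g : ℕ → ℕ → ℕ) (w : ℕ → ℕ) (τ : ℕ → Λ → ℝ)
    (A : ℝ) (s : ℕ → Λ) : Prop :=
  ∀ k' ≤ m, ∀ k < k', ∀ l, 1 ≤ l → l ≤ n → ∀ b : ℕ → ℝ,
    Bx (tus (w k') (g k')) (tub (τ k' (s k')) (H k' (s k'))) l b →
    |eval b (H k' (s k') l) - eval b (H k (s k) l)| ≤ Real.exp A / 2 ^ g k l

theorem pb_or {Ω : Type} [Fintype Ω] {q : Ω → ℝ} (hq : ∀ ω, 0 ≤ q ω) (A B : Ω → Prop) :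
    Pb q (fun ω => A ω ∨ B ω) ≤ Pb q A + Pb q B := by
  classical
  unfold Pb
  rw [← Finset.sum_add_distrib]
  refine Finset.sum_le_sum fun ω _ => ?_
  have := hq ω
  by_cases h1 : A ω <;> by_cases h2 : B ω <;> simp [h1, h2, this]

/-- **Line sides of different levels.** -/
theorem tubes (n K m : ℕ) : ∃ C : ℝ, 1 ≤ C ∧ ∀ (Ω Λ : Type) [Fintype Ω] (q : Ω → ℝ)
    (X : Ω → ℕ → ℝ) (g : ℕ → ℕ → ℕ) (L : ℕ) (lw : ℕ → Ω → Λ) (H : ℕ → Λ → ℕ → PN) (w : ℕ → ℕ)
    (τ : ℕ → Λ → ℝ) (u θ η : ℝ), IsLaw q → (∀ k x, TriN (H k x)) →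
    (∀ k x i, (H k x i).totalDegree ≤ K) → 0 ≤ θ → 0 < η → η ≤ 1 →
    (∀ k ≤ m, ∀ k' ≤ k, Det q (lw k) (lw k')) →
    (∀ k ≤ m, ∀ ω, 0 < q ω → |X ω 0 - τ k (lw k ω)| ≤ 1 / 2 ^ w k) →
    (∀ k ≤ m, L * Real.log 2 - θ ≤
      CH q (fun ω => ⌊(2 : ℝ) ^ (w k + L) * (X ω 0 - τ k (lw k ω))⌋) (lw k)) →
    (∀ ω, 0 < q ω → ∀ k' ≤ m, ∀ k < k', ∀ l, 1 ≤ l → l ≤ n → ∀ b : ℕ → ℝ, b 0 = X ω 0 →
      (∀ j, 1 ≤ j → j < l → |b j - eval b (H k' (lw k' ω) j)| ≤ 1 / 2 ^ g k' j) →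
      |eval b (H k' (lw k' ω) l) - eval b (H k (lw k ω) l)| ≤ Real.exp u / 2 ^ g k l) →
    C * (θ + 1) / η ≤ L * Real.log 2 →
    Pb q (fun ω => ¬ PrH n m H g w τ (C * ((θ + 1) / η) + u) (fun k => lw k ω)) ≤ η := by
  classical
  obtain ⟨K₂, hK₂⟩ : ∃ K₂, K₂ = K * (K + 1) ^ (n + 1) := ⟨_, rfl⟩
  obtain ⟨C₂, hC₂, hbox⟩ := uni_box 1 0 K₂
  obtain ⟨C₄, hC₄, hgrid⟩ := grid n K₂
  obtain ⟨N, hN⟩ : ∃ N : ℕ, N = (m + 1) * ((m + 1) * ((n + 1) *
      Fintype.card (Fin n → Fin (K₂ + 1)))) := ⟨_, rfl⟩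
  have hN1 : (1 : ℝ) ≤ N := by
    have : 1 ≤ N := by
      rw [hN]
      exact Nat.succ_le_of_lt (by positivity)
    exact_mod_cast this
  obtain ⟨C, hC⟩ : ∃ C : ℝ, C = N * C₂ + C₄ := ⟨_, rfl⟩
  have hNC2 : 0 ≤ (N : ℝ) * C₂ := by positivity
  have hCge : 1 ≤ C := by
    rw [hC]
    linarith
  refine ⟨C, hCge, ?_⟩
  intro Ω Λ _ q X g L lw H w τ u θ η hq hTH hKH hθ hη hη1 hdl hcell htime hsl hL
  obtain ⟨x, hx⟩ : ∃ x : ℝ, x = (θ + 1) / η := ⟨_, rfl⟩
  have hx1 : 1 ≤ x := by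
    rw [hx, le_div_iff₀ hη]
    linarith
  obtain ⟨η₂, hη₂⟩ : ∃ η₂ : ℝ, η₂ = η / N := ⟨_, rfl⟩
  have hη₂0 : 0 < η₂ := by rw [hη₂]; positivity
  have hη₂1 : η₂ ≤ 1 := by
    rw [hη₂, div_le_one (by positivity)]
    linarith
  have hx₂ : C₂ * (θ + 1) / η₂ = N * C₂ * x := by
    rw [hη₂, hx]
    field_simp
  have hCx : C * (θ + 1) / η = C * x := by
    rw [hx]
    ring
  have hLx : C * x ≤ L * Real.log 2 := by rw [← hCx]; exact hL
  have hx0 : 0 ≤ x := by linarith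
  obtain ⟨yy, hyy⟩ : ∃ yy : (Fin n → Fin (K₂ + 1)) → ℕ → ℝ, yy = fun i j =>
      if h : j < n then (((i ⟨j, h⟩ : Fin (K₂ + 1)) : ℕ) : ℝ) / (K₂ + 1) else 0 := ⟨_, rfl⟩
  have hyy1 : ∀ i j, |yy i j| ≤ 1 := by
    intro i j
    rw [hyy]
    simp only
    split_ifs with hj
    · have h1 : (((i ⟨j, hj⟩ : Fin (K₂ + 1)) : ℕ) : ℝ) ≤ K₂ + 1 := by
        exact_mod_cast (i ⟨j, hj⟩).2.le
      have h2 : (0 : ℝ) ≤ (((i ⟨j, hj⟩ : Fin (K₂ + 1)) : ℕ) : ℝ) := Nat.cast_nonneg _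
      rw [abs_of_nonneg (by positivity), div_le_one (by positivity)]
      exact h1
    · rw [abs_zero]
      exact zero_le_one
  obtain ⟨FF, hFF⟩ : ∃ FF : ℕ → ℕ → ℕ → Λ × Λ → PN, FF = fun k' k l x =>
      bind₁ (nuc (tus (w k') (g k')) (tub (τ k' x.1) (H k' x.1))) (H k' x.1 l - H k x.2 l) :=
    ⟨_, rfl⟩
  have hFFv : ∀ k' k l, l ≤ n → ∀ x, (FF k' k l x).vars ⊆ range l ∧
      (FF k' k l x).totalDegree ≤ K₂ := by
    intro k' k l hl x
    rw [hFF, hK₂]
    exact CLO.nat_deg (tub_tri (hTH k' x.1)) (tub_deg (hKH k' x.1)) _ hl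
      ((vars_sub_subset _).trans (Finset.union_subset (hTH k' x.1 l) (hTH k x.2 l)))
      ((totalDegree_sub _ _).trans (max_le (hKH _ _ _) (hKH _ _ _)))
  -- one term
  have one : ∀ k' ≤ m, ∀ k < k', ∀ l, 1 ≤ l → l ≤ n → ∀ i : Fin n → Fin (K₂ + 1),
      Pb q (fun ω => ¬ ∀ b : ℕ → ℝ, |b 0 - τ k' (lw k' ω)| ≤ 1 / 2 ^ w k' →
        |eval b (grd (w k') (τ k' (lw k' ω)) (yy i) (FF k' k l (lw k' ω, lw k ω)))| ≤
          Real.exp (N * C₂ * x) * (Real.exp u / 2 ^ g k l)) ≤ η₂ := by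
    intro k' hk' k hk l hl1 hl i
    have h1 := hbox Ω (Λ × Λ) q (fun ω => (lw k' ω, lw k ω)) X
      (fun x j => if j = 0 then MvPolynomial.C (τ k' x.1) else 0) (fun _ => w k') L
      (fun x => grd (w k') (τ k' x.1) (yy i) (FF k' k l x)) (fun ω => 0 < q ω)
      (fun _ => Real.exp u / 2 ^ g k l) θ η₂ hq ?_ ?_ ?_ hθ hη₂0 hη₂1 ?_
      (fun x => grd_deg _ _ _ (hFFv k' k l hl x).2) (fun x => grd_vars _ _ _ _)
      (fun x => by positivity) ?_ ?_ fun ω hω0 => ?_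
    · rw [hx₂] at h1
      refine (Pool.Agent.H39.BFL.Pb_mono hq.nonneg fun ω hω hnot hall => ?_).trans h1
      apply hnot
      intro b hb
      refine hall b fun j hj => ?_
      have : j = 0 := by omega
      subst this
      simp only [if_true, eval_C]
      exact hb
    · intro x j
      simp only
      split_ifs
      · rw [vars_C]
        exact Finset.empty_subset _
      · rw [vars_0]
        exact Finset.empty_subset _
    · intro x j
      split_ifs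
      · rw [totalDegree_C]
      · rw [totalDegree_zero]
    · intro ω hω j hj
      have : j = 0 := by omega
      subst this
      unfold ht
      simp only [if_true, eval_C]
      exact hcell k' hk' ω hω
    · refine (le_of_eq ?_).trans ((htime k' hk').trans (le_of_eq ?_))
      · push_cast
        ring
      · refine CH_congr hq.nonneg ?_ ?_ ?_ ?_
        · intro ω ω' a b h
          have h2 := (Prod.ext_iff.1 h).1
          funext j
          have hj0 : (j : ℕ) = 0 := by omega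
          unfold ht
          simp only [hj0, if_true, eval_C]
          exact h2
        · intro ω ω' a b h
          have h2 := congrFun (Prod.ext_iff.1 h).1 0
          unfold ht at h2
          simp only [Fin.val_zero, if_true, eval_C] at h2
          exact h2
        · intro ω ω' a b h
          exact Prod.ext h (hdl k' hk' k hk.le ω ω' a b h)
        · intro ω ω' a b h
          exact (Prod.ext_iff.1 h).1
    · refine (le_of_eq ?_).trans (show (0 : ℝ) ≤ η₂ / 4 by positivity)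
      unfold Pb
      refine Finset.sum_eq_zero fun ω _ => ?_
      by_cases h2 : 0 < q ω
      · rw [if_neg fun h => h h2]
      · have h3 : q ω = 0 := le_antisymm (not_lt.1 h2) (hq.nonneg ω)
        rw [if_pos h2, h3]
    · rw [hx₂]
      refine le_trans ?_ hLx
      refine mul_le_mul_of_nonneg_right ?_ hx0
      rw [hC]
      linarith
    · -- the value at a sample
      simp only
      rw [grd_eval, hFF]
      simp only
      rw [Pool.SYS35.eval_bind]
      obtain ⟨y, hy⟩ : ∃ y : ℕ → ℝ, y = fun j => if j = 0 then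
          (2 : ℝ) ^ w k' * (X ω 0 - τ k' (lw k' ω)) else yy i j := ⟨_, rfl⟩
      rw [← hy]
      obtain ⟨b, hb⟩ : ∃ b : ℕ → ℝ, b = fun j => eval y (nuc (tus (w k') (g k'))
          (tub (τ k' (lw k' ω)) (H k' (lw k' ω))) j) := ⟨_, rfl⟩
      have hTt := tub_tri (τ := τ k' (lw k' ω)) (hTH k' (lw k' ω))
      have hnc := CLO.nc_nuc hTt (tus (w k') (g k')) y
      rw [← hb] at hnc
      have hb0 : b 0 = X ω 0 := by
        have h2 := congrFun hnc 0
        unfold CLO.nc at h2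
        rw [tub_zero, eval_C, tus_zero, hy] at h2
        simp only [if_true] at h2
        have h3 : (2 : ℝ) ^ w k' ≠ 0 := by positivity
        have h4 := mul_left_cancel₀ h3 h2
        linarith
      have hbx : ∀ j, 1 ≤ j → j < l → |b j - eval b (H k' (lw k' ω) j)| ≤ 1 / 2 ^ g k' j := by
        intro j hj1 hj
        have h2 := CLO.nc_le (ρ := 1) (g := tus (w k') (g k'))
          (Φ := tub (τ k' (lw k' ω)) (H k' (lw k' ω))) (b := b) (j := j)
        rw [hnc, tus_pos _ _ hj1, tub_pos _ _ hj1] at h2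
        refine h2.1 ?_
        rw [hy]
        simp only
        rw [if_neg (by omega)]
        exact hyy1 i j
      have e1 : eval (fun j => eval y (nuc (tus (w k') (g k'))
          (tub (τ k' (lw k' ω)) (H k' (lw k' ω))) j)) (H k' (lw k' ω) l - H k (lw k ω) l) =
          eval b (H k' (lw k' ω) l) - eval b (H k (lw k ω) l) := by
        rw [← hb, map_sub]
      rw [e1]
      exact hsl ω hω0 k' hk' k hk l hl1 hl b hb0 hbx
  -- the union
  obtain ⟨s, hs⟩ : ∃ s : Finset (ℕ × ℕ × ℕ × (Fin n → Fin (K₂ + 1))), s = ((range (m + 1)) ×ˢ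
      ((range (m + 1)) ×ˢ ((range (n + 1)) ×ˢ (Finset.univ)))).filter
        fun x => x.2.1 < x.1 ∧ 1 ≤ x.2.2.1 := ⟨_, rfl⟩
  have hcard : (s.card : ℝ) ≤ N := by
    have h1 : s.card ≤ N := by
      rw [hs, hN]
      refine (Finset.card_filter_le _ _).trans (le_of_eq ?_)
      rw [Finset.card_product, Finset.card_product, Finset.card_product, card_range, card_range,
        Finset.card_univ]
    exact_mod_cast h1
  obtain ⟨Bd, hBd⟩ : ∃ Bd : (ℕ × ℕ × ℕ × (Fin n → Fin (K₂ + 1))) → Ω → Prop, Bd = fun x' ω =>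
      ¬ ∀ b : ℕ → ℝ, |b 0 - τ x'.1 (lw x'.1 ω)| ≤ 1 / 2 ^ w x'.1 →
        |eval b (grd (w x'.1) (τ x'.1 (lw x'.1 ω)) (yy x'.2.2.2)
          (FF x'.1 x'.2.1 x'.2.2.1 (lw x'.1 ω, lw x'.2.1 ω)))| ≤
          Real.exp (N * C₂ * x) * (Real.exp u / 2 ^ g x'.2.1 x'.2.2.1) := ⟨_, rfl⟩
  have hsum : Pb q (fun ω => ∃ x' ∈ s, Bd x' ω) ≤ η := by
    have h1 := pb_ex hq.nonneg s Bd
    have h2 : ∑ x' ∈ s, Pb q (Bd x') ≤ ∑ _x' ∈ s, η₂ := by
      refine Finset.sum_le_sum fun x' hx' => ?_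
      rw [hs] at hx'
      simp only [mem_filter, mem_product, mem_range] at hx'
      rw [hBd]
      exact one x'.1 (by omega) x'.2.1 (by omega) x'.2.2.1 (by omega) (by omega) x'.2.2.2
    rw [Finset.sum_const, nsmul_eq_mul] at h2
    have h3 : (s.card : ℝ) * η₂ ≤ N * η₂ := mul_le_mul_of_nonneg_right hcard hη₂0.le
    have h4 : N * η₂ = η := by
      rw [hη₂]
      field_simp
    linarith
  refine le_trans ?_ hsum
  refine Pool.Agent.H39.BFL.Pb_mono hq.nonneg (A' := fun ω => ∃ x' ∈ s, Bd x' ω)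
    fun ω hω hnot => ?_
  by_contra hB
  push Not at hB
  apply hnot
  intro k' hk' k hk l hl1 hl b hb
  have hTt := tub_tri (τ := τ k' (lw k' ω)) (hTH k' (lw k' ω))
  obtain ⟨y, hy⟩ : ∃ y : ℕ → ℝ, y = CLO.nc (tus (w k') (g k'))
    (tub (τ k' (lw k' ω)) (H k' (lw k' ω))) b := ⟨_, rfl⟩
  have hy0 : y 0 = (2 : ℝ) ^ w k' * (b 0 - τ k' (lw k' ω)) := by
    rw [hy]
    unfold CLO.nc
    rw [tub_zero, eval_C, tus_zero]
  have hF : eval b (H k' (lw k' ω) l) - eval b (H k (lw k ω) l) =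
      eval y (FF k' k l (lw k' ω, lw k ω)) := by
    rw [hFF, hy]
    simp only
    rw [← CLO.eval_nat hTt, map_sub]
  rw [hF]
  obtain ⟨v1, v2⟩ := hFFv k' k l hl (lw k' ω, lw k ω)
  have h3 := hgrid (FF k' k l (lw k' ω, lw k ω)) l
    (Real.exp (N * C₂ * x) * (Real.exp u / 2 ^ g k l)) (y 0) hl v1 v2 (fun i => ?_)
    y rfl fun j hj1 hj => ?_
  · refine h3.trans ?_
    rw [← mul_div_assoc, ← mul_div_assoc]
    refine div_le_div_of_nonneg_right ?_ (by positivity)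
    have e1 := le_expu hx1 (show 0 ≤ C₄ by linarith)
    calc C₄ * (Real.exp (N * C₂ * x) * Real.exp u)
        ≤ Real.exp (C₄ * x) * (Real.exp (N * C₂ * x) * Real.exp u) :=
          mul_le_mul_of_nonneg_right e1 (by positivity)
      _ = Real.exp (C₄ * x + (N * C₂ * x + u)) := by
          rw [← Real.exp_add, ← Real.exp_add]
      _ ≤ Real.exp (C * ((θ + 1) / η) + u) := by
          refine Real.exp_le_exp.2 ?_
          rw [← hx, hC]
          linarith
  · have h4 : ∀ x' ∈ s, ¬ Bd x' ω := hB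
    have h5 := h4 (k', k, l, i) (by
      rw [hs]
      simp only [mem_filter, mem_product, mem_range, mem_univ, and_true]
      omega)
    rw [hBd] at h5
    push Not at h5
    have h6 := h5 b (by
      have := hb 0 (by omega)
      rw [tub_zero, eval_C, tus_zero] at this
      exact this)
    rw [grd_eval] at h6
    simp only at h6
    rw [hy0]
    rw [hyy] at h6
    exact h6
  · rw [hy]
    exact CLO.nc_le.2 (hb j hj)

end Pool.TRC
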