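import Pool.Agent.H33.TRC.TrcP
import Pool.Agent.H33.TRC.Tub
import Pool.Agent.H63.STAT.CloF
import Pool.Agent.H31.STAT.TrcL

/-!
# Truncated sides of universal degree: the two sides of a level

Input: the raw two-sided levels `Lvl` of a family (levels `0, …, m`, the level `0` is constant).
* `side_G`: the point side of the level `j`, of degree at most `(S + 1) ^ (n + 1) ^ 2`;
* `side_H`: the line side of the level `j`, a function of the line in the window of the level `j`.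
-/

set_option autoImplicit false

namespace Pool.TRC

open Finset MvPolynomial
open Pool.Agent.H49.Ent Pool.Agent.H32.Dense Pool.STK Pool.KS3 Pool.KA Pool.KSAT Pool.PB Pool.GEN
open Pool.K2S Pool.STAT
open Pool.STAT.CLO (tp tl t_cell crs crs_eq tp_eq tl_eq)
open Pool.TRC31 (BxE)

/-- **Raw two-sided levels** `0, …, m`: radii `a k`, windows `w k`, precisions `g k`. -/
structure Lvl {d J : ℕ} (F : Fam d J) (e : ℕ → Fin d) (n K m : ℕ) (a w : ℕ → ℕ)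
    (g : ℕ → ℕ → ℕ) (h u s₀ : ℕ) (A : F.Ω → Prop) (G : ℕ → PtT F → ℕ → PN)
    (H : ℕ → LnT F → ℕ → PN) : Prop where
  aJ : ∀ k ≤ m, a k ≤ J
  wa : ∀ k ≤ m, w k ≤ a k
  wm : ∀ k < m, w k ≤ w (k + 1)
  mesh : ∀ k < m, a k ≤ a (k + 1) ∧ a (k + 1) ≤ a k + h
  law : ∀ k ≤ m, ∀ k' ≤ k, ∀ l, 1 ≤ l → l ≤ n → g k' l + a k ≤ g k l + a k' + u
  mono : ∀ k ≤ m, ∀ k' ≤ k, ∀ l, 1 ≤ l → l ≤ n → g k' l ≤ g k l
  triG : ∀ k y, TriN (G k y)
  degG : ∀ k y i, (G k y i).totalDegree ≤ K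
  triH : ∀ k s, TriN (H k s)
  degH : ∀ k s i, (H k s i).totalDegree ≤ K
  G_zero : ∀ k y, G k y 0 = MvPolynomial.C (tp (a k) y)
  G0 : ∀ y, ∃ κ : ℕ → ℝ, ∀ i, 1 ≤ i → G 0 y i = MvPolynomial.C (κ i)
  H0 : ∀ s, ∃ κ : ℕ → ℝ, ∀ i, 1 ≤ i → H 0 s i = MvPolynomial.C (κ i)
  pos : ∀ ω, A ω → ∀ k ≤ m, ∀ i, 1 ≤ i → i ≤ n →
    |cx F e ω i - eval (cx F e ω) (G k (ptr F J ω) i)| ≤ 1 / 2 ^ g k i
  agr : ∀ ω, A ω → ∀ k ≤ m, ∀ i, 1 ≤ i → i ≤ n → ∀ b : ℕ → ℝ,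
    Bx (tus (a k) (g k)) (G k (ptr F J ω)) i b →
    |eval b (G k (ptr F J ω) i) - eval b (H k (slam F (w k) ω) i)| ≤ 2 ^ s₀ / 2 ^ g k i
  uni : ∀ ω, A ω → ∀ k' ≤ m, ∀ k < k', ∀ i, 1 ≤ i → i ≤ n → ∀ b : ℕ → ℝ,
    Bx (tus (a k') (g k')) (G k' (ptr F J ω)) i b →
    |eval b (G k' (ptr F J ω) i) - eval b (G k (ptr F J ω) i)| ≤ 2 ^ u / 2 ^ g k i
  two : ∀ ω, A ω → ∀ k' ≤ m, ∀ k < k', ∀ i, 1 ≤ i → i ≤ n → ∀ b : ℕ → ℝ,
    Bx (tus (a k') (g k')) (G k' (ptr F J ω)) i b →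
    |eval b (G k (ptr F J ω) i) - eval b (H k (slam F (w k) ω) i)| ≤ 2 ^ u / 2 ^ g k i

/-- The slope against the level `j`. -/
def Slp (n S : ℕ) (a : ℕ → ℕ) (g : ℕ → ℕ → ℕ) (u j : ℕ) : Prop :=
  ∀ k ≤ j, ∀ l, 1 ≤ l → l ≤ n → g j l + S * a k ≤ g k l + S * a j + u

/-- The point `b` is in the wide boxes of all levels `≤ j` of the path, coordinates `≤ i`. -/
def InB {d J : ℕ} (F : Fam d J) (a : ℕ → ℕ) (g : ℕ → ℕ → ℕ) (u j : ℕ) (ω : F.Ω)
    (P : ℕ → ℕ → PN) (i : ℕ) (b : ℕ → ℝ) : Prop :=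
  |b 0 - (F.T1 (a j) ω : ℝ) / 2 ^ a j| ≤ 1 / 2 ^ a j ∧
    ∀ k ≤ j, ∀ l, 1 ≤ l → l ≤ i → |b l - eval b (P k l)| ≤ 2 ^ (u + 1) / 2 ^ g k l

section

variable {d J : ℕ} {F : Fam d J} {e : ℕ → Fin d} {n K m S : ℕ} {a w : ℕ → ℕ} {g : ℕ → ℕ → ℕ}
  {h u s₀ : ℕ} {A : F.Ω → Prop} {G : ℕ → PtT F → ℕ → PN} {H : ℕ → LnT F → ℕ → PN}

theorem tus_sde (σ : ℝ) (w : ℕ) (g : ℕ → ℕ) {i : ℕ} (hi : 1 ≤ i) :
    sde σ (tus w g) i = (g i : ℝ) * Real.log 2 - σ := by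
  rw [sde_pos _ _ hi, tus_pos _ _ hi]

theorem tus_sde0 (σ : ℝ) (w : ℕ) (g : ℕ → ℕ) : sde σ (tus w g) 0 = (w : ℝ) * Real.log 2 := by
  rw [sde_zero, tus_zero]

theorem cx0 (ω : F.Ω) : cx F e ω 0 = F.t ω := if_pos rfl

/-- Cells of the time are nested. -/
theorem nest (F : Fam d J) {w w' : ℕ} (hw : w ≤ w') (hw' : w' ≤ J) (ω : F.Ω) {x : ℝ}
    (hx : |x - (F.T1 w' ω : ℝ) / 2 ^ w'| ≤ 1 / 2 ^ w') :
    |x - (F.T1 w ω : ℝ) / 2 ^ w| ≤ 1 / 2 ^ w := by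
  have e1 : F.T1 w ω = F.T1 w' ω / 2 ^ (w' - w) := by
    unfold Fam.T1
    rw [Nat.div_div_eq_div_mul, ← pow_add]
    congr 2
    omega
  have h1 : F.T1 w ω * 2 ^ (w' - w) ≤ F.T1 w' ω := by
    rw [e1]
    exact Nat.div_mul_le_self _ _
  have h2 : F.T1 w' ω + 1 ≤ (F.T1 w ω + 1) * 2 ^ (w' - w) := by
    rw [e1]
    have := Nat.lt_div_mul_add (a := F.T1 w' ω) (b := 2 ^ (w' - w)) (by positivity)
    rw [Nat.add_mul, Nat.one_mul]
    exact this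
  have h3 : (2 : ℝ) ^ w' = 2 ^ (w' - w) * 2 ^ w := by
    rw [← pow_add, Nat.sub_add_cancel hw]
  have h1' : (F.T1 w ω : ℝ) * 2 ^ (w' - w) ≤ F.T1 w' ω := by exact_mod_cast h1
  have h2' : (F.T1 w' ω : ℝ) + 1 ≤ (F.T1 w ω + 1) * 2 ^ (w' - w) := by exact_mod_cast h2
  have p1 : (0 : ℝ) < 2 ^ w' := by positivity
  have p2 : (0 : ℝ) < 2 ^ w := by positivity
  have p3 : (0 : ℝ) < 2 ^ (w' - w) := by positivity
  have k1 : (F.T1 w ω : ℝ) / 2 ^ w ≤ F.T1 w' ω / 2 ^ w' := by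
    rw [div_le_div_iff₀ p2 p1, h3]
    nlinarith
  have k2 : (F.T1 w' ω : ℝ) / 2 ^ w' + 1 / 2 ^ w' ≤ F.T1 w ω / 2 ^ w + 1 / 2 ^ w := by
    rw [← add_div, ← add_div, div_le_div_iff₀ p1 p2, h3]
    nlinarith
  have k3 : (1 : ℝ) / 2 ^ w' ≤ 1 / 2 ^ w :=
    one_div_le_one_div_of_le p2 (pow_le_pow_right₀ (by norm_num) hw)
  rw [abs_le] at hx ⊢
  constructor <;> linarith [hx.1, hx.2]

/-- The sample is in its natural box. -/
theorem Lvl.own (L : Lvl F e n K m a w g h u s₀ A G H) {ω : F.Ω} (hω : A ω) {k : ℕ}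
    (hk : k ≤ m) : Bx (tus (a k) (g k)) (G k (ptr F J ω)) (n + 1) (cx F e ω) := by
  intro i hi
  rcases Nat.eq_zero_or_pos i with rfl | h1
  · rw [L.G_zero, eval_C, tp_eq, cx0, tus_zero]
    exact t_cell F (L.aJ k hk) ω
  · rw [tus_pos _ _ h1]
    exact L.pos ω hω k hk i h1 (by omega)

theorem Lvl.amono (L : Lvl F e n K m a w g h u s₀ A G H) {k k' : ℕ} (hk : k' ≤ k)
    (hm : k ≤ m) : a k' ≤ a k := by
  induction k with
  | zero =>
    have : k' = 0 := by omega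
    rw [this]
  | succ k ih =>
    rcases Nat.lt_or_ge k' (k + 1) with h1 | h1
    · exact (ih (by omega) (by omega)).trans (L.mesh k (by omega)).1
    · have : k' = k + 1 := by omega
      rw [this]

/-- The numerical conditions of the telescope. -/
theorem Lvl.num (L : Lvl F e n K m a w g h u s₀ A G H) {j : ℕ} (hj : j ≤ m)
    (hs : Slp n S a g u j) (σ x : ℝ) (hx : (u : ℝ) * Real.log 2 ≤ x) (w₁ : ℕ → ℕ) :
    (∀ k < j, (a k : ℝ) * Real.log 2 ≤ a (k + 1) * Real.log 2 ∧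
      (a (k + 1) : ℝ) * Real.log 2 - a k * Real.log 2 ≤ h * Real.log 2) ∧
    (∀ k ≤ j, ∀ k' ≤ k, ∀ l, 1 ≤ l → l < n + 1 → (a k : ℝ) * Real.log 2 - a k' * Real.log 2 - x ≤
      sde σ (tus (w₁ k) (g k)) l - sde σ (tus (w₁ k') (g k')) l) ∧
    (∀ k ≤ j, ∀ l, 1 ≤ l → l < n + 1 → sde σ (tus (w₁ j) (g j)) l - sde σ (tus (w₁ k) (g k)) l ≤
      S * ((a j : ℝ) * Real.log 2 - a k * Real.log 2) + x) := by
  have hl : 0 < Real.log 2 := Real.log_pos (by norm_num)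
  refine ⟨fun k hk => ?_, fun k hk k' hk' l h1 h2 => ?_, fun k hk l h1 h2 => ?_⟩
  · obtain ⟨h1, h2⟩ := L.mesh k (by omega)
    have h1' : (a k : ℝ) ≤ a (k + 1) := by exact_mod_cast h1
    have h2' : (a (k + 1) : ℝ) ≤ a k + h := by exact_mod_cast h2
    refine ⟨mul_le_mul_of_nonneg_right h1' hl.le, ?_⟩
    have := mul_le_mul_of_nonneg_right h2' hl.le
    linarith
  · have h3 := L.law k (hk.trans hj) k' hk' l h1 (by omega)
    have h3' : (g k' l : ℝ) + a k ≤ g k l + a k' + u := by exact_mod_cast h3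
    rw [tus_sde _ _ _ h1, tus_sde _ _ _ h1]
    have := mul_le_mul_of_nonneg_right h3' hl.le
    linarith
  · have h3 := hs k hk l h1 (by omega)
    have h3' : (g j l : ℝ) + S * a k ≤ g k l + S * a j + u := by exact_mod_cast h3
    rw [tus_sde _ _ _ h1, tus_sde _ _ _ h1]
    have := mul_le_mul_of_nonneg_right h3' hl.le
    linarith

end

theorem sum_mono {f : ℕ → ℝ} (hf : ∀ j, 0 ≤ f j) {j m : ℕ} (hj : j ≤ m) :
    f j ≤ ∑ i ∈ range (m + 1), f i :=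
  Finset.single_le_sum (fun i _ => hf i) (mem_range.2 (by omega))

/-- **The truncated point side.** -/
theorem side_G (n S : ℕ) (hS : 1 ≤ S) : ∃ c : ℝ, 0 ≤ c ∧ ∀ K m : ℕ, ∃ C : ℝ, 0 ≤ C ∧
    ∀ (d J : ℕ) (F : Fam d J) (e : ℕ → Fin d) (a w : ℕ → ℕ) (g : ℕ → ℕ → ℕ)
    (h u s₀ : ℕ) (A : F.Ω → Prop) (G : ℕ → PtT F → ℕ → PN) (H : ℕ → LnT F → ℕ → PN),
    Lvl F e n K m a w g h u s₀ A G H → ∀ j ≤ m, Slp n S a g u j →
    ∃ Q : PtT F → ℕ → PN, (∀ y, TriN (Q y)) ∧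
      (∀ y i, (Q y i).totalDegree ≤ (S + 1) ^ (n + 1) ^ 2) ∧ ∀ ω, A ω → ∀ i, 1 ≤ i → i ≤ n →
      |cx F e ω i - eval (cx F e ω) (Q (ptr F J ω) i)| ≤
        Real.exp (c * (h + u) + C) / 2 ^ g j i ∧
      (∀ b : ℕ → ℝ, InB F a g u j ω (fun k => G k (ptr F J ω)) i b →
        |b i - eval b (Q (ptr F J ω) i)| ≤ Real.exp (c * (h + u) + C) / 2 ^ g j i) ∧
      ∀ b : ℕ → ℝ, Bx (tus (a j) (g j)) (G j (ptr F J ω)) i b →
        |eval b (G j (ptr F J ω) i) - eval b (Q (ptr F J ω) i)| ≤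
          Real.exp (c * (h + u) + C) / 2 ^ g j i := by
  obtain ⟨c, hc, hcls⟩ := trc_cls (n + 1) S hS
  refine ⟨c, hc, fun K m => ?_⟩
  choose Cf hCf0 hCf using fun j => hcls K j
  refine ⟨∑ i ∈ range (m + 1), Cf i + c, add_nonneg (Finset.sum_nonneg fun i _ => hCf0 i) hc, ?_⟩
  intro d J F e a w g h u s₀ A G H L j hj hs
  have hl : 0 < Real.log 2 := Real.log_pos (by norm_num)
  have hl1 : Real.log 2 ≤ 1 := by
    have := Real.log_two_lt_d9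
    linarith
  obtain ⟨n1, n2, n3⟩ := L.num hj hs (Real.log 1) ((u + 1 : ℕ) * Real.log 2)
    (mul_le_mul_of_nonneg_right (by push_cast; linarith) hl.le) a
  obtain ⟨Q, hQ1, hQ2, -, hQ⟩ := hCf j F.Ω (PtT F) (h * Real.log 2) ((u + 1 : ℕ) * Real.log 2) A (cx F e)
    (fun _ ω => ptr F J ω) G (fun k => sde (Real.log 1) (tus (a k) (g k)))
    (fun k => (a k : ℝ) * Real.log 2)
    { h0 := by positivity
      A0 := by positivity
      tri := L.triG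
      deg := L.degG
      zero := L.G0
      box := fun ω hω k hk => bxe_one.2 (L.own hω (hk.trans hj))
      mesh := n1
      law := n2
      slope := n3
      time := fun k hk => by rw [tus_sde0, tus_sde0]
      uni := fun ω hω k' hk' k hk l h1 h2 b hb => by
        rw [exp_sde 1 one_pos _ h1, exp_nlog, mul_one, tus_pos _ _ h1]
        refine (L.uni ω hω k' (hk'.trans hj) k hk l h1 (by omega) b (bxe_one.1 hb)).trans
          (div_le_div_of_nonneg_right (pow_le_pow_right₀ (by norm_num) (Nat.le_succ u))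
            (by positivity)) }
  refine ⟨fun y => Q (fun _ => y), fun y => hQ1 _, fun y i => hQ2 _ i, fun ω hω i h1 hi => ?_⟩
  obtain ⟨k1, k3, k2⟩ := hQ ω hω
  have hloss : Real.exp (c * (h * Real.log 2 + (u + 1 : ℕ) * Real.log 2) + Cf j -
      sde (Real.log 1) (tus (a j) (g j)) i) ≤
      Real.exp (c * (h + u) + (∑ i ∈ range (m + 1), Cf i + c)) / 2 ^ g j i := by
    rw [exp_sde 1 one_pos _ h1, mul_one, tus_pos _ _ h1]
    refine div_le_div_of_nonneg_right (Real.exp_le_exp.2 ?_) (by positivity)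
    have e1 := sum_mono hCf0 hj
    have e2 : c * (h * Real.log 2 + (u + 1 : ℕ) * Real.log 2) ≤ c * (h + u) + c := by
      have e3 : (0 : ℝ) ≤ h := Nat.cast_nonneg h
      have e4 : (0 : ℝ) ≤ u := Nat.cast_nonneg u
      have e5 : h * Real.log 2 + (u + 1 : ℕ) * Real.log 2 ≤ h + u + 1 := by
        push_cast
        nlinarith
      have e6 := mul_le_mul_of_nonneg_left e5 hc
      linarith
    linarith
  refine ⟨(k1 i (by omega)).trans hloss, fun b hb => (k3 b i (by omega) fun k hk l hl => ?_).trans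
    hloss, fun b hb => (k2 i h1 (by omega) b (bxe_one.2 hb)).trans hloss⟩
  rcases Nat.eq_zero_or_pos l with rfl | hl1
  · rw [L.G_zero, eval_C, tp_eq, tus_sde0]
    refine (nest F (L.amono hk hj) (L.aJ j hj) ω hb.1).trans ?_
    rw [← exp_neg_nlog]
    refine Real.exp_le_exp.2 ?_
    have : 0 ≤ ((u + 1 : ℕ) : ℝ) * Real.log 2 := by positivity
    linarith
  · rw [exp_sde 1 one_pos _ hl1, exp_nlog, mul_one, tus_pos _ _ hl1]
    exact hb.2 k hk l hl1 hl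

/-- The line sides of two levels. -/
theorem pair_two (n K : ℕ) : ∃ c : ℕ, 1 ≤ c ∧ ∀ (m d J : ℕ) (F : Fam d J) (e : ℕ → Fin d)
    (a w : ℕ → ℕ) (g : ℕ → ℕ → ℕ) (h u s₀ : ℕ) (A : F.Ω → Prop)
    (G : ℕ → PtT F → ℕ → PN) (H : ℕ → LnT F → ℕ → PN), Lvl F e n K m a w g h u s₀ A G H →
    ∀ ω, A ω → ∀ k' ≤ m, ∀ k < k', ∀ i, 1 ≤ i → i ≤ n → ∀ b : ℕ → ℝ,
    CLO.Bxr (2 * 2 ^ s₀) (tus (a k') (g k')) (tub (tl (a k') (slam F (a k') ω))
      (H k' (slam F (w k') ω))) i b →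
    |eval b (H k' (slam F (w k') ω) i) - eval b (H k (slam F (w k) ω) i)| ≤
      (c * 2 ^ s₀) ^ c * (2 ^ s₀ * 2 ^ u) / 2 ^ g k i := by
  obtain ⟨c, hc, hp⟩ := pairH n K
  refine ⟨c, hc, ?_⟩
  intro m d J F e a w g h u s₀ A G H L ω hω k' hk' k hk i h1 hi b hb
  have e1 : (1 : ℝ) ≤ 2 ^ s₀ := one_le_pow₀ (by norm_num)
  have e2 : (1 : ℝ) ≤ 2 ^ u := one_le_pow₀ (by norm_num)
  have h2 := hp (G k (ptr F J ω)) (G k' (ptr F J ω)) (H k (slam F (w k) ω))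
    (tub (tl (a k') (slam F (a k') ω)) (H k' (slam F (w k') ω)))
    (tus (a k) (g k)) (tus (a k') (g k')) (2 ^ s₀) (2 ^ s₀ * 2 ^ u) (L.triG _ _) (L.triG _ _)
    (L.triH _ _) (tub_tri (L.triH _ _)) (L.degG _ _) (L.degG _ _) (L.degH _ _)
    (tub_deg (L.degH _ _)) e1 (by nlinarith) ?_ ?_ ?_ ?_ ?_ i h1 hi b hb
  · rw [tub_pos _ _ h1, tus_pos _ _ h1] at h2
    exact h2
  · rw [tub_zero, L.G_zero, tp_eq, tl_eq]
  · intro i h1 hi
    rw [tus_pos _ _ h1, tus_pos _ _ h1]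
    exact L.mono k' hk' k hk.le i h1 hi
  · intro i h1 hi b hb
    rw [tub_pos _ _ h1, tus_pos _ _ h1, abs_sub_comm]
    exact L.agr ω hω k' hk' i h1 hi b hb
  · intro i h1 hi b hb
    rw [tus_pos _ _ h1]
    refine (L.uni ω hω k' hk' k hk i h1 hi b hb).trans
      (div_le_div_of_nonneg_right ?_ (by positivity))
    nlinarith
  · intro i h1 hi b hb
    rw [tus_pos _ _ h1]
    refine (L.two ω hω k' hk' k hk i h1 hi b hb).trans
      (div_le_div_of_nonneg_right ?_ (by positivity))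
    nlinarith

/-- From the natural box of the point side to the wide tube of the line side. -/
theorem Lvl.toH {d J : ℕ} {F : Fam d J} {e : ℕ → Fin d} {n K m : ℕ} {a w : ℕ → ℕ}
    {g : ℕ → ℕ → ℕ} {h u s₀ : ℕ} {A : F.Ω → Prop} {G : ℕ → PtT F → ℕ → PN}
    {H : ℕ → LnT F → ℕ → PN} (L : Lvl F e n K m a w g h u s₀ A G H) {ω : F.Ω} (hω : A ω)
    {k : ℕ} (hk : k ≤ m) {i : ℕ} (hi : i ≤ n + 1) {b : ℕ → ℝ}
    (hb : Bx (tus (a k) (g k)) (G k (ptr F J ω)) i b) :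
    (0 < i → |b 0 - (F.T1 (a k) ω : ℝ) / 2 ^ a k| ≤ 1 / 2 ^ a k) ∧ ∀ j, 1 ≤ j → j < i →
      |b j - eval b (H k (slam F (w k) ω) j)| ≤ (2 * 2 ^ s₀) / 2 ^ g k j := by
  refine ⟨fun h0 => ?_, fun j h1 hj => ?_⟩
  · have h2 := hb 0 h0
    rw [L.G_zero, eval_C, tp_eq, tus_zero] at h2
    exact h2
  · have h2 := hb j hj
    rw [tus_pos _ _ h1] at h2
    have h3 := L.agr ω hω k hk j h1 (by omega) b fun l hl => hb l (by omega)
    have h4 : |b j - eval b (H k (slam F (w k) ω) j)| ≤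
        |b j - eval b (G k (ptr F J ω) j)| + |eval b (G k (ptr F J ω) j) -
          eval b (H k (slam F (w k) ω) j)| := by
      have := abs_add_le (b j - eval b (G k (ptr F J ω) j)) (eval b (G k (ptr F J ω) j) -
          eval b (H k (slam F (w k) ω) j))
      rwa [sub_add_sub_cancel] at this
    have e1 : (1 : ℝ) ≤ 2 ^ s₀ := one_le_pow₀ (by norm_num)
    refine (h4.trans (add_le_add h2 h3)).trans ?_
    rw [← add_div]
    exact div_le_div_of_nonneg_right (by linarith) (by positivity)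

theorem pow_twos (s₀ u : ℕ) (c : ℕ) (hc : 1 ≤ c) : ((c : ℝ) * 2 ^ s₀) ^ c * (2 ^ s₀ * 2 ^ u) =
    Real.exp ((u : ℝ) * Real.log 2 + Real.log (((c : ℝ) * 2 ^ s₀) ^ c * 2 ^ s₀)) := by
  have h1 : (0 : ℝ) < ((c : ℝ) * 2 ^ s₀) ^ c * 2 ^ s₀ := by positivity
  rw [Real.exp_add, Real.exp_log h1, exp_nlog]
  ring

/-- **The truncated line side** of a level, in the window of the level. -/
theorem side_H (n S : ℕ) (hS : 1 ≤ S) : ∃ c : ℝ, 0 ≤ c ∧ ∀ K m s₀ : ℕ, ∃ C : ℝ, 0 ≤ C ∧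
    ∀ (d J : ℕ) (F : Fam d J) (e : ℕ → Fin d) (a w : ℕ → ℕ) (g : ℕ → ℕ → ℕ)
    (h u : ℕ) (A : F.Ω → Prop) (G : ℕ → PtT F → ℕ → PN) (H : ℕ → LnT F → ℕ → PN),
    Lvl F e n K m a w g h u s₀ A G H → ∀ j ≤ m, Slp n S a g u j →
    ∃ Q : LnT F → ℕ → PN, (∀ s, TriN (Q s)) ∧
      (∀ s i, (Q s i).totalDegree ≤ (S + 1) ^ (n + 1) ^ 2) ∧ ∀ ω, A ω → ∀ i, 1 ≤ i → i ≤ n →
      (∀ b : ℕ → ℝ, InB F a g u j ω (fun k => H k (slam F (w k) ω)) i b →
        |b i - eval b (Q (slam F (a j) ω) i)| ≤ Real.exp (c * (h + u) + C) / 2 ^ g j i) ∧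
      ∀ b : ℕ → ℝ, Bx (tus (a j) (g j)) (G j (ptr F J ω)) i b →
        |eval b (H j (slam F (w j) ω) i) - eval b (Q (slam F (a j) ω) i)| ≤
          Real.exp (c * (h + u) + C) / 2 ^ g j i := by
  obtain ⟨c, hc, hcls⟩ := trc_cls (n + 1) S hS
  refine ⟨c, hc, fun K m s₀ => ?_⟩
  choose Cf hCf0 hCf using fun j => hcls K j
  obtain ⟨c₁, hc₁, hpair⟩ := pair_two n K
  obtain ⟨ρ, hρ⟩ : ∃ ρ : ℝ, ρ = 2 * 2 ^ s₀ := ⟨_, rfl⟩
  have e1 : (1 : ℝ) ≤ 2 ^ s₀ := one_le_pow₀ (by norm_num)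
  have hρ1 : 1 ≤ ρ := by rw [hρ]; linarith
  have hρ0 : 0 < ρ := by linarith
  have hl : 0 < Real.log 2 := Real.log_pos (by norm_num)
  have hl1 : Real.log 2 ≤ 1 := by
    have := Real.log_two_lt_d9
    linarith
  obtain ⟨y₀, hy₀⟩ : ∃ y : ℝ, y = Real.log (((c₁ : ℝ) * 2 ^ s₀) ^ c₁ * 2 ^ s₀) := ⟨_, rfl⟩
  have hy00 : 0 ≤ y₀ := by
    rw [hy₀]
    refine Real.log_nonneg ?_
    have e2 : (1 : ℝ) ≤ c₁ := by exact_mod_cast hc₁
    have e3 : (1 : ℝ) ≤ ((c₁ : ℝ) * 2 ^ s₀) ^ c₁ := one_le_pow₀ (by nlinarith)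
    nlinarith
  obtain ⟨y, hy⟩ : ∃ y : ℝ, y = y₀ + Real.log 2 := ⟨_, rfl⟩
  have hy0 : 0 ≤ y := by rw [hy]; positivity
  refine ⟨∑ i ∈ range (m + 1), Cf i + c * y + Real.log ρ, ?_, ?_⟩
  · have h1 := Finset.sum_nonneg (s := range (m + 1)) fun i _ => hCf0 i
    have h2 := Real.log_nonneg hρ1
    positivity
  intro d J F e a w g h u A G H L j hj hs
  obtain ⟨P, hP⟩ : ∃ P : ℕ → LnT F → ℕ → PN, P = fun k s =>
      tub (tl (a k) s) (H k (crs (w k) (a k) s)) := ⟨_, rfl⟩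
  have hPk : ∀ k ≤ m, ∀ ω, P k (slam F (a k) ω) = tub (tl (a k) (slam F (a k) ω))
      (H k (slam F (w k) ω)) := by
    intro k hk ω
    rw [hP]
    simp only
    rw [crs_eq F (L.wa k hk) (L.aJ k hk) ω]
  have htoE : ∀ ω, A ω → ∀ k ≤ m, ∀ i ≤ n + 1, ∀ b : ℕ → ℝ,
      Bx (tus (a k) (g k)) (G k (ptr F J ω)) i b →
      BxE (sde (Real.log ρ) (tus (a k) (g k))) (P k (slam F (a k) ω)) i b := by
    intro ω hω k hk i hi b hb
    obtain ⟨h1, h2⟩ := L.toH hω hk hi hb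
    rw [hPk k hk, bxe_iff hρ0]
    refine ⟨fun h0 => ?_, fun j hj1 hj => ?_⟩
    · rw [tub_zero, eval_C, tl_eq, tus_zero]
      exact h1 h0
    · rw [tub_pos _ _ hj1, tus_pos _ _ hj1, hρ]
      exact h2 j hj1 hj
  obtain ⟨n1, n2, n3⟩ := L.num hj hs (Real.log ρ) (u * Real.log 2 + y) (by linarith) a
  obtain ⟨Q, hQ1, hQ2, hQ3, hQ⟩ := hCf j F.Ω (LnT F) (h * Real.log 2) (u * Real.log 2 + y) A
    (cx F e) (fun k ω => slam F (a k) ω) P (fun k => sde (Real.log ρ) (tus (a k) (g k)))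
    (fun k => (a k : ℝ) * Real.log 2)
    { h0 := by positivity
      A0 := by positivity
      tri := fun k s => by
        rw [hP]
        exact tub_tri (L.triH _ _)
      deg := fun k s i => by
        rw [hP]
        exact tub_deg (L.degH _ _) i
      zero := fun s => by
        obtain ⟨κ, hκ⟩ := L.H0 (crs (w 0) (a 0) s)
        refine ⟨κ, fun i hi => ?_⟩
        rw [hP]
        simp only
        rw [tub_pos _ _ hi]
        exact hκ i hi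
      box := fun ω hω k hk => htoE ω hω k (hk.trans hj) (n + 1) le_rfl _
        (L.own hω (hk.trans hj))
      mesh := n1
      law := n2
      slope := n3
      time := fun k hk => by rw [tus_sde0, tus_sde0]
      uni := fun ω hω k' hk' k hk l h1 h2 b hb => by
        rw [hPk k' (hk'.trans hj)] at hb ⊢
        rw [hPk k (by omega), tub_pos _ _ h1, tub_pos _ _ h1, exp_sde ρ hρ0 _ h1,
          tus_pos _ _ h1]
        have hb' := bxe_bxr hρ1 hb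
        rw [hρ] at hb'
        refine (hpair m d J F e a w g h u s₀ A G H L ω hω k' (hk'.trans hj) k hk l h1
          (by omega) b hb').trans ?_
        rw [pow_twos s₀ u c₁ hc₁, ← hy₀]
        refine div_le_div_of_nonneg_right ?_ (by positivity)
        have e3 : Real.exp ((u : ℝ) * Real.log 2 + y₀) ≤ Real.exp ((u : ℝ) * Real.log 2 + y) :=
          Real.exp_le_exp.2 (by linarith)
        have := Real.exp_pos ((u : ℝ) * Real.log 2 + y)
        nlinarith }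
  refine ⟨fun s => Q (fun k => crs (a k) (a j) s), fun s => hQ1 _, fun s i => hQ2 _ i,
    fun ω hω i h1 hi => ?_⟩
  obtain ⟨-, k3, k2⟩ := hQ ω hω
  have h4 : Q (fun k => slam F (a k) ω) = Q (fun k => crs (a k) (a j) (slam F (a j) ω)) :=
    hQ3 _ _ fun k hk => (crs_eq F (L.amono hk hj) (L.aJ j hj) ω).symm
  have hloss : Real.exp (c * (h * Real.log 2 + (u * Real.log 2 + y)) + Cf j -
      sde (Real.log ρ) (tus (a j) (g j)) i) ≤
      Real.exp (c * (h + u) + (∑ i ∈ range (m + 1), Cf i + c * y + Real.log ρ)) / 2 ^ g j i := by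
    rw [exp_sde ρ hρ0 _ h1, tus_pos _ _ h1]
    refine div_le_div_of_nonneg_right ?_ (by positivity)
    have h5 : Real.exp (c * (h * Real.log 2 + (u * Real.log 2 + y)) + Cf j) * ρ =
        Real.exp (c * (h * Real.log 2 + (u * Real.log 2 + y)) + Cf j + Real.log ρ) := by
      rw [Real.exp_add _ (Real.log ρ), Real.exp_log hρ0]
    rw [h5]
    refine Real.exp_le_exp.2 ?_
    have e4 := sum_mono hCf0 hj
    have e5 : c * (h * Real.log 2 + u * Real.log 2) ≤ c * (h + u) := by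
      refine mul_le_mul_of_nonneg_left ?_ hc
      have e3 : (0 : ℝ) ≤ h := Nat.cast_nonneg h
      have e4 : (0 : ℝ) ≤ u := Nat.cast_nonneg u
      nlinarith
    linarith
  refine ⟨fun b hb => ?_, fun b hb => ?_⟩
  · have h3 := k3 b i (by omega) fun k hk l hl' => by
      rw [hPk k (hk.trans hj)]
      rcases Nat.eq_zero_or_pos l with rfl | hl1
      · rw [tub_zero, eval_C, tl_eq, tus_sde0]
        refine (nest F (L.amono hk hj) (L.aJ j hj) ω hb.1).trans ?_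
        rw [← exp_neg_nlog]
        refine Real.exp_le_exp.2 ?_
        have : 0 ≤ (u : ℝ) * Real.log 2 + y := by positivity
        linarith
      · rw [tub_pos _ _ hl1, exp_sde ρ hρ0 _ hl1, tus_pos _ _ hl1]
        refine (hb.2 k hk l hl1 hl').trans (div_le_div_of_nonneg_right ?_ (by positivity))
        have e3 : (2 : ℝ) ^ (u + 1) ≤ Real.exp (u * Real.log 2 + y) := by
          rw [← exp_nlog]
          refine Real.exp_le_exp.2 ?_
          push_cast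
          linarith
        have := Real.exp_pos ((u : ℝ) * Real.log 2 + y)
        nlinarith
    rw [h4] at h3
    exact h3.trans hloss
  · have h3 := k2 i h1 (by omega) b (htoE ω hω j hj i (by omega) b hb)
    rw [h4, hPk j hj, tub_pos _ _ h1] at h3
    exact h3.trans hloss

end Pool.TRC
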