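import Pool.Agent.H33.TRC.TrcF
import Pool.Agent.H90.STAT.CloT
import Pool.Agent.H63.STAT.VarT
import Pool.Agent.H2.GEN.AttF3

/-!
# From chains of two-sided labels to raw levels

`Jat`: chains of two-sided labels for several radii and windows, with the comparisons on the finer
natural boxes. `lvl_of`: the raw levels `Lvl`; the level `0` consists of constants.
-/

set_option autoImplicit false

namespace Pool.TRC

open Finset MvPolynomial
open Pool.Agent.H49.Ent Pool.Agent.H32.Dense Pool.STK Pool.KS3 Pool.KA Pool.KSAT Pool.PB Pool.GEN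
open Pool.K2S Pool.STAT
open Pool.STAT.CLO (tp tl t_cell crs crs_eq tp_eq tl_eq Raw Inj tr sy gg Gs Hs vr dil sy_tri sy_deg
  nbx_of_bxr bxr_cell tr_vars tr_deg pos_of raw_of)

/-- **Chains of two-sided labels for the levels `k < N`**, radii `al k`, windows `om k`. -/
structure Jat {d J : ℕ} (F : Fam d J) (c : ℕ → Fin d) (n K N : ℕ) (al om : ℕ → ℕ) (ee : ℕ)
    (g : ℕ → ℕ → ℕ) (u : ℕ) (A : F.Ω → Prop)
    (G : ℕ → PtT F → ℕ → MvPolynomial (Option (Fin d)) ℝ)
    (H : ℕ → LnT F → ℕ → MvPolynomial (Option (Fin d)) ℝ) : Prop where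
  ok : ∀ k < N, ChOK F c n (fun _ => K) (al k) (om k) ee (g k) A (G k) (H k)
  uni : ∀ ω, A ω → ∀ k' < N, ∀ k < k', ∀ l < n, ∀ b : Option (Fin d) → ℝ,
    NBx c (G k' (ptr F J ω)) (g k') (al k') (F.t ω) l b →
    |eval b (G k' (ptr F J ω) l) - eval b (G k (ptr F J ω) l)| ≤ 2 ^ u / 2 ^ g k l
  two : ∀ ω, A ω → ∀ k' < N, ∀ k < k', ∀ l < n, ∀ b : Option (Fin d) → ℝ,
    NBx c (G k' (ptr F J ω)) (g k') (al k') (F.t ω) l b →
    |eval b (G k (ptr F J ω) l) - eval b (H k (slam F (om k) ω) l)| ≤ 2 ^ u / 2 ^ g k l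
  size : ∀ ω, A ω → ∀ k < N, ∀ l < n, ∀ b : Option (Fin d) → ℝ,
    NBx c (G k (ptr F J ω)) (g k) (al k) (F.t ω) l b →
    |eval b (G k (ptr F J ω) l) - F.x ω (c l)| ≤ 2 ^ u

/-- **A path of a poset of chains.** -/
theorem jat_of_mch {d J : ℕ} {F : Fam d J} {c : ℕ → Fin d} {n K N : ℕ} {R : ℕ → ℕ → Prop}
    {a w : ℕ → ℕ} {ee : ℕ} {g : ℕ → ℕ → ℕ} {δ : ℕ → ℕ} {A : F.Ω → Prop}
    {G : ℕ → PtT F → ℕ → MvPolynomial (Option (Fin d)) ℝ}
    {H : ℕ → LnT F → ℕ → MvPolynomial (Option (Fin d)) ℝ}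
    (h : Pool.CHT.MCh F c n (fun _ => K) N R a w ee g δ A G H) {N' : ℕ} {idx : ℕ → ℕ}
    (hi : ∀ k < N', idx k < N) (hR : ∀ k' < N', ∀ k < k', R (idx k) (idx k')) {u : ℕ}
    (hu : ∀ l < n, δ l ≤ u) :
    Jat F c n K N' (fun k => a (idx k)) (fun k => w (idx k)) ee (fun k => g (idx k)) u A
      (fun k => G (idx k)) (fun k => H (idx k)) where
  ok k hk := h.ok _ (hi k hk)
  uni ω hω k' hk' k hk l hl b hb := (h.uni _ (hi k' hk') _ (hi k (hk.trans hk')) (hR k' hk' k hk)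
    l hl ω hω b hb).trans (div_le_div_of_nonneg_right
      (pow_le_pow_right₀ (by norm_num) (hu l hl)) (by positivity))
  two ω hω k' hk' k hk l hl b hb := (h.two _ (hi k' hk') _ (hi k (hk.trans hk')) (hR k' hk' k hk)
    l hl ω hω b hb).trans (div_le_div_of_nonneg_right
      (pow_le_pow_right₀ (by norm_num) (hu l hl)) (by positivity))
  size ω hω k hk l hl b hb := (h.siz _ (hi k hk) l hl ω hω b hb).trans
    (pow_le_pow_right₀ (by norm_num) (hu l hl))

/-- Shift of the levels: a new level `0`. -/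
def shl {α : Type} (x : α) (f : ℕ → α) : ℕ → α
  | 0 => x
  | k + 1 => f k

/-- Polynomials on the box around the cell of the time. -/
theorem cell_dil (n K : ℕ) : ∃ s₀ : ℕ, ∀ (d J : ℕ) (F : Fam d J) (c : ℕ → Fin d) (a : ℕ)
    (g : ℕ → ℕ) (G : PtT F → ℕ → MvPolynomial (Option (Fin d)) ℝ), a ≤ J → Inj c n →
    (∀ y, ∀ i < n, (G y i).totalDegree ≤ K) → (∀ y i, DepC c i (G y i)) → ∀ ω : F.Ω, ∀ i < n,
    ∀ (P : MvPolynomial (Option (Fin d)) ℝ) (E : ℝ), P.totalDegree ≤ K → 0 ≤ E →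
    (∀ b, NBx c (G (ptr F J ω)) g a (F.t ω) i b → |eval b P| ≤ E) →
    ∀ b : ℕ → ℝ, Bx (gg a g) (Gs c n a G (ptr F J ω)) (i + 1) b →
      |eval b (tr c i P)| ≤ 2 ^ s₀ * E := by
  obtain ⟨C, hC, hdil⟩ := dil n K
  obtain ⟨K₁, hK₁⟩ : ∃ K₁, K₁ = K * (K + 1) ^ (n + 1) := ⟨_, rfl⟩
  rw [← hK₁] at hdil
  obtain ⟨s₀, hs₀⟩ := pow_unbounded_of_one_lt (C * 2 ^ K₁) (one_lt_two (α := ℝ))
  refine ⟨s₀, ?_⟩
  intro d J F c a g G ha hc hG hdep ω i hi P E hP hE hb b hbx
  have h1 := bxr_cell ha ω (by omega) hbx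
  have h2 := hdil (sy c n (F.t ω) (G (ptr F J ω))) (gg a g) (tr c i P) (i + 1) E 2 sy_tri
    (sy_deg (hG _)) (by omega) (tr_vars _ _ _) ((tr_deg _ _ _).trans hP) (by norm_num)
    (fun b' hb' => by
      have h3 := hb _ (nbx_of_bxr hc (hdep _) hi hb')
      unfold tr
      rw [AdxRow.evl_bnd]
      exact h3) b h1
  calc |eval b (tr c i P)| ≤ C * E * 2 ^ K₁ := h2
    _ = C * 2 ^ K₁ * E := by ring
    _ ≤ 2 ^ s₀ * E := mul_le_mul_of_nonneg_right hs₀.le hE

theorem gg_tus (a : ℕ) (g : ℕ → ℕ) : gg a g = tus a (fun i => g (i - 1)) := by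
  funext i
  rcases Nat.eq_zero_or_pos i with rfl | hi
  · rw [tus_zero]
    rfl
  · rw [tus_pos _ _ hi]
    exact if_neg (by omega)

theorem x_cell {d J : ℕ} (F : Fam d J) (ω : F.Ω) (i : Fin d) :
    |F.x ω i - ((ptr F J ω).1 i : ℝ) / 2 ^ J| ≤ 1 / 2 ^ J := by
  have h0 : (0 : ℝ) < 2 ^ J := by positivity
  have h1 : (ptr F J ω).1 i = ⌊(2 : ℝ) ^ J * F.x ω i⌋ := rfl
  rw [h1]
  have h2 := Int.floor_le ((2 : ℝ) ^ J * F.x ω i)
  have h3 := Int.lt_floor_add_one ((2 : ℝ) ^ J * F.x ω i)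
  have h4 : F.x ω i = ((2 : ℝ) ^ J * F.x ω i) / 2 ^ J := by field_simp
  rw [h4, ← sub_div, abs_div, abs_of_pos h0]
  refine div_le_div_of_nonneg_right ?_ h0.le
  rw [← h4, abs_le]
  constructor <;> linarith

theorem x_line {d J : ℕ} (F : Fam d J) (ω : F.Ω) (i : Fin d) : |F.x ω i - F.u ω i| ≤ 1 := by
  have h0 : (0 : ℝ) < 2 ^ J := by positivity
  have h1 : F.x ω i - F.u ω i = F.t ω * F.d ω i := by
    unfold Fam.x
    ring
  have h2 : |F.t ω| ≤ 1 := by
    unfold Fam.t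
    have h3 : (F.T ω : ℝ) ≤ 2 ^ J := by exact_mod_cast (F.tim ω).le
    rw [abs_of_nonneg (by positivity), div_le_one h0]
    exact h3
  rw [h1, abs_mul]
  have h3 := F.dir ω i
  have h4 := abs_nonneg (F.t ω)
  nlinarith [abs_nonneg (F.d ω i)]

/-- The point sides of the raw levels. -/
noncomputable def jG {d J : ℕ} (F : Fam d J) (c : ℕ → Fin d) (n N a₀ : ℕ) (al : ℕ → ℕ)
    (G : ℕ → PtT F → ℕ → MvPolynomial (Option (Fin d)) ℝ) : ℕ → PtT F → ℕ → PN :=
  shl (fun y i => if i = 0 then MvPolynomial.C (tp a₀ y) else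
      MvPolynomial.C ((y.1 (c (i - 1)) : ℝ) / 2 ^ J))
    fun k => if k < N then Gs c n (al k) (G k) else
      fun y i => if i = 0 then MvPolynomial.C (tp (al k) y) else 0

/-- The line sides of the raw levels. -/
noncomputable def jH {d J : ℕ} (F : Fam d J) (c : ℕ → Fin d) (n N : ℕ)
    (H : ℕ → LnT F → ℕ → MvPolynomial (Option (Fin d)) ℝ) : ℕ → LnT F → ℕ → PN :=
  shl (fun s i => if i = 0 then 0 else MvPolynomial.C (s.1.1 (c (i - 1))))
    fun k => if k < N then Hs c n (H k) else fun _ _ => 0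

/-- The precisions of the raw levels. -/
def jg (g : ℕ → ℕ → ℕ) : ℕ → ℕ → ℕ := shl (fun _ => 0) fun k i => g k (i - 1)

theorem jG_succ {d J : ℕ} {F : Fam d J} {c : ℕ → Fin d} {n N a₀ : ℕ} {al : ℕ → ℕ}
    {G : ℕ → PtT F → ℕ → MvPolynomial (Option (Fin d)) ℝ} {k : ℕ} (hk : k < N) :
    jG F c n N a₀ al G (k + 1) = Gs c n (al k) (G k) := if_pos hk

theorem jH_succ {d J : ℕ} {F : Fam d J} {c : ℕ → Fin d} {n N : ℕ}
    {H : ℕ → LnT F → ℕ → MvPolynomial (Option (Fin d)) ℝ} {k : ℕ} (hk : k < N) :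
    jH F c n N H (k + 1) = Hs c n (H k) := if_pos hk

theorem jG_zero {d J : ℕ} {F : Fam d J} {c : ℕ → Fin d} {n N a₀ : ℕ} {al : ℕ → ℕ}
    {G : ℕ → PtT F → ℕ → MvPolynomial (Option (Fin d)) ℝ} (y : PtT F) (i : ℕ) :
    jG F c n N a₀ al G 0 y (i + 1) = MvPolynomial.C ((y.1 (c i) : ℝ) / 2 ^ J) := by
  show (if i + 1 = 0 then MvPolynomial.C (tp a₀ y) else
    MvPolynomial.C ((y.1 (c (i + 1 - 1)) : ℝ) / 2 ^ J) : PN) = _
  rw [if_neg (by omega), Nat.add_sub_cancel]

theorem jH_zero {d J : ℕ} {F : Fam d J} {c : ℕ → Fin d} {n N : ℕ}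
    {H : ℕ → LnT F → ℕ → MvPolynomial (Option (Fin d)) ℝ} (y : LnT F) (i : ℕ) :
    jH F c n N H 0 y (i + 1) = MvPolynomial.C (y.1.1 (c i)) := by
  show (if i + 1 = 0 then 0 else MvPolynomial.C (y.1.1 (c (i + 1 - 1))) : PN) = _
  rw [if_neg (by omega), Nat.add_sub_cancel]

/-- **Raw levels** from chains of two-sided labels. -/
theorem lvl_of (n K : ℕ) : ∃ s₀ : ℕ, 1 ≤ s₀ ∧ ∀ (d J N : ℕ) (F : Fam d J) (c : ℕ → Fin d)
    (al om : ℕ → ℕ) (ee : ℕ) (g : ℕ → ℕ → ℕ) (u₀ h u a₀ w₀ : ℕ) (A : F.Ω → Prop)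
    (G : ℕ → PtT F → ℕ → MvPolynomial (Option (Fin d)) ℝ)
    (H : ℕ → LnT F → ℕ → MvPolynomial (Option (Fin d)) ℝ), Jat F c n K N al om ee g u₀ A G H →
    Inj c n → (∀ k < N, al k ≤ J) → a₀ ≤ J → w₀ ≤ a₀ → (∀ k < N, om k ≤ al k) →
    (∀ k, k + 1 < N → om k ≤ om (k + 1)) → (0 < N → w₀ ≤ om 0 ∧ a₀ ≤ al 0 ∧ al 0 ≤ a₀ + h) →
    (∀ k, k + 1 < N → al k ≤ al (k + 1) ∧ al (k + 1) ≤ al k + h) →
    (∀ k < N, ∀ k' ≤ k, ∀ l < n, g k' l + al k ≤ g k l + al k' + u ∧ g k' l ≤ g k l) →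
    (∀ k < N, ∀ l < n, al k ≤ g k l + a₀ + u) → u₀ + s₀ ≤ u →
    Lvl F (fun i => c (i - 1)) n K N (shl a₀ al) (shl w₀ om) (jg g) h u s₀ A
      (jG F c n N a₀ al G) (jH F c n N H) := by
  classical
  obtain ⟨s₁, hraw⟩ := raw_of n K
  obtain ⟨s₂, hcell⟩ := cell_dil n K
  refine ⟨s₁ + s₂ + 2, by omega, ?_⟩
  intro d J N F c al om ee g u₀ h u a₀ w₀ A G H hJ hc haJ ha0 hw0 hoa hom h0 hmesh hlaw hlaw0 hu
  have e2 : ∀ x y : ℕ, x ≤ y → (2 : ℝ) ^ x ≤ 2 ^ y := fun x y h =>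
    pow_le_pow_right₀ (by norm_num) h
  have h1l : ∀ x : ℕ, (1 : ℝ) ≤ 2 ^ x := fun x => one_le_pow₀ (by norm_num)
  have hgg : ∀ k, gg (al k) (g k) = tus (al k) (fun i => g k (i - 1)) := fun k => gg_tus _ _
  -- the comparisons on the boxes around the cells
  have hcmp : ∀ ω, A ω → ∀ k < N, ∀ i < n, ∀ (P : MvPolynomial (Option (Fin d)) ℝ) (E : ℝ),
      P.totalDegree ≤ K → 0 ≤ E →
      (∀ b, NBx c (G k (ptr F J ω)) (g k) (al k) (F.t ω) i b → |eval b P| ≤ E) →
      ∀ b : ℕ → ℝ, Bx (tus (al k) fun i => g k (i - 1)) (Gs c n (al k) (G k) (ptr F J ω)) (i + 1) b →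
        |eval b (tr c i P)| ≤ 2 ^ s₂ * E := by
    intro ω hω k hk i hi P E hP hE hb b hbx
    rw [← hgg] at hbx
    exact hcell d J F c (al k) (g k) (G k) (haJ k hk) hc (fun y i _ => (hJ.ok k hk).degG y i)
      (hJ.ok k hk).depG ω i hi P E hP hE hb b hbx
  have hGs : ∀ k < N, ∀ y, ∀ i < n, Gs c n (al k) (G k) y (i + 1) = tr c i (G k y i) :=
    fun k _ y i hi => CLO.sy_succ hi
  have hHs : ∀ k < N, ∀ s, ∀ i < n, Hs c n (H k) s (i + 1) = tr c i (H k s i) :=
    fun k _ s i hi => CLO.sy_succ hi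
  have hcellx : ∀ (ω : F.Ω) (i : ℕ), |F.x ω (c i) - ((ptr F J ω).1 (c i) : ℝ) / 2 ^ J| ≤ 1 :=
    fun ω i => (x_cell F ω (c i)).trans (by
      rw [div_le_one (by positivity)]
      exact h1l J)
  have hcu : ∀ (ω : F.Ω) (i : ℕ), |((ptr F J ω).1 (c i) : ℝ) / 2 ^ J - F.u ω (c i)| ≤ 2 := by
    intro ω i
    have f1 := hcellx ω i
    have f2 := x_line F ω (c i)
    rw [abs_le] at f1 f2 ⊢
    constructor <;> linarith [f1.1, f1.2, f2.1, f2.2]
  refine
    { aJ := ?_
      wa := ?_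
      wm := ?_
      mesh := ?_
      law := ?_
      mono := ?_
      triG := ?_
      degG := ?_
      triH := ?_
      degH := ?_
      G_zero := ?_
      G0 := ?_
      H0 := ?_
      pos := ?_
      agr := ?_
      uni := ?_
      two := ?_ }
  · rintro (_ | k) hk
    · exact ha0
    · exact haJ k hk
  · rintro (_ | k) hk
    · exact hw0
    · exact hoa k hk
  · rintro (_ | k) hk
    · exact (h0 hk).1
    · exact hom k hk
  · rintro (_ | k) hk
    · exact (h0 hk).2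
    · exact hmesh k hk
  · rintro (_ | k) hk (_ | k') hk' l h1 h2
    · show 0 + a₀ ≤ 0 + a₀ + u
      omega
    · omega
    · show 0 + al k ≤ g k (l - 1) + a₀ + u
      have := hlaw0 k hk (l - 1) (by omega)
      omega
    · exact (hlaw k hk k' (by omega) (l - 1) (by omega)).1
  · rintro (_ | k) hk (_ | k') hk' l h1 h2
    · exact le_rfl
    · omega
    · exact Nat.zero_le _
    · exact (hlaw k hk k' (by omega) (l - 1) (by omega)).2
  · rintro (_ | k) y i
    · show (if i = 0 then MvPolynomial.C (tp a₀ y) else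
        MvPolynomial.C ((y.1 (c (i - 1)) : ℝ) / 2 ^ J) : PN).vars ⊆ range i
      split_ifs <;> rw [vars_C] <;> exact Finset.empty_subset _
    · by_cases hk : k < N
      · rw [jG_succ hk]
        exact sy_tri i
      · have h1 : jG F c n N a₀ al G (k + 1) = fun y i => if i = 0 then
            MvPolynomial.C (tp (al k) y) else 0 := if_neg hk
        rw [h1]
        simp only
        split_ifs
        · rw [vars_C]
          exact Finset.empty_subset _
        · rw [vars_0]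
          exact Finset.empty_subset _
  · rintro (_ | k) y i
    · show (if i = 0 then MvPolynomial.C (tp a₀ y) else
        MvPolynomial.C ((y.1 (c (i - 1)) : ℝ) / 2 ^ J) : PN).totalDegree ≤ K
      split_ifs <;> rw [totalDegree_C] <;> exact Nat.zero_le _
    · by_cases hk : k < N
      · rw [jG_succ hk]
        exact sy_deg (fun i _ => (hJ.ok k hk).degG y i) i
      · have h1 : jG F c n N a₀ al G (k + 1) = fun y i => if i = 0 then
            MvPolynomial.C (tp (al k) y) else 0 := if_neg hk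
        rw [h1]
        simp only
        split_ifs
        · rw [totalDegree_C]
          exact Nat.zero_le _
        · rw [totalDegree_zero]
          exact Nat.zero_le _
  · rintro (_ | k) y i
    · show (if i = 0 then 0 else MvPolynomial.C (y.1.1 (c (i - 1))) : PN).vars ⊆ range i
      split_ifs
      · rw [vars_0]
        exact Finset.empty_subset _
      · rw [vars_C]
        exact Finset.empty_subset _
    · by_cases hk : k < N
      · rw [jH_succ hk]
        exact sy_tri i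
      · have h1 : jH F c n N H (k + 1) = fun _ _ => 0 := if_neg hk
        rw [h1]
        rw [vars_0]
        exact Finset.empty_subset _
  · rintro (_ | k) y i
    · show (if i = 0 then 0 else MvPolynomial.C (y.1.1 (c (i - 1))) : PN).totalDegree ≤ K
      split_ifs
      · rw [totalDegree_zero]
        exact Nat.zero_le _
      · rw [totalDegree_C]
        exact Nat.zero_le _
    · by_cases hk : k < N
      · rw [jH_succ hk]
        exact sy_deg (fun i _ => (hJ.ok k hk).degH y i) i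
      · have h1 : jH F c n N H (k + 1) = fun _ _ => 0 := if_neg hk
        rw [h1]
        rw [totalDegree_zero]
        exact Nat.zero_le _
  · rintro (_ | k) y
    · rfl
    · by_cases hk : k < N
      · rw [jG_succ hk]
        exact CLO.sy_zero
      · have h1 : jG F c n N a₀ al G (k + 1) = fun y i => if i = 0 then
            MvPolynomial.C (tp (al k) y) else 0 := if_neg hk
        rw [h1]
        rfl
  · intro y
    exact ⟨fun i => (y.1 (c (i - 1)) : ℝ) / 2 ^ J, fun i hi => if_neg (by omega)⟩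
  · intro y
    exact ⟨fun i => y.1.1 (c (i - 1)), fun i hi => if_neg (by omega)⟩
  · intro ω hω k hk i h1 hi
    obtain ⟨i, rfl⟩ : ∃ i', i = i' + 1 := ⟨i - 1, by omega⟩
    rcases k with _ | k
    · have h2 : jG F c n N a₀ al G 0 (ptr F J ω) (i + 1) =
          MvPolynomial.C (((ptr F J ω).1 (c i) : ℝ) / 2 ^ J) := jG_zero _ i
      have h3 : cx F (fun i => c (i - 1)) ω (i + 1) = F.x ω (c i) := if_neg (by omega)
      rw [h2, eval_C, h3]
      show _ ≤ 1 / 2 ^ 0
      rw [pow_zero, div_one]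
      exact hcellx ω i
    · rw [jG_succ (by omega)]
      have h2 := pos_of hc (hJ.ok k (by omega)) hω (i := i + 1) h1 hi
      have h3 : gg (al k) (g k) (i + 1) = g k i := if_neg (by omega)
      rw [h3] at h2
      exact h2
  · intro ω hω k hk i h1 hi b hb
    obtain ⟨i, rfl⟩ : ∃ i', i = i' + 1 := ⟨i - 1, by omega⟩
    rcases k with _ | k
    · have h2 : jG F c n N a₀ al G 0 (ptr F J ω) (i + 1) =
          MvPolynomial.C (((ptr F J ω).1 (c i) : ℝ) / 2 ^ J) := jG_zero _ i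
      have h3 : jH F c n N H 0 (slam F (shl w₀ om 0) ω) (i + 1) =
          MvPolynomial.C (F.u ω (c i)) := jH_zero _ i
      rw [h2, h3, eval_C, eval_C]
      show _ ≤ 2 ^ (s₁ + s₂ + 2) / 2 ^ 0
      rw [pow_zero, div_one]
      refine (hcu ω i).trans ?_
      calc (2 : ℝ) = 2 ^ 1 := (pow_one _).symm
        _ ≤ 2 ^ (s₁ + s₂ + 2) := e2 _ _ (by omega)
    · have hk' : k < N := by omega
      rw [jG_succ hk'] at hb ⊢
      rw [jH_succ hk']
      have h2 := (hraw d J F c (fun _ => K) (al k) (om k) ee (g k) A (G k) (H k) (hoa k hk')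
        (haJ k hk') hc (fun _ _ => le_rfl) (hJ.ok k hk')).near ω hω (i + 1) h1 hi b (by
          rw [hgg]
          exact hb)
      rw [crs_eq F (hoa k hk') (haJ k hk')] at h2
      have h3 : gg (al k) (g k) (i + 1) = g k i := if_neg (by omega)
      rw [h3] at h2
      exact h2.trans (div_le_div_of_nonneg_right (e2 _ _ (by omega)) (by positivity))
  · intro ω hω k' hk' k hk i h1 hi b hb
    obtain ⟨i, rfl⟩ : ∃ i', i = i' + 1 := ⟨i - 1, by omega⟩
    obtain ⟨k', rfl⟩ : ∃ k'', k' = k'' + 1 := ⟨k' - 1, by omega⟩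
    have hk'N : k' < N := by omega
    rw [jG_succ hk'N] at hb ⊢
    rw [hGs k' hk'N _ i (by omega)]
    rcases k with _ | k
    · have h2 : jG F c n N a₀ al G 0 (ptr F J ω) (i + 1) =
          MvPolynomial.C (((ptr F J ω).1 (c i) : ℝ) / 2 ^ J) := jG_zero _ i
      rw [h2, eval_C]
      have h3 := hcmp ω hω k' hk'N i (by omega)
        (G k' (ptr F J ω) i - MvPolynomial.C (F.x ω (c i))) (2 ^ u₀)
        ((totalDegree_sub _ _).trans (max_le ((hJ.ok k' hk'N).degG _ i) (by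
          rw [totalDegree_C]
          exact Nat.zero_le _))) (by positivity) (fun b' hb' => by
          rw [map_sub, eval_C]
          exact hJ.size ω hω k' hk'N i (by omega) b' hb') b hb
      have h4 : tr c i (G k' (ptr F J ω) i - MvPolynomial.C (F.x ω (c i))) =
          tr c i (G k' (ptr F J ω) i) - MvPolynomial.C (F.x ω (c i)) := by
        unfold tr
        rw [map_sub, bind₁_C_right]
      rw [h4, map_sub, eval_C] at h3
      show _ ≤ 2 ^ u / 2 ^ 0
      rw [pow_zero, div_one]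
      have h5 := hcellx ω i
      have h6 : (2 : ℝ) ^ s₂ * 2 ^ u₀ + 1 ≤ 2 ^ u := by
        have h7 : (2 : ℝ) ^ s₂ * 2 ^ u₀ = 2 ^ (s₂ + u₀) := (pow_add _ _ _).symm
        have h8 : (2 : ℝ) ^ (s₂ + u₀) + 1 ≤ 2 ^ (s₂ + u₀ + 1) := by
          rw [pow_succ]
          linarith [h1l (s₂ + u₀)]
        rw [h7]
        exact h8.trans (e2 _ _ (by omega))
      rw [abs_le] at h3 h5 ⊢
      constructor <;> linarith [h3.1, h3.2, h5.1, h5.2]
    · have hkN : k < N := by omega
      rw [jG_succ hkN, hGs k hkN _ i (by omega)]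
      have h3 := hcmp ω hω k' hk'N i (by omega)
        (G k' (ptr F J ω) i - G k (ptr F J ω) i) (2 ^ u₀ / 2 ^ g k i)
        ((totalDegree_sub _ _).trans (max_le ((hJ.ok k' hk'N).degG _ i)
          ((hJ.ok k hkN).degG _ i))) (by positivity) (fun b' hb' => by
          rw [map_sub]
          exact hJ.uni ω hω k' hk'N k (by omega) i (by omega) b' hb') b hb
      have h4 : tr c i (G k' (ptr F J ω) i - G k (ptr F J ω) i) =
          tr c i (G k' (ptr F J ω) i) - tr c i (G k (ptr F J ω) i) := by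
        unfold tr
        rw [map_sub]
      rw [h4, map_sub] at h3
      refine h3.trans ?_
      rw [← mul_div_assoc, ← pow_add]
      show _ ≤ 2 ^ u / 2 ^ g k i
      exact div_le_div_of_nonneg_right (e2 _ _ (by omega)) (by positivity)
  · intro ω hω k' hk' k hk i h1 hi b hb
    obtain ⟨i, rfl⟩ : ∃ i', i = i' + 1 := ⟨i - 1, by omega⟩
    obtain ⟨k', rfl⟩ : ∃ k'', k' = k'' + 1 := ⟨k' - 1, by omega⟩
    have hk'N : k' < N := by omega
    rw [jG_succ hk'N] at hb
    rcases k with _ | k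
    · have h2 : jG F c n N a₀ al G 0 (ptr F J ω) (i + 1) =
          MvPolynomial.C (((ptr F J ω).1 (c i) : ℝ) / 2 ^ J) := jG_zero _ i
      have h3 : jH F c n N H 0 (slam F (shl w₀ om 0) ω) (i + 1) =
          MvPolynomial.C (F.u ω (c i)) := jH_zero _ i
      rw [h2, h3, eval_C, eval_C]
      show _ ≤ 2 ^ u / 2 ^ 0
      rw [pow_zero, div_one]
      refine (hcu ω i).trans ?_
      calc (2 : ℝ) = 2 ^ 1 := (pow_one _).symm
        _ ≤ 2 ^ u := e2 _ _ (by omega)
    · have hkN : k < N := by omega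
      rw [jG_succ hkN, jH_succ hkN, hGs k hkN _ i (by omega), hHs k hkN _ i (by omega)]
      show |_ - eval b (tr c i (H k (slam F (om k) ω) i))| ≤ 2 ^ u / 2 ^ g k i
      have h3 := hcmp ω hω k' hk'N i (by omega)
        (G k (ptr F J ω) i - H k (slam F (om k) ω) i) (2 ^ u₀ / 2 ^ g k i)
        ((totalDegree_sub _ _).trans (max_le ((hJ.ok k hkN).degG _ i)
          ((hJ.ok k hkN).degH _ i))) (by positivity) (fun b' hb' => by
          rw [map_sub]
          exact hJ.two ω hω k' hk'N k (by omega) i (by omega) b' hb') b hb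
      have h4 : tr c i (G k (ptr F J ω) i - H k (slam F (om k) ω) i) =
          tr c i (G k (ptr F J ω) i) - tr c i (H k (slam F (om k) ω) i) := by
        unfold tr
        rw [map_sub]
      rw [h4, map_sub] at h3
      refine h3.trans ?_
      rw [← mul_div_assoc, ← pow_add]
      exact div_le_div_of_nonneg_right (e2 _ _ (by omega)) (by positivity)

end Pool.TRC
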