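import Pool.Agent.H33.TRC.Cls
import Pool.Agent.H33.TRC.Rem
import Pool.Agent.H31.STAT.Wid

/-!
# Comparison of truncated sides: pure part

* `widb`: a polynomial of bounded degree, small on the natural box of a raw system, is small on the
  wide natural box of the truncated system; the constant is a power of the distance;
* `pairH`: line sides of two levels on the dilated box of the finer line side.
-/

set_option autoImplicit false

namespace Pool.TRC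

open Finset MvPolynomial
open Pool.STAT
open Pool.TRC31 (BxE)

/-! ### Sides -/

theorem exp_nlog (x : ℕ) : Real.exp ((x : ℝ) * Real.log 2) = 2 ^ x := by
  rw [mul_comm, Real.exp_mul, Real.exp_log (by norm_num), Real.rpow_natCast]

theorem exp_neg_nlog (x : ℕ) : Real.exp (-((x : ℝ) * Real.log 2)) = 1 / 2 ^ x := by
  rw [Real.exp_neg, exp_nlog, one_div]

/-- The sides with a margin `σ` in the positions. -/
noncomputable def sde (σ : ℝ) (g : ℕ → ℕ) (i : ℕ) : ℝ :=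
  if i = 0 then (g 0 : ℝ) * Real.log 2 else (g i : ℝ) * Real.log 2 - σ

theorem sde_zero (σ : ℝ) (g : ℕ → ℕ) : sde σ g 0 = (g 0 : ℝ) * Real.log 2 := if_pos rfl

theorem sde_pos (σ : ℝ) (g : ℕ → ℕ) {i : ℕ} (hi : 1 ≤ i) :
    sde σ g i = (g i : ℝ) * Real.log 2 - σ := if_neg (by omega)

theorem exp_sde (ρ : ℝ) (hρ : 0 < ρ) (g : ℕ → ℕ) {i : ℕ} (hi : 1 ≤ i) (x : ℝ) :
    Real.exp (x - sde (Real.log ρ) g i) = Real.exp x * ρ / 2 ^ g i := by
  rw [sde_pos _ _ hi, show x - ((g i : ℝ) * Real.log 2 - Real.log ρ) =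
    x + (Real.log ρ + -((g i : ℝ) * Real.log 2)) by ring, Real.exp_add, Real.exp_add,
    Real.exp_log hρ, exp_neg_nlog]
  ring

theorem exp_neg_sde (ρ : ℝ) (hρ : 0 < ρ) (g : ℕ → ℕ) {i : ℕ} (hi : 1 ≤ i) :
    Real.exp (-sde (Real.log ρ) g i) = ρ / 2 ^ g i := by
  have h := exp_sde ρ hρ g hi 0
  rw [zero_sub, Real.exp_zero, one_mul] at h
  exact h

/-- The box with the margin. -/
theorem bxe_iff {ρ : ℝ} (hρ : 0 < ρ) {g : ℕ → ℕ} {Φ : ℕ → PN} {n : ℕ} {b : ℕ → ℝ} :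
    BxE (sde (Real.log ρ) g) Φ n b ↔ (0 < n → |b 0 - eval b (Φ 0)| ≤ 1 / 2 ^ g 0) ∧
      ∀ i, 1 ≤ i → i < n → |b i - eval b (Φ i)| ≤ ρ / 2 ^ g i := by
  constructor
  · intro h
    refine ⟨fun hn => ?_, fun i h1 hi => ?_⟩
    · have h1 := h 0 hn
      rw [sde_zero, exp_neg_nlog] at h1
      exact h1
    · have h2 := h i hi
      rw [exp_neg_sde ρ hρ g h1] at h2
      exact h2
  · rintro ⟨h0, h⟩ i hi
    rcases Nat.eq_zero_or_pos i with rfl | h1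
    · rw [sde_zero, exp_neg_nlog]
      exact h0 hi
    · rw [exp_neg_sde ρ hρ g h1]
      exact h i h1 hi

theorem bxe_bxr {ρ : ℝ} (hρ : 1 ≤ ρ) {g : ℕ → ℕ} {Φ : ℕ → PN} {n : ℕ} {b : ℕ → ℝ}
    (h : BxE (sde (Real.log ρ) g) Φ n b) : CLO.Bxr ρ g Φ n b := by
  obtain ⟨h0, h1⟩ := (bxe_iff (by linarith)).1 h
  intro i hi
  rcases Nat.eq_zero_or_pos i with rfl | h2
  · exact (h0 hi).trans (div_le_div_of_nonneg_right hρ (by positivity))
  · exact h1 i h2 hi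

theorem bxe_one {g : ℕ → ℕ} {Φ : ℕ → PN} {n : ℕ} {b : ℕ → ℝ} :
    BxE (sde (Real.log 1) g) Φ n b ↔ Bx g Φ n b := by
  rw [bxe_iff one_pos]
  constructor
  · rintro ⟨h0, h1⟩ i hi
    rcases Nat.eq_zero_or_pos i with rfl | h2
    · exact h0 hi
    · exact h1 i h2 hi
  · intro h
    exact ⟨fun hn => h 0 hn, fun i _ hi => h i hi⟩

/-! ### Widening -/

theorem pow_mono_c {c c' : ℕ} (hc : 1 ≤ c) (hcc : c ≤ c') {R : ℝ} (hR : 1 ≤ R) :
    (c * R : ℝ) ^ c ≤ (c' * R) ^ c' := by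
  have e1 : (1 : ℝ) ≤ c := by exact_mod_cast hc
  have e2 : (c : ℝ) ≤ c' := by exact_mod_cast hcc
  have e3 : (1 : ℝ) ≤ c * R := by nlinarith
  have e4 : (c : ℝ) * R ≤ c' * R := mul_le_mul_of_nonneg_right e2 (by linarith)
  exact (pow_le_pow_right₀ e3 hcc).trans (pow_le_pow_left₀ (by positivity) e4 _)

/-- **Widening**: from the natural box of the raw system `Ψ` to the wide natural box of the system
`Φ` of bounded degree. -/
theorem widb (n D : ℕ) : ∃ c : ℕ, 1 ≤ c ∧ ∀ (Φ Ψ : ℕ → PN) (g : ℕ → ℕ) (F : PN) (i : ℕ)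
    (R s : ℝ), TriN Φ → TriN Ψ → (∀ j, (Φ j).totalDegree ≤ D) → i ≤ n → F.vars ⊆ range i →
    F.totalDegree ≤ D → 1 ≤ R → 0 ≤ s → Φ 0 = Ψ 0 →
    (∀ j, 1 ≤ j → j < i → ∀ b : ℕ → ℝ, Bx g Ψ j b →
      |eval b (Φ j) - eval b (Ψ j)| ≤ R / 2 ^ g j) →
    (∀ b : ℕ → ℝ, Bx g Ψ i b → |eval b F| ≤ s) →
    ∀ b : ℕ → ℝ, CLO.Bxr R g Φ i b → |eval b F| ≤ (c * R) ^ c * s := by
  classical
  have hw := fun i => Pool.TRC31.wid i (D * (D + 1) ^ (n + 1))
  choose cf hcf1 hcf using hw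
  obtain ⟨c, hc⟩ : ∃ c : ℕ, c = ∑ i ∈ range (n + 1), cf i := ⟨_, rfl⟩
  have hcc : ∀ i ≤ n, cf i ≤ c := by
    intro i hi
    rw [hc]
    exact Finset.single_le_sum (f := cf) (fun _ _ => Nat.zero_le _) (mem_range.2 (by omega))
  refine ⟨c, (hcf1 0).trans (hcc 0 (Nat.zero_le n)), ?_⟩
  intro Φ Ψ g F i R s hΦ hΨ hD hi hv hF hR hs h0 hnear hbox b hb
  obtain ⟨hQv, hQd⟩ := CLO.nat_deg hΦ hD g hi hv hF
  obtain ⟨bb, hbb⟩ : ∃ bb : (ℕ → ℝ) → ℕ → ℝ, bb = fun y j => eval y (nuc g Φ j) := ⟨_, rfl⟩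
  have hnc : ∀ y, CLO.nc g Φ (bb y) = y := fun y => by
    rw [hbb]
    exact CLO.nc_nuc hΦ g y
  obtain ⟨del, hdel⟩ : ∃ del : ℕ → (ℕ → ℝ) → ℝ, del = fun j y =>
      (2 : ℝ) ^ g j * (eval (bb y) (Ψ j) - eval (bb y) (Φ j)) := ⟨_, rfl⟩
  have hbbc : ∀ y y' : ℕ → ℝ, ∀ j, (∀ l < j, y l = y' l) → ∀ l < j, bb y l = bb y' l := by
    intro y y' j h l hl
    rw [hbb]
    exact eval_vars (AdxRow.nuc_vars hΦ g l) fun l' hl' => h l' (by omega)
  have hyd : ∀ y j, y j - del j y = (2 : ℝ) ^ g j * (bb y j - eval (bb y) (Ψ j)) := by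
    intro y j
    have h1 := congrFun (hnc y) j
    unfold CLO.nc at h1
    rw [hdel]
    simp only
    rw [← h1]
    ring
  have hbx : ∀ y j, (∀ l < j, |y l - del l y| ≤ 1) → Bx g Ψ j (bb y) := by
    intro y j h l hl
    have h1 := h l hl
    rw [hyd] at h1
    exact (CLO.nc_le (ρ := 1)).1 h1
  have h1 := hcf i (bind₁ (nuc g Φ) F) R s del hR hQv hQd ?_ ?_ ?_ (CLO.nc g Φ b)
    (fun j hj => CLO.nc_le.2 (hb j hj))
  · rw [← CLO.eval_nat hΦ g b F] at h1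
    exact h1.trans (mul_le_mul_of_nonneg_right (pow_mono_c (hcf1 i) (hcc i hi) hR) hs)
  · intro j y y' h
    rw [hdel]
    simp only
    rw [eval_vars (hΨ j) (hbbc y y' j h), eval_vars (hΦ j) (hbbc y y' j h)]
  · intro j hj y h
    rw [hdel]
    simp only
    rcases Nat.eq_zero_or_pos j with rfl | hj1
    · rw [h0, sub_self, mul_zero, abs_zero]
      linarith
    · have h2 := hnear j hj1 hj (bb y) (hbx y j h)
      rw [abs_sub_comm] at h2
      rw [abs_mul, abs_of_pos (by positivity)]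
      rw [le_div_iff₀ (by positivity)] at h2
      linarith
  · intro y h
    have h2 := hbox (bb y) (hbx y i h)
    rw [CLO.eval_nat hΦ g (bb y) F, hnc y] at h2
    exact h2

/-! ### Line sides -/

/-- **Line sides of two levels** on the dilated box of the finer line side. -/
theorem pairH (n K : ℕ) : ∃ c : ℕ, 1 ≤ c ∧ ∀ (G G' H H' : ℕ → PN) (g g' : ℕ → ℕ) (S₀ U : ℝ),
    TriN G → TriN G' → TriN H → TriN H' → (∀ i, (G i).totalDegree ≤ K) →
    (∀ i, (G' i).totalDegree ≤ K) → (∀ i, (H i).totalDegree ≤ K) →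
    (∀ i, (H' i).totalDegree ≤ K) → 1 ≤ S₀ → S₀ ≤ U → H' 0 = G' 0 →
    (∀ i, 1 ≤ i → i ≤ n → g i ≤ g' i) →
    (∀ i, 1 ≤ i → i ≤ n → ∀ b : ℕ → ℝ, Bx g' G' i b →
      |eval b (H' i) - eval b (G' i)| ≤ S₀ / 2 ^ g' i) →
    (∀ i, 1 ≤ i → i ≤ n → ∀ b : ℕ → ℝ, Bx g' G' i b →
      |eval b (G' i) - eval b (G i)| ≤ U / 2 ^ g i) →
    (∀ i, 1 ≤ i → i ≤ n → ∀ b : ℕ → ℝ, Bx g' G' i b →
      |eval b (G i) - eval b (H i)| ≤ U / 2 ^ g i) →
    ∀ i, 1 ≤ i → i ≤ n → ∀ b : ℕ → ℝ, CLO.Bxr (2 * S₀) g' H' i b →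
      |eval b (H' i) - eval b (H i)| ≤ (c * S₀) ^ c * U / 2 ^ g i := by
  obtain ⟨c₁, hc₁, hnr⟩ := nr_line n K
  obtain ⟨C, hC, hd⟩ := CLO.dil n K
  obtain ⟨K₂, hK₂⟩ : ∃ K₂, K₂ = K * (K + 1) ^ (n + 1) := ⟨_, rfl⟩
  rw [← hK₂] at hd
  obtain ⟨M, hM⟩ := CLO.cc_le c₁ n
  obtain ⟨c, hc⟩ : ∃ c : ℕ, c = 3 * ⌈C⌉₊ + 4 * c₁ + 2 * M * K₂ + 1 := ⟨_, rfl⟩
  refine ⟨c, by omega, ?_⟩
  intro G G' H H' g g' S₀ U hG hG' hH hH' dG dG' dH dH' hS hSU h0 hg h1 h2 h3 i hi1 hi b hb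
  have hNr := hnr H' G' g' S₀ hH' hG' dH' dG' hS h0 h1
  have hb2 := CLO.Nr.box hc₁ hS (hNr.mono (show i ≤ n + 1 by omega)) (by linarith) hb i le_rfl
  have hc1 : (1 : ℝ) ≤ c₁ := by exact_mod_cast hc₁
  have hcS : (1 : ℝ) ≤ c₁ * S₀ := by nlinarith
  obtain ⟨Θ, hΘ⟩ : ∃ Θ : ℝ, Θ = 4 * c₁ * S₀ := ⟨_, rfl⟩
  have hΘ1 : 1 ≤ Θ := by
    rw [hΘ, mul_assoc]
    linarith
  have hρ : (2 * c₁ * S₀ * (2 * S₀)) ^ CLO.cc c₁ i ≤ Θ ^ (2 * M) := by
    have e1 : 2 * c₁ * S₀ * (2 * S₀) ≤ Θ ^ 2 := by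
      have t2 : (c₁ : ℝ) * (S₀ * S₀) ≤ c₁ * c₁ * (S₀ * S₀) :=
        mul_le_mul_of_nonneg_right (by nlinarith) (by positivity)
      have t3 : 0 ≤ (c₁ : ℝ) * c₁ * (S₀ * S₀) := by positivity
      rw [hΘ]
      nlinarith
    have e2 : 0 ≤ 2 * c₁ * S₀ * (2 * S₀) := by positivity
    calc (2 * c₁ * S₀ * (2 * S₀)) ^ CLO.cc c₁ i ≤ (Θ ^ 2) ^ CLO.cc c₁ i :=
          pow_le_pow_left₀ e2 e1 _
      _ = Θ ^ (2 * CLO.cc c₁ i) := (pow_mul _ _ _).symm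
      _ ≤ Θ ^ (2 * M) := pow_le_pow_right₀ hΘ1 (Nat.mul_le_mul_left _ (hM i hi))
  have h4 := hd G' g' (H' i - H i) i (3 * U / 2 ^ g i) (Θ ^ (2 * M)) hG' dG' hi
    ((vars_sub_subset _).trans (Finset.union_subset (hH' i) (hH i)))
    ((totalDegree_sub _ _).trans (max_le (dH' i) (dH i))) (one_le_pow₀ hΘ1) (fun b hb => ?_) b
    (hb2.mono hρ le_rfl)
  · rw [map_sub] at h4
    refine h4.trans ?_
    rw [← mul_div_assoc, div_mul_eq_mul_div]
    refine div_le_div_of_nonneg_right ?_ (by positivity)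
    have hU : 0 ≤ U := by linarith
    have e0 : (1 : ℝ) ≤ c := by exact_mod_cast (by omega : 1 ≤ c)
    have ecC : 3 * C ≤ c := by
      rw [hc]
      push_cast
      have := Nat.le_ceil C
      have e3 : (0 : ℝ) ≤ 2 * M * K₂ := by positivity
      linarith
    have e4c : (4 : ℝ) * c₁ ≤ c := by
      rw [hc]
      push_cast
      have := Nat.le_ceil C
      have e3 : (0 : ℝ) ≤ 2 * M * K₂ := by positivity
      linarith
    have eΘ : Θ ≤ c * S₀ := by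
      rw [hΘ]
      exact mul_le_mul_of_nonneg_right e4c (by linarith)
    have ecS1 : (1 : ℝ) ≤ c * S₀ := by nlinarith
    have e5 : 3 * C ≤ c * S₀ := by nlinarith
    have e6 : Θ ^ (2 * M * K₂) ≤ (c * S₀) ^ (2 * M * K₂) := pow_le_pow_left₀ (by linarith) eΘ _
    calc C * (3 * U) * (Θ ^ (2 * M)) ^ K₂ = (3 * C * Θ ^ (2 * M * K₂)) * U := by
          rw [← pow_mul]
          ring
      _ ≤ ((c * S₀) * (c * S₀) ^ (2 * M * K₂)) * U := by
          refine mul_le_mul_of_nonneg_right ?_ hU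
          exact mul_le_mul e5 e6 (by positivity) (by linarith)
      _ = (c * S₀) ^ (2 * M * K₂ + 1) * U := by
          rw [pow_succ]
          ring
      _ ≤ (c * S₀) ^ c * U := by
          refine mul_le_mul_of_nonneg_right ?_ hU
          exact pow_le_pow_right₀ ecS1 (by omega)
  · rw [map_sub]
    have hb' := CLO.Bxr_one.1 hb
    have f1 := h1 i hi1 hi b hb'
    have f2 := h2 i hi1 hi b hb'
    have f3 := h3 i hi1 hi b hb'
    have f4 : S₀ / 2 ^ g' i ≤ U / 2 ^ g i := by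
      refine div_le_div₀ (by linarith) hSU (by positivity) ?_
      exact pow_le_pow_right₀ (by norm_num) (hg i hi1 hi)
    have f5 : |eval b (H' i) - eval b (H i)| ≤ |eval b (H' i) - eval b (G' i)| +
        (|eval b (G' i) - eval b (G i)| + |eval b (G i) - eval b (H i)|) := by
      have e1 := abs_add_le (eval b (H' i) - eval b (G' i))
        ((eval b (G' i) - eval b (G i)) + (eval b (G i) - eval b (H i)))
      have e2 := abs_add_le (eval b (G' i) - eval b (G i)) (eval b (G i) - eval b (H i))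
      have e3 : eval b (H' i) - eval b (G' i) +
        ((eval b (G' i) - eval b (G i)) + (eval b (G i) - eval b (H i))) =
        eval b (H' i) - eval b (H i) := by ring
      rw [e3] at e1
      linarith
    have f6 : 3 * U / 2 ^ g i = U / 2 ^ g i + (U / 2 ^ g i + U / 2 ^ g i) := by ring
    rw [f6]
    linarith

end Pool.TRC
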