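import Pool.Agent.H33.TRC.TrcG
import Pool.Agent.H90.STAT.FulC

/-!
# Truncated sides of universal degree: the line side in the window of the level `0`

`side_R`: the line side of the top level, a function of the line in the window `w₀`, on an event
of probability at least one half.
-/

set_option autoImplicit false

namespace Pool.TRC

open Finset MvPolynomial
open Pool.Agent.H49.Ent Pool.Agent.H32.Dense Pool.STK Pool.KS3 Pool.KA Pool.KSAT Pool.PB Pool.GEN
open Pool.K2S Pool.STAT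
open Pool.BFL (Pl CB Pb P2 MC alt)
open Pool.STAT.CLO (tp tl t_cell crs crs_eq tp_eq tl_eq)
open Pool.TRC31 (BxE)

/-- The digits `w, …, w + L` of the time are full given the line in the window `w`. -/
def TimeS {d J : ℕ} (F : Fam d J) (A : F.Ω → Prop) (w L : ℕ) (θ : ℝ) : Prop :=
  L * Real.log 2 - θ ≤ CH (Pool.Agent.H49.Ent.cond F.p A True)
    (fun ω => ⌊(2 : ℝ) ^ (w + L) * (F.t ω - (F.T1 w ω : ℝ) / 2 ^ w)⌋) (slam F w)

theorem pow_sub_le (g r : ℕ) : (1 : ℝ) / 2 ^ (g - r) ≤ 2 ^ r / 2 ^ g := by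
  rw [div_le_div_iff₀ (by positivity) (by positivity), one_mul, ← pow_add]
  exact pow_le_pow_right₀ (by norm_num) (by omega)

/-- Half of the event. -/
theorem half_of {Ω : Type} [Fintype Ω] {p : Ω → ℝ} {A : Ω → Prop}
    (hA : 0 < Pe p A) (X : Ω → Prop)
    (h : Pb (Pool.Agent.H49.Ent.cond p A True) (fun ω => ¬ X ω) ≤ 1 / 2) :
    Pe p A ≤ 2 * Pe p (fun ω => A ω ∧ X ω) := by
  classical
  have h1 : Pe (Pool.Agent.H49.Ent.cond p A True) (fun ω => ¬ X ω) ≤ 1 / 2 := by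
    rw [Pool.K2S.Pe_eq]
    exact h
  rw [Pool.K2S.Pe_cond, div_le_iff₀ hA] at h1
  have h2 : Pe p A = Pe p (fun ω => A ω ∧ X ω) + Pe p (fun ω => A ω ∧ ¬ X ω) := by
    rw [Pool.K2S.Pe_eq, Pool.K2S.Pe_eq, Pool.K2S.Pe_eq, ← Finset.sum_add_distrib]
    refine Finset.sum_congr rfl fun ω _ => ?_
    by_cases a : A ω <;> by_cases b : X ω <;> simp [a, b]
  linarith

/-- The windows of the line side: `w₀` at the top level. -/
def wtop (m w₀ : ℕ) (w : ℕ → ℕ) (k : ℕ) : ℕ := if k = m then w₀ else w k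

/-- **The numerical conditions of the line side**: auxiliary radii `b`. -/
structure Tms (n S m : ℕ) (b w' : ℕ → ℕ) (g : ℕ → ℕ → ℕ) (h u : ℕ) : Prop where
  mesh : ∀ k < m, b k ≤ b (k + 1) ∧ b (k + 1) ≤ b k + h
  law : ∀ k ≤ m, ∀ k' ≤ k, ∀ l, 1 ≤ l → l ≤ n → g k' l + b k ≤ g k l + b k' + u
  slope : ∀ k ≤ m, ∀ l, 1 ≤ l → l ≤ n → g m l + S * b k ≤ g k l + S * b m + u
  time : ∀ k ≤ m, b m + w' k ≤ b k + w' m

/-- **The auxiliary radii for a window of the line side above the raw windows.** -/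
theorem tms_min {n S m : ℕ} {a w' : ℕ → ℕ} {g : ℕ → ℕ → ℕ} {h u : ℕ}
    (mesh : ∀ k < m, a k ≤ a (k + 1) ∧ a (k + 1) ≤ a k + h)
    (law : ∀ k ≤ m, ∀ k' ≤ k, ∀ l, 1 ≤ l → l ≤ n → g k' l + a k ≤ g k l + a k' + u)
    (slope : ∀ k ≤ m, ∀ l, 1 ≤ l → l ≤ n → g m l + S * a k ≤ g k l + S * a m + u)
    (amono : ∀ k ≤ m, ∀ k' ≤ k, a k' ≤ a k) (wmono : ∀ k ≤ m, ∀ k' ≤ k, w' k' ≤ w' k)
    (inc : ∀ k < m, ∀ k' ≤ k, w' k + a k' ≤ w' k' + a k)
    (two : ∀ k ≤ m, a m + 2 * w' k ≤ a k + 2 * w' m) :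
    Tms n (2 * S) m (fun k => a m - min (a m - a k) (w' m - w' k)) w' g h u := by
  have hc : ∀ k ≤ m, min (a m - a k) (w' m - w' k) ≤ a m := fun k _ =>
    (min_le_left _ _).trans (Nat.sub_le _ _)
  have hle : ∀ k ≤ m, ∀ k' ≤ k, min (a m - a k) (w' m - w' k) ≤
      min (a m - a k') (w' m - w' k') := by
    intro k hk k' hk'
    have h1 := amono k hk k' hk'
    have h2 := wmono k hk k' hk'
    exact min_le_min (by omega) (by omega)
  have hinc : ∀ k ≤ m, ∀ k' ≤ k, min (a m - a k') (w' m - w' k') + a k' ≤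
      min (a m - a k) (w' m - w' k) + a k := by
    intro k hk k' hk'
    have h1 := amono k hk k' hk'
    have h2 := amono m le_rfl k hk
    have h3 := amono m le_rfl k' (hk'.trans hk)
    have h4 := wmono k hk k' hk'
    have h5 := wmono m le_rfl k hk
    rcases Nat.lt_or_ge k m with h6 | h6
    · have h7 := inc k h6 k' hk'
      rcases le_total (a m - a k) (w' m - w' k) with h8 | h8
      · rw [min_eq_left h8]
        have := min_le_left (a m - a k') (w' m - w' k')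
        omega
      · rw [min_eq_right h8]
        have := min_le_right (a m - a k') (w' m - w' k')
        omega
    · obtain rfl : k = m := le_antisymm hk h6
      have := min_le_left (a k - a k') (w' k - w' k')
      omega
  refine ⟨fun k hk => ?_, fun k hk k' hk' l h1 h2 => ?_, fun k hk l h1 h2 => ?_,
    fun k hk => ?_⟩
  · have h1 := hc k hk.le
    have h2 := hc (k + 1) hk
    have h3 := hle (k + 1) hk k (Nat.le_succ k)
    have h4 := hinc (k + 1) hk k (Nat.le_succ k)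
    have h5 := mesh k hk
    omega
  · have h3 := hc k hk
    have h4 := hc k' (hk'.trans hk)
    have h5 := hinc k hk k' hk'
    have h6 := law k hk k' hk' l h1 h2
    have h7 := hle k hk k' hk'
    omega
  · have h3 := slope k hk l h1 h2
    have h4 := two k hk
    have h5 := amono m le_rfl k hk
    have h6 := wmono m le_rfl k hk
    obtain ⟨c, hcdef⟩ : ∃ c, c = min (a m - a k) (w' m - w' k) := ⟨_, rfl⟩
    have h7 : a m - a k ≤ 2 * c := by
      rw [hcdef]
      rcases le_total (a m - a k) (w' m - w' k) with h8 | h8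
      · rw [min_eq_left h8]
        omega
      · rw [min_eq_right h8]
        omega
    have h8 : c ≤ a m := by
      rw [hcdef]
      exact hc k hk
    rw [← hcdef, Nat.sub_self, Nat.zero_min, Nat.sub_zero]
    have h9 : S * (a m - a k) ≤ S * (2 * c) := Nat.mul_le_mul_left _ h7
    have h10 : S * (a m - a k) + S * a k = S * a m := by
      rw [← Nat.mul_add, Nat.sub_add_cancel h5]
    have h11 : 2 * S * (a m - c) + S * (2 * c) = 2 * S * a m := by
      have : 2 * S * (a m - c) + S * (2 * c) = 2 * S * (a m - c + c) := by ring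
      rw [this, Nat.sub_add_cancel h8]
    omega
  · have h1 := hc k hk
    have h3 := min_le_right (a m - a k) (w' m - w' k)
    have h4 := wmono m le_rfl k hk
    rw [Nat.sub_self, Nat.zero_min, Nat.sub_zero]
    omega

/-- **The truncated line side of the top level**, in the window `w₀`. -/
theorem side_R (n S : ℕ) (hS : 1 ≤ S) : ∃ c : ℝ, 0 ≤ c ∧ ∀ K m s₀ : ℕ, ∃ C : ℝ, 0 ≤ C ∧
    ∀ (d J : ℕ) (F : Fam d J) (e : ℕ → Fin d) (w₀ : ℕ) (a b w : ℕ → ℕ) (g : ℕ → ℕ → ℕ)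
    (h u : ℕ) (A : F.Ω → Prop) (G : ℕ → PtT F → ℕ → PN) (H : ℕ → LnT F → ℕ → PN) (θ : ℝ),
    Lvl F e n K m a w g h u s₀ A G H → Tms n S m b (wtop m w₀ w) g h u → w m ≤ w₀ →
    w₀ ≤ a m → (∀ k, 1 ≤ k → k ≤ m → ∀ i, 1 ≤ i → i ≤ n → s₀ + 1 ≤ g k i) →
    0 < Pe F.p A → 0 ≤ θ → (∀ k ≤ m, TimeS F A (w k) (J - w m) θ) →
    C * (θ + 1) ≤ (J - w m : ℕ) →
    ∃ (B : F.Ω → Prop) (Q : LnT F → ℕ → PN), (∀ ω, B ω → A ω) ∧ Pe F.p A ≤ 2 * Pe F.p B ∧
      (∀ s, TriN (Q s)) ∧ (∀ s i, (Q s i).totalDegree ≤ (S + 1) ^ (n + 1) ^ 2) ∧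
      ∀ ω, B ω → ∀ i, 1 ≤ i → i ≤ n →
      ∀ y : ℕ → ℝ, Bx (tus (a m) (g m)) (G m (ptr F J ω)) i y →
        |eval y (H m (slam F (w m) ω) i) - eval y (Q (slam F w₀ ω) i)| ≤
          Real.exp (c * (h + u) + C * (θ + 1)) / 2 ^ g m i := by
  classical
  obtain ⟨c, hc, hcls⟩ := trc_cls (n + 1) S hS
  refine ⟨c, hc, fun K m s₀ => ?_⟩
  obtain ⟨Cf, hCf0, hCf⟩ := hcls K m
  obtain ⟨c₁, hc₁, hpair⟩ := pair_two n K
  obtain ⟨C₂, hC₂, htub⟩ := tubes n K m
  obtain ⟨ρ, hρ⟩ : ∃ ρ : ℝ, ρ = 2 * 2 ^ s₀ := ⟨_, rfl⟩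
  have e1 : (1 : ℝ) ≤ 2 ^ s₀ := one_le_pow₀ (by norm_num)
  have hρ1 : 1 ≤ ρ := by rw [hρ]; linarith
  have hρ0 : 0 < ρ := by linarith
  have hρ2 : ρ = 2 ^ (s₀ + 1) := by rw [hρ, pow_succ]; ring
  have hl : 0 < Real.log 2 := Real.log_pos (by norm_num)
  have hl1 : Real.log 2 ≤ 1 := by
    have := Real.log_two_lt_d9
    linarith
  have hl2 : 1 / 2 ≤ Real.log 2 := by
    have := Real.log_two_gt_d9
    linarith
  obtain ⟨y, hy⟩ : ∃ y : ℝ, y = Real.log (((c₁ : ℝ) * 2 ^ s₀) ^ c₁ * 2 ^ s₀) := ⟨_, rfl⟩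
  have hy0 : 0 ≤ y := by
    rw [hy]
    refine Real.log_nonneg ?_
    have e2 : (1 : ℝ) ≤ c₁ := by exact_mod_cast hc₁
    have e3 : (1 : ℝ) ≤ ((c₁ : ℝ) * 2 ^ s₀) ^ c₁ := one_le_pow₀ (by nlinarith)
    nlinarith
  have hlρ := Real.log_nonneg hρ1
  obtain ⟨C, hC⟩ : ∃ C : ℝ, C = Cf + c * (y + 2 * C₂) + Real.log ρ + 4 * C₂ := ⟨_, rfl⟩
  have hC0 : 0 ≤ C := by
    rw [hC]
    positivity
  refine ⟨C, hC0, ?_⟩
  intro d J F e w₀ a bb w g h u A G H θ L hs hw1 hw2 hg hA hθ htm hJ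
  -- windows
  have hwmono : ∀ k ≤ m, ∀ k' ≤ k, w k' ≤ w k := by
    intro k hk k' hk'
    induction k with
    | zero =>
      have : k' = 0 := by omega
      rw [this]
    | succ k ih =>
      rcases Nat.lt_or_ge k' (k + 1) with h1 | h1
      · exact (ih (by omega) (by omega)).trans (L.wm k (by omega))
      · have : k' = k + 1 := by omega
        rw [this]
  have hwle : ∀ k ≤ m, w k ≤ w m := fun k hk => hwmono m le_rfl k hk
  have hamJ := L.aJ m le_rfl
  have hwbJ : w m ≤ J := (hw1.trans hw2).trans hamJ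
  -- the tubes
  obtain ⟨q, hq⟩ : ∃ q : F.Ω → ℝ, q = Pool.Agent.H49.Ent.cond F.p A True := ⟨_, rfl⟩
  have hqL : IsLaw q := by
    rw [hq]
    exact isLaw_cond F.isLaw hA
  have hqA : ∀ ω, 0 < q ω → A ω := fun ω hω => by
    rw [hq] at hω
    exact cond_supp hω
  obtain ⟨gz, hgz⟩ : ∃ gz : ℕ → ℕ → ℕ, gz = fun k l => g k l - (s₀ + 1) := ⟨_, rfl⟩
  obtain ⟨τ, hτ⟩ : ∃ τ : ℕ → LnT F → ℝ, τ = fun k s => tl (w k) s := ⟨_, rfl⟩
  obtain ⟨u', hu'⟩ : ∃ u' : ℝ, u' = (u : ℝ) * Real.log 2 + y := ⟨_, rfl⟩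
  have hpow : ∀ k l, (1 : ℝ) / 2 ^ gz k l ≤ ρ / 2 ^ g k l := fun k l => by
    rw [hgz, hρ2]
    exact pow_sub_le _ _
  have hpow' : ∀ k, 1 ≤ k → k ≤ m → ∀ l, 1 ≤ l → l ≤ n → (1 : ℝ) / 2 ^ gz k l =
      ρ / 2 ^ g k l := by
    intro k h1 h2 l h3 h4
    have h5 := hg k h1 h2 l h3 h4
    rw [hgz, hρ2]
    simp only
    rw [div_eq_div_iff (by positivity) (by positivity), one_mul, ← pow_add]
    congr 1
    omega
  have ht := htub F.Ω (LnT F) q (cx F e) gz (J - w m) (fun k ω => slam F (w k) ω) H w τ u' θ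
    (1 / 2) hqL L.triH L.degH hθ (by norm_num) (by norm_num) ?_ ?_ ?_ ?_ ?_
  rotate_left
  · intro k hk k' hk' ω ω' _ _ h1
    have h2 := hwmono k hk k' hk'
    have h3 : w k ≤ J := (hwle k hk).trans hwbJ
    show slam F (w k') ω = slam F (w k') ω'
    rw [← crs_eq F h2 h3 ω, ← crs_eq F h2 h3 ω']
    exact congrArg _ h1
  · intro k hk ω _
    rw [hτ, cx0]
    simp only
    rw [tl_eq]
    exact t_cell F ((hwle k hk).trans hwbJ) ω
  · intro k hk
    have h1 := htm k hk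
    unfold TimeS at h1
    rw [← hq] at h1
    rw [hτ]
    exact h1
  · intro ω hω k' hk' k hk l h1 hl' b hb0 hbj
    have hωA := hqA ω hω
    have h2 := hpair m d J F e a w g h u s₀ A G H L ω hωA k' hk' k hk l h1 hl' b ?_
    · rw [pow_twos s₀ u c₁ hc₁, ← hy, ← hu'] at h2
      have h3 : (1 : ℝ) / 2 ^ g k l ≤ 1 / 2 ^ gz k l := by
        refine one_div_le_one_div_of_le (by positivity) (pow_le_pow_right₀ (by norm_num) ?_)
        rw [hgz]
        exact Nat.sub_le _ _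
      refine h2.trans ?_
      rw [div_eq_mul_one_div, div_eq_mul_one_div (Real.exp u')]
      exact mul_le_mul_of_nonneg_left h3 (Real.exp_pos _).le
    · intro j hj
      rcases Nat.eq_zero_or_pos j with rfl | hj1
      · rw [tub_zero, eval_C, tl_eq, tus_zero, hb0, cx0]
        refine (t_cell F (L.aJ k' hk') ω).trans
          (div_le_div_of_nonneg_right ?_ (by positivity))
        linarith
      · rw [tub_pos _ _ hj1, tus_pos _ _ hj1]
        have h3 := hbj j hj1 hj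
        rw [hpow' k' (by omega) hk' j hj1 (by omega), hρ] at h3
        exact h3
  · have h1 : C₂ * (θ + 1) / (1 / 2) = 2 * C₂ * (θ + 1) := by ring
    rw [h1]
    have h2 : 4 * C₂ * (θ + 1) ≤ C * (θ + 1) := by
      refine mul_le_mul_of_nonneg_right ?_ (by linarith)
      rw [hC]
      have : 0 ≤ c * (y + 2 * C₂) := by positivity
      linarith
    have h3 : (0 : ℝ) ≤ (J - w m : ℕ) := Nat.cast_nonneg _
    nlinarith
  -- the event
  obtain ⟨A', hA'⟩ : ∃ A' : ℝ, A' = C₂ * ((θ + 1) / (1 / 2)) + u' := ⟨_, rfl⟩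
  rw [← hA', hq] at ht
  have hPe := half_of hA _ ht
  have hA'e : A' = 2 * C₂ * (θ + 1) + (u * Real.log 2 + y) := by
    rw [hA', hu']
    ring
  obtain ⟨B, hB⟩ : ∃ B : F.Ω → Prop, B = fun ω => A ω ∧ PrH n m H gz w τ A'
    (fun k => slam F (w k) ω) := ⟨_, rfl⟩
  rw [← hB] at hPe
  -- the windows of the telescope
  obtain ⟨w', hw'⟩ : ∃ w' : ℕ → ℕ, w' = wtop m w₀ w := ⟨_, rfl⟩
  rw [← hw'] at hs
  have hw'm : w' m = w₀ := by
    rw [hw']
    exact if_pos rfl
  have hw'k : ∀ k < m, w' k = w k := fun k hk => by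
    rw [hw']
    exact if_neg (by omega)
  have hww' : ∀ k ≤ m, w k ≤ w' k ∧ w' k ≤ J := by
    intro k hk
    rcases Nat.lt_or_ge k m with h1 | h1
    · rw [hw'k k h1]
      exact ⟨le_rfl, (hwle k hk).trans hwbJ⟩
    · have : k = m := by omega
      subst this
      rw [hw'm]
      exact ⟨hw1, hw2.trans hamJ⟩
  have hw'mono : ∀ k ≤ m, w' k ≤ w₀ := by
    intro k hk
    rcases Nat.lt_or_ge k m with h1 | h1
    · rw [hw'k k h1]
      exact (hwle k hk).trans hw1
    · have : k = m := by omega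
      subst this
      rw [hw'm]
  obtain ⟨P, hP⟩ : ∃ P : ℕ → LnT F → ℕ → PN, P = fun k s =>
      tub (tl (w' k) s) (H k (crs (w k) (w' k) s)) := ⟨_, rfl⟩
  have hPk : ∀ k ≤ m, ∀ ω, P k (slam F (w' k) ω) = tub (tl (w' k) (slam F (w' k) ω))
      (H k (slam F (w k) ω)) := by
    intro k hk ω
    rw [hP]
    simp only
    rw [crs_eq F (hww' k hk).1 (hww' k hk).2 ω]
  -- numbers
  have hA'u : (u : ℝ) * Real.log 2 ≤ A' := by
    rw [hA'e]
    have : 0 ≤ 2 * C₂ * (θ + 1) := by positivity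
    linarith
  have hA'0 : 0 ≤ A' := le_trans (by positivity) hA'u
  have hbox : ∀ ω, B ω → ∀ i ≤ n + 1, ∀ b : ℕ → ℝ, Bx (tus (a m) (g m)) (G m (ptr F J ω)) i b →
      BxE (sde (Real.log ρ) (tus (w' m) (g m))) (P m (slam F (w' m) ω)) i b := by
    intro ω hω i hi b hb
    have hωA : A ω := by
      rw [hB] at hω
      exact hω.1
    obtain ⟨h1, h2⟩ := L.toH hωA le_rfl hi hb
    rw [hPk m le_rfl, bxe_iff hρ0]
    refine ⟨fun h0 => ?_, fun j hj1 hj => ?_⟩
    · rw [tub_zero, eval_C, tl_eq, tus_zero, hw'm]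
      exact nest F hw2 hamJ ω (h1 h0)
    · rw [tub_pos _ _ hj1, tus_pos _ _ hj1, hρ]
      exact h2 j hj1 hj
  obtain ⟨Q, hQ1, hQ2, hQ3, hQ⟩ := hCf F.Ω (LnT F) (h * Real.log 2) A' B
    (cx F e) (fun k ω => slam F (w' k) ω) P (fun k => sde (Real.log ρ) (tus (w' k) (g k)))
    (fun k => (bb k : ℝ) * Real.log 2)
    { h0 := by positivity
      A0 := hA'0
      tri := fun k s => by
        rw [hP]
        exact tub_tri (L.triH _ _)
      deg := fun k s i => by
        rw [hP]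
        exact tub_deg (L.degH _ _) i
      zero := fun s => by
        obtain ⟨κ, hκ⟩ := L.H0 (crs (w 0) (w' 0) s)
        refine ⟨κ, fun i hi => ?_⟩
        rw [hP]
        simp only
        rw [tub_pos _ _ hi]
        exact hκ i hi
      box := fun ω hω k hk => by
        have hωA : A ω := by
          rw [hB] at hω
          exact hω.1
        obtain ⟨h1, h2⟩ := L.toH hωA hk le_rfl (L.own hωA hk)
        rw [hPk k hk, bxe_iff hρ0]
        refine ⟨fun h0 => ?_, fun j hj1 hj => ?_⟩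
        · rw [tub_zero, eval_C, tl_eq, tus_zero, cx0]
          exact t_cell F (hww' k hk).2 ω
        · rw [tub_pos _ _ hj1, tus_pos _ _ hj1, hρ]
          exact h2 j hj1 hj
      mesh := fun k hk => by
        obtain ⟨h1, h2⟩ := hs.mesh k hk
        have h1' : (bb k : ℝ) ≤ bb (k + 1) := by exact_mod_cast h1
        have h2' : (bb (k + 1) : ℝ) ≤ bb k + h := by exact_mod_cast h2
        refine ⟨mul_le_mul_of_nonneg_right h1' hl.le, ?_⟩
        have := mul_le_mul_of_nonneg_right h2' hl.le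
        linarith
      law := fun k hk k' hk' l h1 h2 => by
        have h3 := hs.law k hk k' hk' l h1 (by omega)
        have h3' : (g k' l : ℝ) + bb k ≤ g k l + bb k' + u := by exact_mod_cast h3
        rw [tus_sde _ _ _ h1, tus_sde _ _ _ h1]
        have := mul_le_mul_of_nonneg_right h3' hl.le
        linarith
      slope := fun k hk l h1 h2 => by
        have h3 := hs.slope k hk l h1 (by omega)
        have h3' : (g m l : ℝ) + S * bb k ≤ g k l + S * bb m + u := by exact_mod_cast h3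
        rw [tus_sde _ _ _ h1, tus_sde _ _ _ h1]
        have := mul_le_mul_of_nonneg_right h3' hl.le
        linarith
      time := fun k hk => by
        have h3 := hs.time k hk
        have h3' : (bb m : ℝ) + w' k ≤ bb k + w' m := by exact_mod_cast h3
        rw [tus_sde0, tus_sde0]
        have := mul_le_mul_of_nonneg_right h3' hl.le
        linarith
      uni := fun ω hω k' hk' k hk l h1 h2 b hb => by
        have hωB := hω
        rw [hB] at hωB
        rw [hPk k' hk', bxe_iff hρ0] at hb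
        obtain ⟨b1, b2⟩ := hb
        rw [hPk k' hk', hPk k (by omega), tub_pos _ _ h1, tub_pos _ _ h1, exp_sde ρ hρ0 _ h1,
          tus_pos _ _ h1]
        refine (hωB.2 k' hk' k hk l h1 (by omega) b fun j hj => ?_).trans ?_
        · rcases Nat.eq_zero_or_pos j with rfl | hj1
          · have h3 := b1 (by omega)
            rw [tub_zero, eval_C, tl_eq, tus_zero] at h3
            rw [tub_zero, eval_C, tus_zero, hτ]
            simp only
            rw [tl_eq]
            exact nest F (hww' k' hk').1 (hww' k' hk').2 ω h3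
          · have h3 := b2 j hj1 hj
            rw [tub_pos _ _ hj1, tus_pos _ _ hj1] at h3
            rw [tub_pos _ _ hj1, tus_pos _ _ hj1, hpow' k' (by omega) hk' j hj1 (by omega)]
            exact h3
        · rw [div_eq_mul_one_div, mul_div_assoc]
          exact mul_le_mul_of_nonneg_left (hpow k l) (Real.exp_pos _).le }
  refine ⟨B, fun s => Q (fun k => crs (w' k) w₀ s), fun ω hω => ?_, hPe, fun s => hQ1 _,
    fun s i => hQ2 _ i, fun ω hω i h1 hi b hb => ?_⟩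
  · rw [hB] at hω
    exact hω.1
  obtain ⟨-, -, k2⟩ := hQ ω hω
  have h3 := k2 i h1 (by omega) b (hbox ω hω i (by omega) b hb)
  have h4 : Q (fun k => slam F (w' k) ω) = Q (fun k => crs (w' k) w₀ (slam F w₀ ω)) :=
    hQ3 _ _ fun k hk => (crs_eq F (hw'mono k hk) (hw2.trans hamJ) ω).symm
  rw [h4, hPk m le_rfl, tub_pos _ _ h1, exp_sde ρ hρ0 _ h1, tus_pos _ _ h1] at h3
  refine h3.trans (div_le_div_of_nonneg_right ?_ (by positivity))
  have h5 : Real.exp (c * (h * Real.log 2 + A') + Cf) * ρ =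
      Real.exp (c * (h * Real.log 2 + A') + Cf + Real.log ρ) := by
    rw [Real.exp_add _ (Real.log ρ), Real.exp_log hρ0]
  rw [h5]
  refine Real.exp_le_exp.2 ?_
  rw [hA'e, hC]
  have e5 : c * (h * Real.log 2 + u * Real.log 2) ≤ c * (h + u) := by
    refine mul_le_mul_of_nonneg_left ?_ hc
    have e3 : (0 : ℝ) ≤ h := Nat.cast_nonneg h
    have e4 : (0 : ℝ) ≤ u := Nat.cast_nonneg u
    nlinarith
  have e6 : 0 ≤ (Cf + c * y + Real.log ρ) * θ := by positivity
  have e7 : 0 ≤ 4 * C₂ * (θ + 1) := by positivity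
  nlinarith

end Pool.TRC
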