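import Pool.Agent.H99.STAT.CmrwThm
import Pool.Agent.H63.STAT.Clo

/-!
# Polynomials which are small at the points are small on the natural boxes

General form, for one system: a closed variable `c`, a triangular system `Φ` of polynomials of the
closed variable, the digits of the heights over the system are full given the closed variable.
-/

set_option autoImplicit false

namespace Pool.TRC

open Finset MvPolynomial
open Pool.Agent.H49.Ent Pool.Agent.H32.Dense Pool.STK Pool.KS3 Pool.STAT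
open Pool.BFL (Pl CB Pb P2 MC alt)

/-- The heights over a system. -/
noncomputable def ht {Ω Γ : Type} (X : Ω → ℕ → ℝ) (Φ : Γ → ℕ → PN) (c : Ω → Γ) (ω : Ω) (i : ℕ) :
    ℝ := X ω i - eval (X ω) (Φ (c ω) i)

open CmrRow in
/-- **A polynomial of the closed variable which is small at the points is small on the natural
boxes.** -/
theorem uni_box (n K K' : ℕ) : ∃ C : ℝ, 1 ≤ C ∧ ∀ (Ω Γ : Type) [Fintype Ω] (q : Ω → ℝ)
    (c : Ω → Γ) (X : Ω → ℕ → ℝ) (Φ : Γ → ℕ → PN) (g : ℕ → ℕ) (L : ℕ) (φ : Γ → PN)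
    (Gd : Ω → Prop) (S₀ : Γ → ℝ) (θ η : ℝ), IsLaw q → (∀ x, TriN (Φ x)) →
    (∀ x i, (Φ x i).totalDegree ≤ K) →
    (∀ ω, 0 < q ω → ∀ i < n, |ht X Φ c ω i| ≤ 1 / 2 ^ g i) → 0 ≤ θ → 0 < η → η ≤ 1 →
    n * (L * Real.log 2) - θ ≤
      CH q (fun ω (i : Fin n) => ⌊(2 : ℝ) ^ (g i + L) * ht X Φ c ω i⌋) c →
    (∀ x, (φ x).totalDegree ≤ K') → (∀ x, (φ x).vars ⊆ range n) → (∀ x, 0 < S₀ x) →
    Pb q (fun ω => ¬ Gd ω) ≤ η / 4 → C * (θ + 1) / η ≤ L * Real.log 2 →
    (∀ ω, Gd ω → |eval (X ω) (φ (c ω))| ≤ S₀ (c ω)) →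
    Pb q (fun ω => ¬ ∀ b : ℕ → ℝ, Bx g (Φ (c ω)) n b →
      |eval b (φ (c ω))| ≤ Real.exp (C * (θ + 1) / η) * S₀ (c ω)) ≤ η := by
  classical
  obtain ⟨Kn, hKn⟩ := dgb_thm n K (fun _ => 1) rfl (fun _ => le_rfl)
  obtain ⟨CR, hCR, hren⟩ := Pool.Agent.H33.BFL.ren_thm n (K' * Kn) 1 le_rfl
  have hl2 : 0 < Real.log 2 := Real.log_pos (by norm_num)
  have hl21 : Real.log 2 ≤ 1 := by
    have := Real.log_two_lt_d9
    linarith
  have hn0 : (0 : ℝ) ≤ n := Nat.cast_nonneg n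
  have hCR0 : 0 < CR := by linarith
  obtain ⟨C, hC⟩ : ∃ C : ℝ, C = CR * (2 * n + 1) := ⟨_, rfl⟩
  have hCC : CR ≤ C := by
    rw [hC]
    nlinarith
  refine ⟨C, by linarith, ?_⟩
  intro Ω Γ _ q c X Φ g L φ Gd S₀ θ η hp hT hK hgt hθ hη hη1 hful hφ hφv hS₀ hGd hL hb
  obtain ⟨θ', hθ'⟩ : ∃ θ' : ℝ, θ' = θ + n * (2 * Real.log 2) := ⟨_, rfl⟩
  have hθ'0 : 0 ≤ θ' := by
    rw [hθ']
    positivity
  have hθC : CR * (θ' + 1) / η ≤ C * (θ + 1) / η := by
    refine div_le_div_of_nonneg_right ?_ hη.le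
    rw [hθ', hC, mul_assoc]
    refine mul_le_mul_of_nonneg_left ?_ hCR0.le
    have e1 : (n : ℝ) * (2 * Real.log 2) ≤ n * 2 := mul_le_mul_of_nonneg_left (by linarith) hn0
    nlinarith [mul_nonneg hn0 hθ]
  -- the data
  set f : Ω → Fin n → ℤ := fun ω i => ⌊(2 : ℝ) ^ (g i + L) * ht X Φ c ω i⌋ with hf
  have hf1 : ∀ ω, 0 < q ω → ∀ i : Fin n, -(2 : ℤ) ^ L ≤ f ω i ∧ f ω i ≤ 2 ^ L := by
    intro ω hω i
    have h1 := hgt ω hω i i.2
    have h2 : |(2 : ℝ) ^ (g i + L) * ht X Φ c ω i| ≤ 2 ^ L := by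
      rw [abs_mul, abs_of_pos (by positivity), pow_add, mul_comm ((2 : ℝ) ^ g i), mul_assoc]
      have h3 : (2 : ℝ) ^ g i * |ht X Φ c ω i| ≤ 1 := by
        rw [le_div_iff₀ (by positivity)] at h1
        linarith
      nlinarith [show (0 : ℝ) < 2 ^ L by positivity]
    rw [abs_le] at h2
    constructor
    · have h3 : ((-(2 : ℤ) ^ L : ℤ) : ℝ) ≤ (2 : ℝ) ^ (g i + L) * ht X Φ c ω i := by
        push_cast
        exact h2.1
      exact Int.le_floor.2 h3
    · have h3 : (f ω i : ℝ) ≤ 2 ^ L := (Int.floor_le _).trans h2.2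
      exact_mod_cast h3
  set Y : Ω → Fin n → ℕ := fun ω i => if 0 < q ω then (f ω i + 2 ^ L).toNat else 0 with hY
  have hYlt : ∀ ω i, Y ω i < 2 ^ (L + 2) := by
    intro ω i
    have hpos : 0 < 2 ^ (L + 2) := by positivity
    simp only [hY]
    split_ifs with h
    · have h1 := hf1 ω h i
      have h2 : (2 : ℕ) ^ (L + 2) = 2 ^ L * 4 := by rw [pow_add]; norm_num
      have h3 : (0 : ℤ) < 2 ^ L := by positivity
      have h4 : (((2 : ℕ) ^ (L + 2) : ℕ) : ℤ) = 2 ^ L * 4 := by rw [h2]; push_cast; ring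
      have h5 : f ω i + 2 ^ L < ((2 ^ (L + 2) : ℕ) : ℤ) := by
        rw [h4]
        linarith [h1.2]
      omega
    · exact hpos
  have hYf : ∀ ω, 0 < q ω → ∀ i, (Y ω i : ℤ) = f ω i + 2 ^ L := by
    intro ω hω i
    simp only [hY]
    rw [if_pos hω, Int.toNat_of_nonneg]
    linarith [(hf1 ω hω i).1]
  set Pn : Γ → Pl n := fun x => pu n (bind₁ (nuc g (Φ x)) (φ x)) with hPn
  have hPdeg : ∀ x, (Pn x).totalDegree ≤ K' * Kn := by
    intro x
    refine deg_pu n ?_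
    exact deg_aeval (fun i hi => (hKn (Φ x) g (hT x) (fun i _ => hK x i) i
      (Finset.mem_range.1 (hφv x hi)).le).2.2.2) (hφ x)
  have hent : n * (((L + 2 : ℕ) : ℝ) * Real.log 2) - θ' ≤ CH q Y c := by
    have h2 : CH q Y c = CH q f c := by
      refine CH_congr hp.nonneg ?_ ?_ (fun _ _ _ _ h => h) (fun _ _ _ _ h => h)
      · intro ω ω' a b h
        have h3 := (Prod.ext_iff.1 h).1
        funext i
        have h4 : Y ω i = Y ω' i := congrFun h3 i
        have h5 := hYf ω a i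
        have h6 := hYf ω' b i
        rw [h4] at h5
        linarith
      · intro ω ω' a b h
        have h3 := (Prod.ext_iff.1 h).1
        funext i
        have h4 : f ω i = f ω' i := congrFun h3 i
        have h5 := hYf ω a i
        have h6 := hYf ω' b i
        rw [h4] at h5
        exact_mod_cast h5.trans h6.symm
    rw [h2]
    have h4 : (n : ℝ) * (((L + 2 : ℕ) : ℝ) * Real.log 2) - θ' = n * (L * Real.log 2) - θ := by
      rw [hθ']
      push_cast
      ring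
    rw [h4]
    exact hful
  have hfin := hren Ω Γ q (L + 2) Y c Pn (fun ω => Gd ω ∧ 0 < q ω) S₀ θ' η hp hYlt
    hPdeg hθ'0 hη hη1 hent ?_ hS₀ ?_ ?_
  · refine (Pool.Agent.H39.BFL.Pb_mono hp.nonneg fun ω hω hnot hall => ?_).trans hfin
    apply hnot
    intro b hbx
    have h1 := eval_nat AdxRow.adx_thm (hT (c ω)) g (hφv (c ω)) b
    rw [← h1]
    refine (hall _ ?_).trans (mul_le_mul_of_nonneg_right (Real.exp_le_exp.2 hθC)
      (hS₀ _).le)
    intro i
    have h2 := hbx i i.2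
    have h3 : |(2 : ℝ) ^ g i * (b i - eval b (Φ (c ω) i))| ≤ 1 := by
      rw [abs_mul, abs_of_pos (by positivity)]
      rw [le_div_iff₀ (by positivity)] at h2
      linarith
    rw [abs_le] at h3 ⊢
    constructor <;> linarith [h3.1, h3.2]
  · refine le_trans (Pool.Agent.H39.BFL.Pb_mono hp.nonneg fun ω hω hnot hG => ?_) hGd
    exact hnot ⟨hG, hω⟩
  · refine hθC.trans (hL.trans (mul_le_mul_of_nonneg_right ?_ hl2.le))
    push_cast
    linarith
  · rintro ω ⟨hG, hω⟩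
    refine ⟨fun i : Fin n => ((2 : ℝ) ^ g i *
      (X ω i - eval (X ω) (Φ (c ω) i)) + 1) / 4, fun i => ?_, ?_⟩
    · have h1 : (Y ω i : ℝ) = (f ω i : ℝ) + 2 ^ L := by exact_mod_cast hYf ω hω i
      rw [h1]
      have h2 := Int.floor_le ((2 : ℝ) ^ (g i + L) * ht X Φ c ω i)
      have h3 := Int.lt_floor_add_one ((2 : ℝ) ^ (g i + L) * ht X Φ c ω i)
      have h4 : ht X Φ c ω i = X ω i - eval (X ω) (Φ (c ω) i) := rfl
      simp only
      rw [← h4]
      have h5 : (2 : ℝ) ^ (L + 2) = 2 ^ L * 4 := by rw [pow_add]; norm_num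
      have hz2 : (0 : ℝ) < 2 ^ L := by positivity
      have h6 : ((2 : ℝ) ^ g i * ht X Φ c ω i + 1) / 4 - ((f ω i : ℝ) + 2 ^ L) / 2 ^ (L + 2) =
          ((2 : ℝ) ^ (g i + L) * ht X Φ c ω i - f ω i) / 2 ^ (L + 2) := by
        rw [h5, pow_add]
        field_simp
        ring
      rw [h6, abs_div, abs_of_pos (show (0 : ℝ) < 2 ^ (L + 2) by positivity)]
      refine div_le_div_of_nonneg_right ?_ (by positivity)
      rw [abs_le]
      constructor <;> linarith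
    · rw [hPn]
      have h1 := eval_nat AdxRow.adx_thm (hT (c ω)) g (hφv (c ω)) (X ω)
      rw [h1]
      exact hb ω hG

end Pool.TRC
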